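import Pool.Agent.SPN.SumP

/-!
# The charge sum of two groups, seen as a function of the first group, has the rules of `Y ++ Y`
-/

set_option autoImplicit false

open Polynomial

namespace SPN

open NUGas

variable {ζ η σ om : ℂ}

lemma prod_sq {f : ℂ → ℂ} (Y : List ℂ) :
    (Y.map (fun y => f y ^ 2)).prod = (Y.map f).prod * (Y.map f).prod := by
  rw [← List.prod_map_mul]
  simp only [sq]

/-- every function with the properties `Data` has, for fixed second group `Y`, the rules of `Y ++ Y` -/
theorem rul_of_data {n' : ℂ} {W : List ℂ → List ℂ → ℂ} (h : Data η n' W) {Y : List ℂ}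
    (hY : Gen η Y) : Rul η (Y ++ Y) (fun X => W X Y) where
  perm hp := h.perm Y hp
  poly X hX := by
    obtain ⟨P, h1, h2, h3, h4⟩ := h.poly X Y hX hY
    refine ⟨P, ?_, ?_, ?_, h4⟩
    · rw [List.length_append]; omega
    · rw [List.length_append, ← h2]; congr 1; omega
    · rw [h3, List.prod_append, prod_sq (f := fun y => y) Y, List.map_id']
  cross q X hX := by
    rw [h.cross q X Y hX hY, List.map_append, List.prod_append,
      prod_sq (f := fun y => (y + η * q) * (y + η ^ 2 * q)) Y]
  fuse t X hX := by
    rw [h.fuse t X Y hX hY, List.map_append, List.prod_append,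
      prod_sq (f := fun y => y + η * t) Y]

/-- two copies of a half row with the same charge are a row -/
lemma HL_double (hη : η = ζ ^ 2) (f : List (ℂ × SignType)) (a : SignType) (t : ℂ) :
    HL ζ η (f ++ f) a t = (f.map (fun d => G η a d.2 t d.1)).prod := by
  unfold HL
  rw [List.map_append, List.prod_append, ← List.prod_map_mul]
  congr 1
  refine List.map_congr_left fun d _ => ?_
  rw [← H_sq hη, sq]

lemma tot_append (e f : List (ℂ × SignType)) : tot (e ++ f) = tot e + tot f := by
  simp [tot]

/-- **the charge sum of two groups is a sum over the charges of the second group** -/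
theorem N_eq_S (hη : η = ζ ^ 2) (X Y : List ℂ) :
    N η σ om X Y = sch Y (fun f =>
      om ^ tot f * own η σ f * S η σ (tot (f ++ f)) (HL ζ η (f ++ f)) X) := by
  unfold N
  rw [sch_comm]
  refine sch_congr fun f _ => ?_
  unfold S
  rw [← sch_mul_left]
  refine sch_congr fun e _ => ?_
  unfold term
  rw [tot_append]
  by_cases h : tot e = tot f
  · rw [if_pos h, if_pos (by rw [h]; ring), h]
    simp only [crs, HL_double hη]
    ring
  · rw [if_neg h, if_neg (fun h' => h (by linarith)), mul_zero]

/-- a sum over charges of functions with the rules has the rules -/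
theorem Rul.sch {Y : List ℂ} (W : List ℂ) {c : List (ℂ × SignType) → ℂ}
    {F : List (ℂ × SignType) → List ℂ → ℂ}
    (hF : ∀ f : List (ℂ × SignType), f.map Prod.fst = W → Rul η Y (F f)) :
    Rul η Y (fun X => sch W (fun f => c f * F f X)) := by
  induction W generalizing c F with
  | nil => exact (hF [] rfl).smul (c [])
  | cons w W ih =>
    have : ∀ a : SignType, Rul η Y (fun X => NUGas.sch W (fun f => c ((w, a) :: f) * F ((w, a) :: f) X)) :=
      fun a => ih (c := fun f => c ((w, a) :: f)) (F := fun f => F ((w, a) :: f))
        (fun f hf => hF _ (by simp [hf]))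
    have h := Rul.sum (η := η) (Y := Y) (F := fun a X =>
      NUGas.sch W (fun f => c ((w, a) :: f) * F ((w, a) :: f) X)) Finset.univ this (fun _ => 1)
    simpa [NUGas.sch] using h

end SPN
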