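import Pool.Agent.SPN.BDefs

/-!
# Products of two `b` have the rules of the half rows

`two_rul` : `X ↦ b (X ++ U) * b (X ++ V)` is in `Rul η (U ++ V)`, all `U`, `V`.
-/

set_option autoImplicit false

open Polynomial

namespace SPN

open NUGas

variable {η κ ρ : ℂ} {b : List ℂ → ℂ}

lemma prod_sqX (f : ℂ → ℂ) (X : List ℂ) :
    (X.map fun x => f x ^ 2).prod = (X.map f).prod ^ 2 := by
  induction X with
  | nil => simp
  | cons x X ih => simp only [List.map_cons, List.prod_cons, ih]; ring

/-- the product of the two copies -/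
def two (b : List ℂ → ℂ) (U V X : List ℂ) : ℂ := b (X ++ U) * b (X ++ V)

lemma Rul.permY {Y Y' : List ℂ} (h : Y.Perm Y') {F : List ℂ → ℂ} (hF : Rul η Y F) :
    Rul η Y' F where
  perm := hF.perm
  poly X hX := by
    obtain ⟨P, h1, h2, h3, h4⟩ := hF.poly X hX
    rw [h.length_eq] at h1 h2
    rw [h.prod_eq] at h3
    exact ⟨P, h1, h2, h3, h4⟩
  cross q X hX := by
    rw [hF.cross q X hX, (h.map _).prod_eq]
  fuse t X hX := by
    rw [hF.fuse t X hX, (h.map _).prod_eq]

theorem two_rul (hκ : κ ^ 2 = (2 - η + η ^ 3) * η ^ 3) (hρ : ρ ^ 2 = 2 * η ^ 2)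
    (hb : BT η κ ρ b) (U V : List ℂ) : Rul η (U ++ V) (two b U V) where
  perm h := by
    unfold two
    rw [hb.perm (h.append_right U), hb.perm (h.append_right V)]
  poly X _ := by
    obtain ⟨P, p1, p2, p3, p4⟩ := hb.poly (X ++ U)
    obtain ⟨Q, q1, q2, q3, q4⟩ := hb.poly (X ++ V)
    have hlen : 2 * X.length + (U ++ V).length = (X ++ U).length + (X ++ V).length := by
      simp only [List.length_append]; ring
    refine ⟨P * Q, ?_, ?_, ?_, fun t _ => ?_⟩
    · rw [hlen]
      exact Polynomial.natDegree_mul_le.trans (add_le_add p1 q1)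
    · rw [hlen, Polynomial.coeff_mul_add_eq_of_natDegree_le p1 q1, p2, q2]
      rfl
    · rw [Polynomial.mul_coeff_zero, p3, q3]
      unfold two
      have e := prod_sqX (fun x => x) X
      rw [List.map_id'] at e
      rw [e]
      simp only [List.prod_append]
      ring
    · rw [Polynomial.eval_mul, ← p4, ← q4]
      rfl
  cross q X _ := by
    unfold two
    simp only [List.cons_append]
    rw [hb.cross, hb.cross]
    have e : (X.map (fun x => ((x + η * q) * (x + η ^ 2 * q)) ^ 2)).prod =
        (X.map (fun x => (x + η * q) * (x + η ^ 2 * q))).prod ^ 2 := prod_sqX _ _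
    rw [e]
    simp only [List.map_append, List.prod_append]
    rw [← hκ]
    ring
  fuse t X _ := by
    unfold two
    simp only [List.cons_append]
    rw [hb.fuse, hb.fuse]
    have e : (X.map (fun x => (x + η * t) ^ 2)).prod =
        (X.map (fun x => x + η * t)).prod ^ 2 := prod_sqX _ _
    rw [e]
    simp only [List.map_append, List.prod_append]
    have h2 : 2 * (η * t) ^ 2 = ρ ^ 2 * t ^ 2 := by rw [hρ]; ring
    rw [h2]
    ring

end SPN
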