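import Pool.Agent.SPN.PF
import Mathlib.LinearAlgebra.Lagrange

/-!
# From generic lists to all lists

`tot_of_gen` : a function with the rules `BG` on generic lists agrees there with a function with the
rules `BT` on all lists.
-/

set_option autoImplicit false

open Polynomial

namespace SPN

open NUGas

variable {η κ ρ : ℂ} {b : List ℂ → ℂ}

lemma good_nd (hη : η ^ 4 = -1) {L : List ℂ} {t : ℂ} (h : ∀ x ∈ L, Sep η t x) :
    Good η t L ∧ ∀ x ∈ L, t ≠ -x := by
  constructor
  · intro x hx
    refine ⟨fun hc => h x hx 0 (by simpa using hc), fun hc => h x hx 1 (by simpa using hc), ?_⟩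
    intro hc
    refine ((h x hx).mul_right hη 1) 0 ?_
    rw [pow_zero, one_mul, pow_one]
    exact hc
  · intro x hx hc
    refine h x hx 4 ?_
    rw [hη, hc]
    ring

lemma gen_cons (hη : η ^ 4 = -1) {L : List ℂ} {t : ℂ} (ht : t ≠ 0) (h : ∀ x ∈ L, Sep η t x)
    (hL : Gen η L) : Gen η (t :: L) := by
  refine ⟨fun x hx => ?_, List.pairwise_cons.2 ⟨h, hL.2⟩⟩
  rcases List.mem_cons.1 hx with rfl | hx
  · exact ht
  · exact hL.1 x hx

/-- interpolation in the first variable -/
lemma interp (hη : η ^ 4 = -1) (hb : BG η κ ρ b) {L : List ℂ} (hL : Gen η L) {d K : ℕ}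
    (hd : L.length ≤ d) (hK : ∀ j ≤ d, ∀ x ∈ L, Sep η (nd (K + j)) x) {t : ℂ} (ht : Good η t L)
    (ht' : ∀ x ∈ L, t ≠ -x) :
    b (t :: L) = ∑ j ∈ Finset.range (d + 1),
      b (nd (K + j) :: L) * (Lagrange.basis (Finset.range (d + 1)) (fun j => nd (K + j)) j).eval t := by
  obtain ⟨P, h1, -, -, h4⟩ := hb.poly L hL
  have hinj : Set.InjOn (fun j : ℕ => nd (K + j)) (Finset.range (d + 1)) := by
    intro i _ j _ hij
    have := nd_inj hij
    omega
  have hdeg : P.degree < (Finset.range (d + 1)).card := by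
    rw [Finset.card_range]
    refine lt_of_le_of_lt Polynomial.degree_le_natDegree ?_
    exact_mod_cast Nat.lt_succ_of_le (h1.trans hd)
  have h5 := Lagrange.eq_interpolate hinj hdeg
  rw [h4 t ht ht']
  conv_lhs => rw [h5]
  rw [Lagrange.interpolate_apply, Polynomial.eval_finsetSum]
  refine Finset.sum_congr rfl fun j hj => ?_
  rw [Finset.mem_range] at hj
  rw [Polynomial.eval_mul, Polynomial.eval_C]
  congr 1
  have h6 := good_nd hη (hK j (by omega))
  exact (h4 _ h6.1 h6.2).symm

/-- on generic lists `b` is a polynomial -/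
lemma ext_poly (hη : η ^ 4 = -1) (hb : BG η κ ρ b) :
    ∀ (n : ℕ) (T : List ℂ), Gen η T → ∃ f : (Fin n → ℂ) → ℂ, PF n f ∧
      ∀ v : Fin n → ℂ, Gen η (List.ofFn v ++ T) → b (List.ofFn v ++ T) = f v := by
  intro n
  induction n with
  | zero =>
    intro T _
    exact ⟨fun _ => b T, PF.const _, fun v _ => by simp⟩
  | succ n ih =>
    intro T hT
    obtain ⟨K0, hK0⟩ := exists_sep T hη
    have hg : ∀ K ≥ K0, ∀ j : ℕ, Gen η (nd (K + j) :: T) := fun K hK j =>
      gen_cons hη (nd_ne _) (hK0 _ (by omega)) hT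
    have hF : ∀ (K : ℕ) (j : ℕ), ∃ f : (Fin n → ℂ) → ℂ, PF n f ∧ (K0 ≤ K →
        ∀ v : Fin n → ℂ, Gen η (List.ofFn v ++ nd (K + j) :: T) →
          b (List.ofFn v ++ nd (K + j) :: T) = f v) := by
      intro K j
      by_cases hK : K0 ≤ K
      · obtain ⟨f, h1, h2⟩ := ih _ (hg K hK j)
        exact ⟨f, h1, fun _ => h2⟩
      · exact ⟨fun _ => 0, PF.const 0, fun h => absurd h hK⟩
    choose F hF1 hF2 using hF
    set d : ℕ := n + T.length with hd
    set R : ℕ → (Fin (n + 1) → ℂ) → ℂ := fun K v => ∑ j ∈ Finset.range (d + 1),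
      F K j (fun i => v i.succ) *
        (Lagrange.basis (Finset.range (d + 1)) (fun j => nd (K + j)) j).eval (v 0) with hR
    have hRP : ∀ K, PF (n + 1) (R K) := fun K =>
      PF.sum _ fun j _ => ((hF1 K j).comp fun i => PF.var i.succ).mul ((PF.var 0).eval _)
    have key : ∀ K ≥ K0, ∀ v : Fin (n + 1) → ℂ, Gen η (List.ofFn v ++ T) →
        (∀ j ≤ d, ∀ x ∈ List.ofFn v, Sep η (nd (K + j)) x) → b (List.ofFn v ++ T) = R K v := by
      intro K hK v hv hs
      rw [List.ofFn_succ, List.cons_append] at hv ⊢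
      have hL := hv.tail
      have hmem : ∀ x ∈ (List.ofFn fun i : Fin n => v i.succ), x ∈ List.ofFn v := by
        intro x hx
        rw [List.ofFn_succ]
        exact List.mem_cons_of_mem _ hx
      have hgood := hv.good hη
      have hneg : ∀ x ∈ (List.ofFn fun i : Fin n => v i.succ) ++ T, v 0 ≠ -x :=
        (good_nd hη fun x hx => hv.sep hx).2
      have hs2 : ∀ j ≤ d, ∀ x ∈ (List.ofFn fun i : Fin n => v i.succ) ++ T,
          Sep η (nd (K + j)) x := by
        intro i hi x hx
        rcases List.mem_append.1 hx with hx | hx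
        · exact hs i hi x (hmem x hx)
        · exact hK0 _ (by omega) x hx
      rw [interp hη hb hL (d := d) (K := K) (by simp [hd]) hs2 hgood hneg, hR]
      refine Finset.sum_congr rfl fun j hj => ?_
      rw [Finset.mem_range] at hj
      congr 1
      have hp : (nd (K + j) :: ((List.ofFn fun i : Fin n => v i.succ) ++ T)).Perm
          ((List.ofFn fun i : Fin n => v i.succ) ++ nd (K + j) :: T) := List.perm_middle.symm
      rw [hb.perm hp]
      refine hF2 K j hK _ ?_
      refine Gen.perm hη hp (gen_cons hη (nd_ne _) (hs2 j (by omega)) hL)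
    have heq : ∀ K ≥ K0, ∀ v, R K v = R K0 v := by
      intro K hK
      refine PF.ext_nd (hRP K) (hRP K0) (K + d + 1) fun a ha haK => ?_
      have hgen : Gen η (List.ofFn (fun i => nd (a i)) ++ T) := by
        refine ⟨fun x hx => ?_, List.pairwise_append.2 ⟨(gen_inj hη ha).2, hT.2, ?_⟩⟩
        · rcases List.mem_append.1 hx with hx | hx
          · exact (gen_inj hη ha).1 x hx
          · exact hT.1 x hx
        · intro x hx y hy
          obtain ⟨i, rfl⟩ := (List.mem_ofFn' _ _).1 hx
          have := haK i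
          exact hK0 _ (by omega) y hy
      have hsep : ∀ K1 ≤ K, ∀ j ≤ d, ∀ x ∈ List.ofFn (fun i => nd (a i)),
          Sep η (nd (K1 + j)) x := by
        intro K1 hK1 j hj x hx
        obtain ⟨i, rfl⟩ := (List.mem_ofFn' _ _).1 hx
        have := haK i
        exact sep_nd hη (by omega)
      rw [← key K hK _ hgen (hsep K le_rfl), ← key K0 le_rfl _ hgen (hsep K0 hK)]
    refine ⟨R K0, hRP K0, fun v hv => ?_⟩
    obtain ⟨K1, hK1⟩ := exists_sep (List.ofFn v) hη
    rw [← heq (max K0 K1) (le_max_left _ _)]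
    exact key _ (le_max_left _ _) v hv fun j _ => hK1 _ (by
      have := le_max_right K0 K1
      omega)

/-! ### the function on all lists -/

/-- the polynomial of a given length -/
noncomputable def tf (hη : η ^ 4 = -1) (hb : BG η κ ρ b) (n : ℕ) : (Fin n → ℂ) → ℂ :=
  (ext_poly hη hb n [] ⟨by simp, List.Pairwise.nil⟩).choose

lemma tf_pf (hη : η ^ 4 = -1) (hb : BG η κ ρ b) (n : ℕ) : PF n (tf hη hb n) :=
  (ext_poly hη hb n [] ⟨by simp, List.Pairwise.nil⟩).choose_spec.1

lemma tf_eq (hη : η ^ 4 = -1) (hb : BG η κ ρ b) (n : ℕ) (v : Fin n → ℂ)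
    (hv : Gen η (List.ofFn v)) : b (List.ofFn v) = tf hη hb n v := by
  have := (ext_poly hη hb n [] ⟨by simp, List.Pairwise.nil⟩).choose_spec.2 v (by simpa using hv)
  rw [List.append_nil] at this
  exact this

/-- the function on all lists -/
noncomputable def bt (hη : η ^ 4 = -1) (hb : BG η κ ρ b) (L : List ℂ) : ℂ :=
  tf hη hb L.length L.get

lemma bt_ofFn (hη : η ^ 4 = -1) (hb : BG η κ ρ b) {n : ℕ} (v : Fin n → ℂ) :
    bt hη hb (List.ofFn v) = tf hη hb n v := by
  have key : ∀ (L : List ℂ) (h : L.length = n), (∀ i : Fin n, L.get (i.cast h.symm) = v i) →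
      bt hη hb L = tf hη hb n v := by
    intro L h h2
    subst h
    unfold bt
    congr 1
    funext i
    exact h2 i
  refine key _ (List.length_ofFn ..) fun i => ?_
  simp

lemma bt_gen (hη : η ^ 4 = -1) (hb : BG η κ ρ b) {L : List ℂ} (hL : Gen η L) :
    bt hη hb L = b L := by
  have h : List.ofFn L.get = L := List.ofFn_get L
  have h2 := tf_eq hη hb L.length L.get (by rw [h]; exact hL)
  rw [h] at h2
  exact h2.symm

lemma bt_perm (hη : η ^ 4 = -1) (hb : BG η κ ρ b) {X X' : List ℂ} (h : X.Perm X') :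
    bt hη hb X = bt hη hb X' := by
  obtain ⟨n, v, rfl⟩ : ∃ (n : ℕ) (v : Fin n → ℂ), X = List.ofFn v :=
    ⟨X.length, X.get, (List.ofFn_get X).symm⟩
  have hn : X'.length = n := by rw [← h.length_eq, List.length_ofFn]
  subst hn
  have h' : (List.ofFn v).Perm (List.ofFn X'.get) := by rw [List.ofFn_get]; exact h
  obtain ⟨σ, hσ⟩ := exists_perm h'
  have e : bt hη hb X' = tf hη hb X'.length X'.get := rfl
  rw [bt_ofFn, e]
  have h3 : ∀ w : Fin X'.length → ℂ, tf hη hb _ (fun i => w (σ i)) = tf hη hb _ w := by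
    refine PF.ext_nd ((tf_pf hη hb _).comp fun i => PF.var (σ i)) (tf_pf hη hb _) 0
      fun a ha _ => ?_
    have g1 := gen_inj hη ha
    have g2 : Gen η (List.ofFn fun i => nd (a (σ i))) :=
      gen_inj hη (a := fun i => a (σ i)) (ha.comp σ.injective)
    rw [← tf_eq hη hb _ _ g1, ← tf_eq hη hb _ _ g2]
    refine hb.perm ?_
    exact σ.ofFn_comp_perm (fun i => nd (a i))
  have h4 : v = fun i => X'.get (σ i) := funext fun i => (hσ i).symm
  rw [h4]
  exact h3 _

/-! ### the rules for all lists -/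

/-- equality of two functions of lists -/
lemma list_ext {F G : List ℂ → ℂ} {n : ℕ} (hF : PF n fun v => F (List.ofFn v))
    (hG : PF n fun v => G (List.ofFn v)) (K : ℕ)
    (h : ∀ a : Fin n → ℕ, Function.Injective a → (∀ i, K ≤ a i) →
      F (List.ofFn fun i => nd (a i)) = G (List.ofFn fun i => nd (a i))) {L : List ℂ}
    (hL : L.length = n) : F L = G L := by
  subst hL
  have := PF.ext_nd hF hG K h L.get
  simpa using this

lemma bt_mv (hη : η ^ 4 = -1) (hb : BG η κ ρ b) (n : ℕ) :
    PF n (fun v => bt hη hb (List.ofFn v)) :=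
  (tf_pf hη hb n).congr fun v => bt_ofFn hη hb v

/-- substitution of a polynomial in front -/
lemma bt_cons_pf (hη : η ^ 4 = -1) (hb : BG η κ ρ b) {n m : ℕ} {g : (Fin n → ℂ) → ℂ}
    (hg : PF n g) {e : Fin m → (Fin n → ℂ) → ℂ} (he : ∀ i, PF n (e i)) :
    PF n (fun v => bt hη hb (g v :: List.ofFn fun i => e i v)) := by
  refine ((tf_pf hη hb (m + 1)).comp (g := Fin.cons g e) fun i => ?_).congr fun v => ?_
  · refine Fin.cases ?_ (fun j => ?_) i
    · simpa using hg
    · simpa using he j
  · rw [← bt_ofFn, List.ofFn_succ]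
    simp

lemma nodes_inj (K d : ℕ) : Set.InjOn (fun j : ℕ => nd (K + j)) (Finset.range (d + 1)) := by
  intro i _ j _ hij
  have := nd_inj hij
  omega

/-- the polynomial of the first variable -/
noncomputable def lp (f : List ℂ → ℂ) (L : List ℂ) : ℂ[X] :=
  Lagrange.interpolate (Finset.range (L.length + 1)) (fun j => nd (0 + j)) fun j =>
    f (nd (0 + j) :: L)

lemma lp_natDegree (f : List ℂ → ℂ) (L : List ℂ) : (lp f L).natDegree ≤ L.length := by
  have h := Lagrange.degree_interpolate_lt (r := fun j => f (nd (0 + j) :: L))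
    (nodes_inj 0 L.length)
  rw [Finset.card_range] at h
  by_cases h0 : lp f L = 0
  · rw [h0]; simp
  · exact Nat.lt_succ_iff.1 ((Polynomial.natDegree_lt_iff_degree_lt h0).2 h)

lemma bt_interp (hη : η ^ 4 = -1) (hb : BG η κ ρ b) (t : ℂ) (L : List ℂ) :
    bt hη hb (t :: L) = (lp (bt hη hb) L).eval t := by
  obtain ⟨n, w, rfl⟩ : ∃ (n : ℕ) (w : Fin n → ℂ), L = List.ofFn w :=
    ⟨L.length, L.get, (List.ofFn_get L).symm⟩
  have e : ∀ (t : ℂ) (w : Fin n → ℂ), (lp (bt hη hb) (List.ofFn w)).eval t =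
      ∑ j ∈ Finset.range (n + 1), bt hη hb (nd (0 + j) :: List.ofFn w) *
        (Lagrange.basis (Finset.range (n + 1)) (fun j => nd (0 + j)) j).eval t := by
    intro t w
    unfold lp
    rw [Lagrange.interpolate_apply, Polynomial.eval_finsetSum, List.length_ofFn]
    refine Finset.sum_congr rfl fun j _ => ?_
    rw [Polynomial.eval_mul, Polynomial.eval_C]
  rw [e]
  have h1 : PF (n + 1) fun v => bt hη hb (v 0 :: List.ofFn fun i : Fin n => v i.succ) :=
    bt_cons_pf hη hb (PF.var 0) fun i => PF.var i.succ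
  have h2 : PF (n + 1) fun v => ∑ j ∈ Finset.range (n + 1),
      bt hη hb (nd (0 + j) :: List.ofFn fun i : Fin n => v i.succ) *
        (Lagrange.basis (Finset.range (n + 1)) (fun j => nd (0 + j)) j).eval (v 0) :=
    PF.sum _ fun j _ => (bt_cons_pf hη hb (PF.const _) fun i => PF.var i.succ).mul
      ((PF.var 0).eval _)
  have h3 := PF.ext_nd h1 h2 (n + 1) (fun a ha haK => ?_) (Fin.cons t w)
  · simpa using h3
  · have hg := gen_inj hη ha
    rw [List.ofFn_succ] at hg
    have hgo := hg.good hη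
    have hneg := (good_nd hη fun x hx => hg.sep hx).2
    have hs : ∀ j ≤ n, ∀ x ∈ List.ofFn (fun i : Fin n => nd (a i.succ)),
        Sep η (nd (0 + j)) x := by
      intro j hj x hx
      obtain ⟨i, rfl⟩ := (List.mem_ofFn' _ _).1 hx
      have := haK i.succ
      exact sep_nd hη (by omega)
    have h4 := interp hη hb hg.tail (d := n) (K := 0) (by simp) hs hgo hneg
    show bt hη hb (nd (a 0) :: List.ofFn fun i : Fin n => nd (a i.succ)) = _
    rw [bt_gen hη hb hg, h4]
    refine Finset.sum_congr rfl fun j hj => ?_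
    rw [Finset.mem_range] at hj
    congr 1
    exact (bt_gen hη hb (gen_cons hη (nd_ne _) (hs j (by omega)) hg.tail)).symm

/-- on generic lists the two polynomials of the first variable agree -/
lemma lp_eq (hη : η ^ 4 = -1) (hb : BG η κ ρ b) {L : List ℂ} (hL : Gen η L) {P : ℂ[X]}
    (hP : ∀ t, Good η t L → (∀ x ∈ L, t ≠ -x) → b (t :: L) = P.eval t) :
    lp (bt hη hb) L = P := by
  obtain ⟨K, hK⟩ := exists_sep L hη
  refine Polynomial.eq_of_infinite_eval_eq _ _ ?_
  have hinf : Set.Infinite (Set.range fun k : ℕ => nd (K + k)) := by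
    refine Set.infinite_range_of_injective fun k k' hk => ?_
    have := nd_inj hk
    omega
  refine hinf.mono ?_
  rintro _ ⟨k, rfl⟩
  have hs := hK (K + k) (by omega)
  have h1 := good_nd hη hs
  show (lp (bt hη hb) L).eval _ = P.eval _
  rw [← bt_interp, ← hP _ h1.1 h1.2]
  exact bt_gen hη hb (gen_cons hη (nd_ne _) hs hL)

lemma bt_good (hη : η ^ 4 = -1) (hb : BG η κ ρ b) {L : List ℂ} (hL : Gen η L) {t : ℂ}
    (h1 : Good η t L) (h2 : ∀ x ∈ L, t ≠ -x) : bt hη hb (t :: L) = b (t :: L) := by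
  obtain ⟨P, -, -, -, h4⟩ := hb.poly L hL
  rw [bt_interp, lp_eq hη hb hL h4, h4 t h1 h2]

lemma bt_poly (hη : η ^ 4 = -1) (hb : BG η κ ρ b) (L : List ℂ) :
    (lp (bt hη hb) L).coeff L.length = bt hη hb L ∧
      (lp (bt hη hb) L).coeff 0 = L.prod * bt hη hb L := by
  have hc : ∀ (n k : ℕ), PF n fun v => (lp (bt hη hb) (List.ofFn v)).coeff k := by
    intro n k
    refine PF.congr (f := fun v => ∑ j ∈ Finset.range (n + 1),
      bt hη hb (nd (0 + j) :: List.ofFn v) *
        (Lagrange.basis (Finset.range (n + 1)) (fun j => nd (0 + j)) j).coeff k)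
      (PF.sum _ fun j _ => (bt_cons_pf hη hb (PF.const _) fun i => PF.var i).mul (PF.const _))
      fun v => ?_
    unfold lp
    rw [Lagrange.interpolate_apply, Polynomial.finsetSum_coeff, List.length_ofFn]
    refine Finset.sum_congr rfl fun j _ => ?_
    rw [Polynomial.coeff_C_mul]
  have hp : PF L.length fun v => (List.ofFn v).prod * bt hη hb (List.ofFn v) := by
    refine PF.mul ?_ (bt_mv hη hb _)
    exact (PF.prod Finset.univ fun i _ => PF.var i).congr fun v => List.prod_ofFn
  constructor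
  · refine list_ext (F := fun L' => (lp (bt hη hb) L').coeff L.length) (hc _ _) (bt_mv hη hb _) 0
      (fun a ha _ => ?_) rfl
    have hg := gen_inj hη ha
    obtain ⟨P, -, h2, -, h4⟩ := hb.poly _ hg
    rw [List.length_ofFn] at h2
    show (lp (bt hη hb) (List.ofFn fun i => nd (a i))).coeff L.length = _
    rw [lp_eq hη hb hg h4, h2, bt_gen hη hb hg]
  · refine list_ext (F := fun L' => (lp (bt hη hb) L').coeff 0)
      (G := fun L' => L'.prod * bt hη hb L') (hc _ _) hp 0
      (fun a ha _ => ?_) rfl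
    have hg := gen_inj hη ha
    obtain ⟨P, -, -, h3, h4⟩ := hb.poly _ hg
    show (lp (bt hη hb) (List.ofFn fun i => nd (a i))).coeff 0 = _
    rw [lp_eq hη hb hg h4, h3, bt_gen hη hb hg]

lemma good3 (hη : η ^ 4 = -1) {q : ℂ} {L : List ℂ} (h : Gen η (q :: L)) {k : ℕ}
    (hk : k = 2 ∨ k = 3) : Good η (η ^ k * q) (q :: L) ∧ ∀ x ∈ q :: L, η ^ k * q ≠ -x := by
  have hq := h.head
  have hp := fun {j k : ℕ} => pow_inj hη hq (j := j) (k := k)
  constructor
  · intro x hx
    rcases List.mem_cons.1 hx with rfl | hx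
    · refine ⟨fun hc => ?_, fun hc => ?_, fun hc => ?_⟩
      · have := hp (j := k) (k := 0) (by omega) (by norm_num) (by rw [hc]; simp)
        omega
      · have := hp (j := k + 1) (k := 0) (by omega) (by norm_num)
          (by rw [pow_zero, one_mul, pow_succ', mul_assoc]; exact hc)
        omega
      · have := hp (j := k) (k := 1) (by omega) (by norm_num) (by rw [hc]; simp)
        omega
    · exact (good_nd hη fun y hy => (h.sep hy).mul_left k).1 x hx
  · intro x hx hc
    rcases List.mem_cons.1 hx with rfl | hx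
    · have := hp (j := k) (k := 4) (by omega) (by norm_num) (by rw [hc, hη]; ring)
      omega
    · exact (good_nd hη fun y hy => (h.sep hy).mul_left k).2 x hx hc

/-- **the rules on generic lists give a function with the rules on all lists** -/
theorem bt_BT (hη : η ^ 4 = -1) (hb : BG η κ ρ b) : BT η κ ρ (bt hη hb) where
  nil := by
    rw [bt_gen hη hb ⟨by simp, List.Pairwise.nil⟩, hb.nil]
  perm h := bt_perm hη hb h
  mv n := bt_mv hη hb n
  poly L := ⟨lp (bt hη hb) L, lp_natDegree _ _, (bt_poly hη hb L).1, (bt_poly hη hb L).2,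
    fun t => bt_interp hη hb t L⟩
  cross q L := by
    obtain ⟨n, w, rfl⟩ : ∃ (n : ℕ) (w : Fin n → ℂ), L = List.ofFn w :=
      ⟨L.length, L.get, (List.ofFn_get L).symm⟩
    have h1 : PF (n + 1) fun v => bt hη hb (η ^ 3 * v 0 :: v 0 :: List.ofFn fun i : Fin n => v i.succ) := by
      refine (bt_cons_pf hη hb (m := n + 1) ((PF.const (η ^ 3)).mul (PF.var 0))
        (e := fun i v => v i) fun i => PF.var i).congr fun v => ?_
      rw [List.ofFn_succ]
    have h2 : PF (n + 1) fun v => κ * v 0 *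
        ((List.ofFn fun i : Fin n => v i.succ).map
          fun x => (x + η * v 0) * (x + η ^ 2 * v 0)).prod *
        bt hη hb (List.ofFn fun i : Fin n => v i.succ) := by
      refine ((((PF.const κ).mul (PF.var 0)).mul ?_).mul ((tf_pf hη hb n).comp fun i =>
        PF.var i.succ)).congr fun v => by rw [bt_ofFn]
      refine PF.prodL (g := fun x v => (x + η * v 0) * (x + η ^ 2 * v 0)) (fun f hf => ?_)
        fun i => PF.var i.succ
      exact (hf.add ((PF.const η).mul (PF.var 0))).mul (hf.add ((PF.const (η ^ 2)).mul (PF.var 0)))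
    have h3 := PF.ext_nd h1 h2 0 (fun a ha _ => ?_) (Fin.cons q w)
    · simpa using h3
    · have hg := gen_inj hη ha
      rw [List.ofFn_succ] at hg
      have h4 := good3 hη hg (k := 3) (Or.inr rfl)
      show bt hη hb (η ^ 3 * nd (a 0) :: nd (a 0) :: List.ofFn fun i : Fin n => nd (a i.succ)) =
        κ * nd (a 0) * ((List.ofFn fun i : Fin n => nd (a i.succ)).map
          fun x => (x + η * nd (a 0)) * (x + η ^ 2 * nd (a 0))).prod *
          bt hη hb (List.ofFn fun i : Fin n => nd (a i.succ))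
      rw [bt_good hη hb hg h4.1 h4.2, hb.cross _ _ hg, bt_gen hη hb hg.tail]
  fuse t L := by
    obtain ⟨n, w, rfl⟩ : ∃ (n : ℕ) (w : Fin n → ℂ), L = List.ofFn w :=
      ⟨L.length, L.get, (List.ofFn_get L).symm⟩
    have h1 : PF (n + 1) fun v => bt hη hb (η ^ 2 * v 0 :: v 0 :: List.ofFn fun i : Fin n => v i.succ) := by
      refine (bt_cons_pf hη hb (m := n + 1) ((PF.const (η ^ 2)).mul (PF.var 0))
        (e := fun i v => v i) fun i => PF.var i).congr fun v => ?_
      rw [List.ofFn_succ]
    have h2 : PF (n + 1) fun v => ρ * v 0 *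
        ((List.ofFn fun i : Fin n => v i.succ).map fun x => x + η * v 0).prod *
        bt hη hb (η * v 0 :: List.ofFn fun i : Fin n => v i.succ) := by
      refine (((PF.const ρ).mul (PF.var 0)).mul ?_).mul (bt_cons_pf hη hb
        ((PF.const η).mul (PF.var 0)) fun i => PF.var i.succ)
      refine PF.prodL (g := fun x v => x + η * v 0) (fun f hf => ?_) fun i => PF.var i.succ
      exact hf.add ((PF.const η).mul (PF.var 0))
    have h3 := PF.ext_nd h1 h2 0 (fun a ha _ => ?_) (Fin.cons t w)
    · simpa using h3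
    · have hg := gen_inj hη ha
      rw [List.ofFn_succ] at hg
      have h4 := good3 hη hg (k := 2) (Or.inl rfl)
      have h5 := hg.scale hη 1
      rw [pow_one] at h5
      show bt hη hb (η ^ 2 * nd (a 0) :: nd (a 0) :: List.ofFn fun i : Fin n => nd (a i.succ)) =
        ρ * nd (a 0) * ((List.ofFn fun i : Fin n => nd (a i.succ)).map
          fun x => x + η * nd (a 0)).prod *
          bt hη hb (η * nd (a 0) :: List.ofFn fun i : Fin n => nd (a i.succ))
      rw [bt_good hη hb hg h4.1 h4.2, hb.fuse _ _ hg, bt_gen hη hb h5]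

theorem tot_of_gen (hη : η ^ 4 = -1) (hb : BG η κ ρ b) :
    ∃ c : List ℂ → ℂ, BT η κ ρ c ∧ ∀ L, Gen η L → c L = b L :=
  ⟨bt hη hb, bt_BT hη hb, fun _ hL => bt_gen hη hb hL⟩

end SPN
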