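import Pool.Agent.SPN.BFuse
import Pool.Agent.SPN.Tot
import Pool.Agent.SPN.Pr
import Pool.Agent.SPN.NRul
import Pool.Agent.NUF.Gas.Main

/-!
# The two state sum: total version, and its square is the charge sum of one group
-/

set_option autoImplicit false

open Polynomial

namespace SPN

open NUGas

variable {η σ om : ℂ}

/-- **the total version of the two state sum** -/
theorem exists_bt (hη : η ^ 4 = -1) :
    ∃ b : List ℂ → ℂ, BT η (1 + η ^ 3) (1 + η ^ 2) b ∧ (∀ L, Gen η L → b L = B η L) :=
  tot_of_gen hη (B_BG hη)

/-- **the square of the two state sum is the charge sum of one group** -/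
theorem B_sq (hη : η ^ 4 = -1) (hσ : σ ^ 2 = 2 - η + η ^ 3) (hom : om ≠ 0) {X : List ℂ}
    (hX : Gen η X) : B η X ^ 2 = N η σ om X [] := by
  obtain ⟨b, hb, hb'⟩ := exists_bt hη
  have h1 : Rul η ([] ++ []) (fun X => N η σ om X []) :=
    rul_of_data (N_data hη hσ hom) ⟨by simp, by simp⟩
  have h2 : Rul η ([] ++ []) (two b [] []) := two_rul (kappa_sq hη) (rho_sq hη) hb [] []
  have h3 := h2.add (h1.smul (-1))
  have h4 := eval_zero' (Y := ([] ++ [] : List ℂ)) hη h3 (fun e => ?_) X hX
  · simp only [two, List.append_nil] at h4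
    rw [← hb' X hX]
    linear_combination h4
  · have he : (evL e : List ℂ) = [] := by
      have := e.2
      unfold EvI at this
      rw [Finset.mem_sigma, Finset.mem_powersetCard] at this
      have h5 : e.1.2 = ∅ := Finset.subset_empty.1 (by simpa using this.2.1)
      unfold evL
      rw [h5]; simp
    rw [he]
    simp only [two, List.append_nil, hb.nil, N_nil]
    ring

end SPN
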