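import Pool.Agent.SPN.Circ
import Pool.Agent.SPN.BSq

/-!
# Every family with the rules is a circle average of products of two `B` (no hypothesis left)

`span_B` : `circ_rep` for the two state sum `B`.
-/

set_option autoImplicit false

open Polynomial

namespace SPN

open NUGas

variable {η : ℂ}

lemma kappa_ne (hη : η ^ 4 = -1) : (1 : ℂ) + η ^ 3 ≠ 0 := by
  intro h
  have h3 : η ^ 3 = -1 := by linear_combination h
  have h1 : η ^ 4 = -η := by rw [pow_succ, h3]; ring
  have h2 : η = 1 := by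
    have := h1.symm.trans hη
    linear_combination -this
  rw [h2] at hη
  norm_num at hη

/-- **every family with the rules is a circle average of products of two `B`** -/
theorem span_B (hη : η ^ 4 = -1) (r : ℕ) (v0 : Fin r → ℂ) :
    ∃ b : List ℂ → ℂ, BT η (1 + η ^ 3) (1 + η ^ 2) b ∧ (∀ L, Gen η L → b L = B η L) ∧
      ∃ (v1 : Fin r → ℂ) (R0 : ℝ) (c : Cf r → EvI r → ℂ → ℂ), 0 < R0 ∧
        (∀ S e, ContinuousOn (c S e) {t : ℂ | t ≠ 0 ∧ ‖t‖ ≤ R0}) ∧
        ∀ F : List ℂ → ℂ, Rul η (List.ofFn v0) F → ∀ X : List ℂ, Gen η X →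
          ∀ R : ℝ, 0 < R → R ≤ R0 →
          F X = (2 * Real.pi * Complex.I)⁻¹ * ∮ t in C(0, R), t⁻¹ *
            ∑ S : Cf r, (∑ e : EvI r, c S e t * F (evL e)) *
              pr b S.1 (List.ofFn (v0 + t • v1)) X := by
  obtain ⟨b, hb, hb'⟩ := exists_bt hη
  exact ⟨b, hb, hb', circ_rep hη (kappa_sq hη) (rho_sq hη) (kappa_ne hη) (one_add_ne hη) hb r v0⟩

end SPN
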