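import Pool.Agent.NUF.Gas.Base

/-!
# Families with the rules of `n` half rows: at most `fib (n + 1)` of them

`Rul η Y F`: `F` is a function of lists (variables `t = e^{2ix}`), symmetric, polynomial of degree `2 |X| + |Y|` in every
variable with the given highest and lowest coefficients, with the crossing and the fusion rule.
`eval_zero`: `F = 0` on all generic lists if it vanishes on the subsets of `m` elements of `{1, .., |Y| - m}`, for
every `m`.  There are `fib (|Y| + 1)` of them.
`exists_comb`: if `fib (|Y| + 1)` such families are linearly independent, they span.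
-/

set_option autoImplicit false

open Polynomial

namespace SPN

open NUGas

variable {η : ℂ}

/-- the rules -/
structure Rul (η : ℂ) (Y : List ℂ) (F : List ℂ → ℂ) : Prop where
  perm : ∀ {X X' : List ℂ}, X.Perm X' → F X = F X'
  poly : ∀ X : List ℂ, Gen η X → ∃ P : ℂ[X],
    P.natDegree ≤ 2 * X.length + Y.length ∧
    P.coeff (2 * X.length + Y.length) = F X ∧
    P.coeff 0 = ((X.map (fun x => x ^ 2)).prod * Y.prod) * F X ∧
    ∀ t, Good η t X → F (t :: X) = P.eval t
  cross : ∀ (q : ℂ) (X : List ℂ), Gen η (q :: X) →
    F (η ^ 3 * q :: q :: X) = (2 - η + η ^ 3) * η ^ 3 * q ^ 2 *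
      ((X.map (fun x => ((x + η * q) * (x + η ^ 2 * q)) ^ 2)).prod *
       (Y.map (fun y => (y + η * q) * (y + η ^ 2 * q))).prod) * F X
  fuse : ∀ (t : ℂ) (X : List ℂ), Gen η (t :: X) →
    F (η ^ 2 * t :: t :: X) = 2 * (η * t) ^ 2 *
      ((X.map (fun x => (x + η * t) ^ 2)).prod * (Y.map (fun y => y + η * t)).prod) *
      F (η * t :: X)

lemma Rul.zero (Y : List ℂ) : Rul η Y (fun _ => 0) where
  perm _ := rfl
  poly X _ := ⟨0, by simp, by simp, by simp, by simp⟩
  cross _ _ _ := by simp
  fuse _ _ _ := by simp

lemma Rul.add {Y : List ℂ} {F G : List ℂ → ℂ} (hF : Rul η Y F) (hG : Rul η Y G) :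
    Rul η Y (fun X => F X + G X) where
  perm h := by simp only [hF.perm h, hG.perm h]
  poly X hX := by
    obtain ⟨P, h1, h2, h3, h4⟩ := hF.poly X hX
    obtain ⟨Q, k1, k2, k3, k4⟩ := hG.poly X hX
    refine ⟨P + Q, (natDegree_add_le _ _).trans (max_le h1 k1), ?_, ?_, fun t ht => ?_⟩
    · rw [coeff_add, h2, k2]
    · rw [coeff_add, h3, k3]; ring
    · rw [eval_add, h4 t ht, k4 t ht]
  cross q X h := by rw [hF.cross q X h, hG.cross q X h]; ring
  fuse t X h := by rw [hF.fuse t X h, hG.fuse t X h]; ring

lemma Rul.smul {Y : List ℂ} {F : List ℂ → ℂ} (hF : Rul η Y F) (c : ℂ) :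
    Rul η Y (fun X => c * F X) where
  perm h := by simp only [hF.perm h]
  poly X hX := by
    obtain ⟨P, h1, h2, h3, h4⟩ := hF.poly X hX
    refine ⟨C c * P, (natDegree_C_mul_le _ _).trans h1, ?_, ?_, fun t ht => ?_⟩
    · rw [coeff_C_mul, h2]
    · rw [coeff_C_mul, h3]; ring
    · rw [eval_mul, eval_C, h4 t ht]
  cross q X h := by rw [hF.cross q X h]; ring
  fuse t X h := by rw [hF.fuse t X h]; ring

lemma Rul.sum {ι : Type*} {Y : List ℂ} {F : ι → List ℂ → ℂ} (s : Finset ι)
    (hF : ∀ i, Rul η Y (F i)) (c : ι → ℂ) : Rul η Y (fun X => ∑ i ∈ s, c i * F i X) := by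
  classical
  induction s using Finset.induction_on with
  | empty => simpa using Rul.zero (η := η) Y
  | insert a s ha ih =>
    simp only [Finset.sum_insert ha]
    exact ((hF a).smul (c a)).add ih

/-! ### nodes -/

/-- the node `i + 1` -/
noncomputable def nd (i : ℕ) : ℂ := ((i + 1 : ℕ) : ℂ)

lemma norm_eta (hη : η ^ 4 = -1) : ‖η‖ = 1 := by
  have h : ‖η‖ ^ 4 = 1 := by rw [← norm_pow, hη]; simp
  exact (pow_eq_one_iff_of_nonneg (norm_nonneg _) (by norm_num)).1 h

lemma norm_nd (i : ℕ) : ‖nd i‖ = (i + 1 : ℕ) := by
  unfold nd; rw [Complex.norm_natCast]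

lemma nd_ne (i : ℕ) : nd i ≠ 0 := by
  unfold nd; exact_mod_cast Nat.succ_ne_zero i

lemma sep_nd (hη : η ^ 4 = -1) {i j : ℕ} (h : i ≠ j) : Sep η (nd i) (nd j) := by
  intro k hk
  have := congrArg norm hk
  rw [norm_mul, norm_pow, norm_eta hη, one_pow, one_mul, norm_nd, norm_nd] at this
  have : i + 1 = j + 1 := by exact_mod_cast this
  omega

lemma nd_inj {i j : ℕ} (h : nd i = nd j) : i = j := by
  have := congrArg norm h
  rw [norm_nd, norm_nd] at this
  have : i + 1 = j + 1 := by exact_mod_cast this
  omega

/-- all the points which annihilate or fuse with a line of `X` -/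
noncomputable def rel (η : ℂ) (X : List ℂ) : Finset ℂ :=
  (X.flatMap (fun x => [η ^ 2 * x, η ^ 3 * x, η ^ 5 * x, η ^ 6 * x])).toFinset

lemma mem_rel {X : List ℂ} {t : ℂ} : t ∈ rel η X ↔
    ∃ x ∈ X, t = η ^ 2 * x ∨ t = η ^ 3 * x ∨ t = η ^ 5 * x ∨ t = η ^ 6 * x := by
  simp [rel]

lemma pow_inj (hη : η ^ 4 = -1) {x : ℂ} (hx : x ≠ 0) {j k : ℕ} (hj : j < 8) (hk : k < 8)
    (h : η ^ j * x = η ^ k * x) : j = k := by
  have h1 : η ^ j = η ^ k := mul_right_cancel₀ hx h
  by_contra hne
  rcases Nat.lt_or_gt_of_ne hne with h2 | h2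
  · apply eta_pow_ne_one hη (k := k - j) (by omega)
    have : η ^ j * η ^ (k - j) = η ^ j := by rw [← pow_add, h1]; congr 1; omega
    exact mul_left_cancel₀ (pow_ne_zero j (eta_ne hη)) (by rw [this, mul_one])
  · apply eta_pow_ne_one hη (k := j - k) (by omega)
    have : η ^ k * η ^ (j - k) = η ^ k := by rw [← pow_add, ← h1]; congr 1; omega
    exact mul_left_cancel₀ (pow_ne_zero k (eta_ne hη)) (by rw [this, mul_one])

lemma card_rel (hη : η ^ 4 = -1) {X : List ℂ} (h : Gen η X) : (rel η X).card = 4 * X.length := by
  have hnd : (X.flatMap (fun x => [η ^ 2 * x, η ^ 3 * x, η ^ 5 * x, η ^ 6 * x])).Nodup := by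
    induction X with
    | nil => simp
    | cons x X ih =>
      rw [List.flatMap_cons, List.nodup_append]
      have hx := h.head
      refine ⟨?_, ih h.tail, ?_⟩
      · simp only [List.nodup_cons, List.mem_cons, List.not_mem_nil, or_false, not_or,
          List.nodup_nil, not_false_iff, and_true]
        refine ⟨⟨?_, ?_, ?_⟩, ⟨?_, ?_⟩, ?_⟩ <;>
        · intro hc
          have := pow_inj hη hx (by norm_num) (by norm_num) hc
          omega
      · intro a ha b hb hab
        subst hab
        obtain ⟨y, hy, hy'⟩ := List.mem_flatMap.1 hb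
        have hs := h.sep hy
        have key : ∀ j k : ℕ, η ^ j * x ≠ η ^ k * y := by
          intro j k hjk
          exact (hs.mul_left j).mul_right hη k 0 (by rw [pow_zero, one_mul, hjk])
        simp only [List.mem_cons, List.not_mem_nil, or_false] at ha hy'
        rcases ha with ha | ha | ha | ha <;> rcases hy' with hy' | hy' | hy' | hy' <;>
          exact key _ _ (ha.symm.trans hy')
  unfold rel
  rw [List.toFinset_card_of_nodup hnd]
  clear hnd h
  induction X with
  | nil => simp
  | cons x X ih => rw [List.flatMap_cons, List.length_append, ih]; simp; ring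

lemma sep_of_mem (hη : η ^ 4 = -1) {X : List ℂ} (h : Gen η X) {x y : ℂ} (hx : x ∈ X)
    (hy : y ∈ X) (hxy : x ≠ y) : Sep η x y := by
  induction X with
  | nil => simp at hx
  | cons a X ih =>
    rcases List.mem_cons.1 hx with hx' | hx' <;> rcases List.mem_cons.1 hy with hy' | hy'
    · exact absurd (hx'.trans hy'.symm) hxy
    · rw [hx']; exact h.sep hy'
    · rw [hy']; exact (h.sep hx').symm hη
    · exact ih h.tail hx' hy'

lemma good_of_rel (hη : η ^ 4 = -1) {X : List ℂ} (h : Gen η X) {t : ℂ} (ht : t ∈ rel η X) :
    Good η t X := by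
  obtain ⟨x, hx, hk⟩ := mem_rel.1 ht
  have : ∃ k : ℕ, (k = 2 ∨ k = 3 ∨ k = 5 ∨ k = 6) ∧ t = η ^ k * x := by
    rcases hk with h | h | h | h
    · exact ⟨2, by simp, h⟩
    · exact ⟨3, by simp, h⟩
    · exact ⟨5, by simp, h⟩
    · exact ⟨6, by simp, h⟩
  obtain ⟨k, hk, rfl⟩ := this
  intro y hy
  by_cases hxy : y = x
  · subst hxy
    have hx0 := h.1 y hy
    refine ⟨?_, ?_, ?_⟩
    · intro hc
      have := pow_inj hη hx0 (j := k) (k := 0) (by omega) (by norm_num) (by rw [hc]; simp)
      omega
    · intro hc
      have := pow_inj hη hx0 (j := k + 1) (k := 0) (by omega) (by norm_num)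
        (by rw [pow_zero, one_mul]; rw [← mul_assoc, ← pow_succ'] at hc; exact hc)
      omega
    · intro hc
      have := pow_inj hη hx0 (j := k) (k := 1) (by omega) (by norm_num) (by rw [hc]; simp)
      omega
  · have hs : Sep η x y := sep_of_mem hη h hx hy (Ne.symm hxy)
    refine ⟨?_, ?_, ?_⟩
    · intro hc; exact hs k hc
    · intro hc
      exact hs (k + 1) (by rw [pow_succ', mul_assoc]; exact hc)
    · intro hc
      exact (hs.mul_right hη 1) k (by rw [hc, pow_one])

/-! ### zeros -/

variable {Y : List ℂ} {F : List ℂ → ℂ}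

lemma zero_of_rel (hη : η ^ 4 = -1) (hF : Rul η Y F) {m : ℕ}
    (h0 : ∀ X : List ℂ, Gen η X → X.length < m → F X = 0) {X : List ℂ} (hX : Gen η X)
    (hm : X.length + 1 ≤ m) {t : ℂ} (ht : t ∈ rel η X) : F (t :: X) = 0 := by
  obtain ⟨x, hx, hk⟩ := mem_rel.1 ht
  have hp := List.perm_cons_erase hx
  have hG : Gen η (x :: X.erase x) := hX.perm hη hp
  have hl : X.length = (X.erase x).length + 1 := by rw [hp.length_eq]; rfl
  have key : ∀ k : ℕ, Gen η (η ^ k * x :: X.erase x) := fun k => hG.scale hη k
  have h8 : η ^ 8 = 1 := eta8 hη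
  rcases hk with rfl | rfl | rfl | rfl
  · rw [hF.perm (hp.cons _), hF.fuse _ _ hG, h0 (η * x :: X.erase x) (by simpa using key 1)
      (by simp; omega), mul_zero]
  · rw [hF.perm (hp.cons _), hF.cross _ _ hG, h0 _ hG.tail (by omega), mul_zero]
  · have e : x = η ^ 3 * (η ^ 5 * x) := by rw [← mul_assoc, ← pow_add, h8, one_mul]
    have hq : (η ^ 5 * x :: x :: X.erase x).Perm
        (η ^ 3 * (η ^ 5 * x) :: η ^ 5 * x :: X.erase x) := by
      rw [← e]; exact List.Perm.swap _ _ _
    rw [hF.perm (hp.cons _), hF.perm hq, hF.cross _ _ (key 5), h0 _ hG.tail (by omega), mul_zero]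
  · have e : x = η ^ 2 * (η ^ 6 * x) := by rw [← mul_assoc, ← pow_add, h8, one_mul]
    have hq : (η ^ 6 * x :: x :: X.erase x).Perm
        (η ^ 2 * (η ^ 6 * x) :: η ^ 6 * x :: X.erase x) := by
      rw [← e]; exact List.Perm.swap _ _ _
    have k7 : Gen η (η * (η ^ 6 * x) :: X.erase x) := by
      rw [← mul_assoc, ← pow_succ']; exact key 7
    rw [hF.perm (hp.cons _), hF.perm hq, hF.fuse _ _ (key 6), h0 _ k7 (by simp; omega), mul_zero]

/-- the polynomial of the first variable vanishes if it has enough further zeros -/
lemma line_zero (hη : η ^ 4 = -1) (hF : Rul η Y F) {m : ℕ}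
    (h0 : ∀ X : List ℂ, Gen η X → X.length < m → F X = 0) {X : List ℂ} (hX : Gen η X)
    (hm : X.length + 1 = m) (s : Finset ℂ) (hs0 : ∀ t ∈ s, t ≠ 0)
    (hsX : ∀ t ∈ s, ∀ x ∈ X, Sep η t x) (hs : ∀ t ∈ s, F (t :: X) = 0)
    (hc : Y.length < 2 * X.length + s.card + 2) :
    ∀ t, Good η t X → F (t :: X) = 0 := by
  classical
  obtain ⟨P, h1, h2, h3, h4⟩ := hF.poly X hX
  have hFX : F X = 0 := h0 X hX (by omega)
  rw [hFX] at h2
  rw [hFX, mul_zero] at h3
  have hgs : ∀ t ∈ s, Good η t X := by
    intro t ht x hx
    have h := hsX t ht x hx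
    exact ⟨by simpa using h 0, by simpa using h 1, fun hc => (h.mul_right hη 1) 0 (by simpa using hc)⟩
  have hP : P = 0 := by
    set T : Finset ℂ := insert 0 (rel η X ∪ s) with hT
    have hdis : Disjoint (rel η X) s := by
      rw [Finset.disjoint_left]
      intro t ht1 ht2
      obtain ⟨x, hx, hk⟩ := mem_rel.1 ht1
      have h := hsX t ht2 x hx
      rcases hk with hk | hk | hk | hk
      · exact (h.mul_right hη 2) 0 (by rw [pow_zero, one_mul]; exact hk)
      · exact (h.mul_right hη 3) 0 (by rw [pow_zero, one_mul]; exact hk)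
      · exact (h.mul_right hη 5) 0 (by rw [pow_zero, one_mul]; exact hk)
      · exact (h.mul_right hη 6) 0 (by rw [pow_zero, one_mul]; exact hk)
    have h0T : (0 : ℂ) ∉ rel η X ∪ s := by
      rw [Finset.mem_union, not_or]
      refine ⟨fun h => ?_, fun h => hs0 0 h rfl⟩
      obtain ⟨x, hx, hk⟩ := mem_rel.1 h
      have hx0 := hX.1 x hx
      have he := eta_ne hη
      rcases hk with hk | hk | hk | hk <;>
      · rcases mul_eq_zero.1 hk.symm with h | h
        · exact absurd h (pow_ne_zero _ he)
        · exact hx0 h
    have hcard : T.card = 4 * X.length + s.card + 1 := by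
      rw [hT, Finset.card_insert_of_notMem h0T, Finset.card_union_of_disjoint hdis, card_rel hη hX]
    have hdeg : P.natDegree < T.card ∨ P = 0 := by
      by_cases hP0 : P = 0
      · exact Or.inr hP0
      · left
        have : P.natDegree ≠ 2 * X.length + Y.length := by
          intro hd
          apply hP0
          rw [← hd] at h2
          exact leadingCoeff_eq_zero.1 h2
        rw [hcard]; omega
    rcases hdeg with hdeg | h
    · refine Polynomial.eq_zero_of_natDegree_lt_card_of_eval_eq_zero' P T ?_ hdeg
      intro t ht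
      rcases Finset.mem_insert.1 ht with rfl | ht
      · rw [← Polynomial.coeff_zero_eq_eval_zero, h3]
      · rcases Finset.mem_union.1 ht with ht | ht
        · rw [← h4 t (good_of_rel hη hX ht)]
          exact zero_of_rel hη hF h0 hX (by omega) ht
        · rw [← h4 t (hgs t ht)]
          exact hs t ht
    · exact h
  intro t ht
  rw [h4 t ht, hP, eval_zero]


lemma good_of_gen (hη : η ^ 4 = -1) {t : ℂ} {X : List ℂ} (h : Gen η (t :: X)) : Good η t X :=
  h.good hη

/-- all nodes below `r` are unrelated to the points of `A` -/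
def SepN (η : ℂ) (r : ℕ) (A : List ℂ) : Prop := ∀ a ∈ A, ∀ i < r, Sep η a (nd i)

lemma gen_nodes (hη : η ^ 4 = -1) (B : Finset ℕ) : Gen η (B.toList.map nd) := by
  refine ⟨fun x hx => ?_, ?_⟩
  · obtain ⟨i, _, rfl⟩ := List.mem_map.1 hx
    exact nd_ne i
  · rw [List.pairwise_map]
    exact B.nodup_toList.imp (fun h => sep_nd hη h)

lemma stepA (hη : η ^ 4 = -1) (hF : Rul η Y F) {m : ℕ}
    (h0 : ∀ X : List ℂ, Gen η X → X.length < m → F X = 0)
    (h : ∀ B ∈ (Finset.range (Y.length - m)).powersetCard m, F (B.toList.map nd) = 0) :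
    ∀ (j : ℕ) (A : List ℂ) (B : Finset ℕ), A.length = j → B ⊆ Finset.range (Y.length - m) →
      A.length + B.card = m → Gen η (A ++ B.toList.map nd) → SepN η Y.length A →
      F (A ++ B.toList.map nd) = 0 := by
  intro j
  induction j with
  | zero =>
    intro A B hA hB hm _ _
    rw [List.length_eq_zero_iff] at hA
    subst hA
    refine h B (Finset.mem_powersetCard.2 ⟨hB, by simpa using hm⟩)
  | succ j ih =>
    intro A B hA hB hm hG hS
    match A, hA with
    | a :: A, hA =>
      have hA' : A.length = j := by simpa using hA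
      have hG' : Gen η (A ++ B.toList.map nd) := by rw [List.cons_append] at hG; exact hG.tail
      have hS' : SepN η Y.length A := fun b hb => hS b (List.mem_cons_of_mem _ hb)
      have hlen : (A ++ B.toList.map nd).length + 1 = m := by
        simp only [List.length_append, List.length_map, Finset.length_toList]
        simp only [List.length_cons] at hm
        omega
      set s : Finset ℂ := ((Finset.range (Y.length - m)) \ B).image nd with hs
      have hcard : s.card = Y.length - m - B.card := by
        rw [hs, Finset.card_image_of_injective _ (fun i j h => nd_inj h),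
          Finset.card_sdiff_of_subset hB, Finset.card_range]
      have hBc : B.card ≤ Y.length - m := by simpa using Finset.card_le_card hB
      refine line_zero hη hF h0 hG' hlen s ?_ ?_ ?_ ?_ a ?_
      · intro t ht
        obtain ⟨i, _, rfl⟩ := Finset.mem_image.1 ht
        exact nd_ne i
      · intro t ht x hx
        obtain ⟨i, hi, rfl⟩ := Finset.mem_image.1 ht
        rw [Finset.mem_sdiff, Finset.mem_range] at hi
        rcases List.mem_append.1 hx with hx | hx
        · exact (hS' x hx i (by omega)).symm hη
        · obtain ⟨k, hk, rfl⟩ := List.mem_map.1 hx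
          refine sep_nd hη ?_
          rintro rfl
          exact hi.2 (Finset.mem_toList.1 hk)
      · intro t ht
        obtain ⟨i, hi, rfl⟩ := Finset.mem_image.1 ht
        rw [Finset.mem_sdiff, Finset.mem_range] at hi
        have hp : (nd i :: (A ++ B.toList.map nd)).Perm (A ++ (insert i B).toList.map nd) := by
          have e1 : ((insert i B).toList.map nd).Perm (nd i :: B.toList.map nd) := by
            have := (Finset.toList_insert hi.2).map nd
            simpa using this
          exact (List.perm_middle.symm).trans ((e1.symm).append_left A)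
        have hG2 : Gen η (nd i :: (A ++ B.toList.map nd)) := by
          refine ⟨?_, List.pairwise_cons.2 ⟨?_, hG'.2⟩⟩
          · intro x hx
            rcases List.mem_cons.1 hx with rfl | hx
            · exact nd_ne i
            · exact hG'.1 x hx
          · intro x hx
            rcases List.mem_append.1 hx with hx | hx
            · exact (hS' x hx i (by omega)).symm hη
            · obtain ⟨k, hk, rfl⟩ := List.mem_map.1 hx
              refine sep_nd hη ?_
              rintro rfl
              exact hi.2 (Finset.mem_toList.1 hk)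
        rw [hF.perm hp]
        refine ih A (insert i B) hA' ?_ ?_ (hG2.perm hη hp) hS'
        · exact Finset.insert_subset (Finset.mem_range.2 hi.1) hB
        · rw [Finset.card_insert_of_notMem hi.2]
          simp only [List.length_cons] at hm
          omega
      · rw [hcard]
        simp only [List.length_append, List.length_map, Finset.length_toList]
        simp only [List.length_cons] at hm
        omega
      · rw [List.cons_append] at hG
        exact hG.good hη

lemma stepB (hη : η ^ 4 = -1) (hF : Rul η Y F) {m : ℕ}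
    (h0 : ∀ X : List ℂ, Gen η X → X.length < m → F X = 0)
    (h : ∀ B ∈ (Finset.range (Y.length - m)).powersetCard m, F (B.toList.map nd) = 0) :
    ∀ (j : ℕ) (A D : List ℂ), A.length = j → A.length + D.length = m → Gen η (A ++ D) →
      SepN η Y.length D → F (A ++ D) = 0 := by
  intro j
  induction j with
  | zero =>
    intro A D hA hm hG hS
    rw [List.length_eq_zero_iff] at hA
    subst hA
    have := stepA hη hF h0 h D.length D ∅ rfl (Finset.empty_subset _) (by simpa using hm)
      (by simpa using hG) hS
    simpa using this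
  | succ j ih =>
    intro A D hA hm hG hS
    match A, hA with
    | a :: A, hA =>
      have hA' : A.length = j := by simpa using hA
      have hG' : Gen η (A ++ D) := by rw [List.cons_append] at hG; exact hG.tail
      have hlen : (A ++ D).length + 1 = m := by
        simp only [List.length_append]
        simp only [List.length_cons] at hm
        omega
      obtain ⟨K, hK⟩ : ∃ K : ℕ, ∀ x ∈ A ++ D, ‖x‖ < K := by
        have : ∀ L : List ℂ, ∃ K : ℕ, ∀ x ∈ L, ‖x‖ < K := by
          intro L
          induction L with
          | nil => exact ⟨0, by simp⟩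
          | cons x L ihL =>
            obtain ⟨K, hK⟩ := ihL
            obtain ⟨K', hK'⟩ := exists_nat_gt ‖x‖
            refine ⟨max K K', fun y hy => ?_⟩
            rcases List.mem_cons.1 hy with rfl | hy
            · exact hK'.trans_le (by exact_mod_cast le_max_right _ _)
            · exact (hK y hy).trans_le (by exact_mod_cast le_max_left _ _)
        exact this _
      set K₁ := max K Y.length with hK₁
      have hsep : ∀ i ≥ K₁, ∀ x ∈ A ++ D, Sep η (nd i) x := by
        intro i hi x hx k hk
        have e := congrArg norm hk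
        rw [norm_mul, norm_pow, norm_eta hη, one_pow, one_mul, norm_nd] at e
        have h1 := hK x hx
        rw [← e] at h1
        have : i + 1 < K := by exact_mod_cast h1
        omega
      set s : Finset ℂ := ((Finset.range (Y.length + 1)).image (fun i => nd (K₁ + i))) with hs
      have hcard : s.card = Y.length + 1 := by
        rw [hs, Finset.card_image_of_injective _ (fun i j h => by have := nd_inj h; omega),
          Finset.card_range]
      refine line_zero hη hF h0 hG' hlen s ?_ ?_ ?_ (by omega) a ?_
      · intro t ht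
        obtain ⟨i, _, rfl⟩ := Finset.mem_image.1 ht
        exact nd_ne _
      · intro t ht x hx
        obtain ⟨i, _, rfl⟩ := Finset.mem_image.1 ht
        exact hsep _ (by omega) x hx
      · intro t ht
        obtain ⟨i, _, rfl⟩ := Finset.mem_image.1 ht
        have hp : (nd (K₁ + i) :: (A ++ D)).Perm (A ++ nd (K₁ + i) :: D) := List.perm_middle.symm
        have hG2 : Gen η (nd (K₁ + i) :: (A ++ D)) := by
          refine ⟨?_, List.pairwise_cons.2 ⟨fun x hx => hsep _ (by omega) x hx, hG'.2⟩⟩
          intro x hx
          rcases List.mem_cons.1 hx with rfl | hx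
          · exact nd_ne _
          · exact hG'.1 x hx
        rw [hF.perm hp]
        refine ih A _ hA' ?_ (hG2.perm hη hp) ?_
        · simp only [List.length_cons] at hm ⊢
          omega
        · intro d hd k hk
          rcases List.mem_cons.1 hd with rfl | hd
          · exact sep_nd hη (by omega)
          · exact hS d hd k hk
      · rw [List.cons_append] at hG
        exact hG.good hη

/-- **a family with the rules vanishes if it vanishes at `fib (|Y| + 1)` lists of nodes** -/
theorem eval_zero (hη : η ^ 4 = -1) (hF : Rul η Y F)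
    (h : ∀ m : ℕ, ∀ B ∈ (Finset.range (Y.length - m)).powersetCard m, F (B.toList.map nd) = 0) :
    ∀ X : List ℂ, Gen η X → F X = 0 := by
  have key : ∀ m : ℕ, ∀ X : List ℂ, Gen η X → X.length < m → F X = 0 := by
    intro m
    induction m with
    | zero => intro X _ hX; omega
    | succ m ih =>
      intro X hX hm
      rcases Nat.lt_or_ge X.length m with hlt | hge
      · exact ih X hX hlt
      · have := stepB hη hF ih (h m) X.length X [] rfl (by simp; omega) (by simpa using hX)
          (fun d hd => by simp at hd)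
        simpa using this
  intro X hX
  exact key (X.length + 1) X hX (Nat.lt_succ_self _)

end SPN
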