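import Pool.Agent.SPN.BDef

/-!
# Crossing of the two state sum
-/

set_option autoImplicit false

open Polynomial

namespace SPN

open NUGas

variable {η : ℂ}

lemma Pm.perm {X X' : List ℂ} (h : X.Perm X') (hX : Pm X) : Pm X' := by
  refine ⟨fun x hx => hX.1 x (h.mem_iff.2 hx), ?_⟩
  refine (h.pairwise_iff ?_).1 hX.2
  intro a b hab
  exact ⟨hab.1.symm, fun h' => hab.2 (by rw [h', neg_neg])⟩

lemma Pm.tail {x : ℂ} {X : List ℂ} (h : Pm (x :: X)) : Pm X :=
  ⟨fun y hy => h.1 y (List.mem_cons_of_mem _ hy), (List.pairwise_cons.1 h.2).2⟩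

lemma Pm.head {x : ℂ} {X : List ℂ} (h : Pm (x :: X)) : x ≠ 0 := h.1 x List.mem_cons_self

lemma Pm.ne {x y : ℂ} {X : List ℂ} (h : Pm (x :: X)) (hy : y ∈ X) : x ≠ y ∧ x ≠ -y :=
  (List.pairwise_cons.1 h.2).1 y hy

lemma Pm.sub {x y : ℂ} {X : List ℂ} (h : Pm (x :: X)) (hy : y ∈ X) : x - y ≠ 0 :=
  sub_ne_zero.2 (h.ne hy).1

lemma Pm.add {x y : ℂ} {X : List ℂ} (h : Pm (x :: X)) (hy : y ∈ X) : x + y ≠ 0 := fun h' =>
  (h.ne hy).2 (by linear_combination h')

/-- crossing of the pair functions -/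
lemma U_cross (hη : η ^ 4 = -1) {q x : ℂ} (h1 : η ^ 3 * q - x ≠ 0) (h2 : η ^ 3 * q + x ≠ 0)
    (h3 : q - x ≠ 0) (h4 : q + x ≠ 0) (a : Bool) :
    U η true a (η ^ 3 * q) x * U η false a q x = (x + η * q) * (x + η ^ 2 * q) := by
  rcases a with _ | _
  · simp only [U]
    rw [div_mul_div_comm, div_eq_iff (mul_ne_zero h1 h4)]
    have h8 := eta8 hη
    have e1 : (η ^ 3 * q) ^ 2 + (η + η ^ 3) * (η ^ 3 * q) * x - x ^ 2 =
        (q + x) * (-(η ^ 2 * q + x)) := by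
      linear_combination (η ^ 2 * q ^ 2 + q * x * (1 + η ^ 2)) * hη
    have e2 : q ^ 2 + (η - η ^ 3) * q * x + x ^ 2 = (η ^ 3 * q - x) * (-(η * q + x)) := by
      linear_combination (q ^ 2) * hη
    rw [e1, e2]
    ring
  · simp only [U]
    rw [div_mul_div_comm, div_eq_iff (mul_ne_zero h2 h3)]
    have e1 : (η ^ 3 * q) ^ 2 + (η - η ^ 3) * (η ^ 3 * q) * x + x ^ 2 =
        (q - x) * (-(η ^ 2 * q + x)) := by
      linear_combination (η ^ 2 * q ^ 2 + q * x * (1 - η ^ 2)) * hη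
    have e2 : q ^ 2 - (η + η ^ 3) * q * x - x ^ 2 = (η ^ 3 * q + x) * (-(η * q + x)) := by
      linear_combination (q ^ 2) * hη
    rw [e1, e2]
    ring

lemma U_same_cross (hη : η ^ 4 = -1) (q : ℂ) (a : Bool) : U η a a (η ^ 3 * q) q = 0 := by
  have h : (η ^ 3 * q) ^ 2 + (η - η ^ 3) * (η ^ 3 * q) * q + q ^ 2 = 0 := by
    linear_combination (q ^ 2) * hη
  rcases a with _ | _ <;> simp only [U, h, zero_div]

lemma U_ft_cross (hη : η ^ 4 = -1) (q : ℂ) : U η false true (η ^ 3 * q) q = 0 := by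
  have h : (η ^ 3 * q) ^ 2 - (η + η ^ 3) * (η ^ 3 * q) * q - q ^ 2 = 0 := by
    linear_combination (-(q ^ 2)) * hη
  simp only [U, h, zero_div]

lemma U_tf_cross (hη : η ^ 4 = -1) {q : ℂ} (h : η ^ 3 * q - q ≠ 0) :
    U η true false (η ^ 3 * q) q = 2 * ((1 + η ^ 3) * q) := by
  simp only [U]
  rw [div_eq_iff h]
  linear_combination (q ^ 2) * hη

/-- **crossing** -/
theorem B_cross (hη : η ^ 4 = -1) (q : ℂ) (X : List ℂ) (hX : Pm (η ^ 3 * q :: q :: X)) :
    B η (η ^ 3 * q :: q :: X) =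
      (1 + η ^ 3) * q * (X.map (fun x => (x + η * q) * (x + η ^ 2 * q))).prod * B η X := by
  have hq : η ^ 3 * q - q ≠ 0 := hX.sub List.mem_cons_self
  rw [B_cons2]
  simp only [T2, U_same_cross hη, U_ft_cross hη, U_tf_cross hη hq, zero_mul, mul_zero, zero_add,
    add_zero]
  have h1 : sb X (fun e => oneB η (η ^ 3 * q) true e * oneB η q false e * ownB η e) =
      (X.map (fun x => (x + η * q) * (x + η ^ 2 * q))).prod * B η X := by
    rw [B, ← sb_mul_left]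
    refine sb_congr fun e he => ?_
    congr 1
    rw [← prod_fst _ he, oneB, oneB, ← List.prod_map_mul]
    refine prod_congr_of (f := fun d => U η true d.2 (η ^ 3 * q) d.1 * U η false d.2 q d.1)
      (g := fun d => (d.1 + η * q) * (d.1 + η ^ 2 * q)) (fun x hx a => ?_) he
    exact U_cross hη (hX.sub (List.mem_cons_of_mem _ hx)) (hX.add (List.mem_cons_of_mem _ hx))
      (hX.tail.sub hx) (hX.tail.add hx) a
  rw [h1, wB_mul hη]
  ring

end SPN
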