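import Pool.Agent.NUF.Gas.Poly

/-!
# The two state sum `B`: symmetric, polynomial in every line, crossing

`B η X` is the (normalised) Pfaffian of the sea as a sum over two states per line.
-/

set_option autoImplicit false

open Polynomial

namespace SPN

open NUGas

variable {η : ℂ}

/-- pair function -/
noncomputable def U (η : ℂ) : Bool → Bool → ℂ → ℂ → ℂ
  | true, true, a, b => (a ^ 2 + (η - η ^ 3) * a * b + b ^ 2) / (a + b)
  | false, false, a, b => (a ^ 2 + (η - η ^ 3) * a * b + b ^ 2) / (a + b)
  | true, false, a, b => (a ^ 2 + (η + η ^ 3) * a * b - b ^ 2) / (a - b)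
  | false, true, a, b => (a ^ 2 - (η + η ^ 3) * a * b - b ^ 2) / (a - b)

/-- weight of a line -/
noncomputable def wB (η : ℂ) : Bool → ℂ
  | true => 1 / (1 + η ^ 2)
  | false => η ^ 2 / (1 + η ^ 2)

/-- sum over the states of the lines -/
def sb {M : Type*} [AddCommMonoid M] : List ℂ → (List (ℂ × Bool) → M) → M
  | [], φ => φ []
  | p :: X, φ => sb X (fun e => φ ((p, true) :: e)) + sb X (fun e => φ ((p, false) :: e))

/-- weights and pair functions -/
noncomputable def ownB (η : ℂ) : List (ℂ × Bool) → ℂ
  | [] => 1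
  | c :: e => wB η c.2 * (e.map (fun d => U η c.2 d.2 c.1 d.1)).prod * ownB η e

/-- the two state sum -/
noncomputable def B (η : ℂ) (X : List ℂ) : ℂ := sb X (ownB η)

/-- no line equals `±` another one -/
def Pm (X : List ℂ) : Prop := (∀ x ∈ X, x ≠ 0) ∧ X.Pairwise (fun a b => a ≠ b ∧ a ≠ -b)

section sb
variable {M : Type*} [AddCommMonoid M]

lemma sb_congr {X : List ℂ} {φ ψ : List (ℂ × Bool) → M}
    (h : ∀ e, e.map Prod.fst = X → φ e = ψ e) : sb X φ = sb X ψ := by
  induction X generalizing φ ψ with
  | nil => exact h [] rfl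
  | cons p X ih =>
    simp only [sb]
    rw [ih fun e he => h _ (by simp [he]), ih (φ := fun e => φ ((p, false) :: e)) fun e he => h _ (by simp [he])]

lemma sb_add (X : List ℂ) (φ ψ : List (ℂ × Bool) → M) :
    sb X (fun e => φ e + ψ e) = sb X φ + sb X ψ := by
  induction X generalizing φ ψ with
  | nil => rfl
  | cons p X ih => simp only [sb, ih]; abel

lemma sb_zero (X : List ℂ) : sb X (fun _ => (0 : M)) = 0 := by
  induction X with
  | nil => rfl
  | cons p X ih => simp only [sb, ih, add_zero]

lemma map_sb {M' : Type*} [AddCommMonoid M'] (g : M →+ M') (X : List ℂ)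
    (φ : List (ℂ × Bool) → M) : g (sb X φ) = sb X (fun e => g (φ e)) := by
  induction X generalizing φ with
  | nil => rfl
  | cons p X ih => simp only [sb, map_add, ih]

lemma sb_perm {X X' : List ℂ} (h : X.Perm X') {φ : List (ℂ × Bool) → M}
    (hφ : ∀ e e', e.Perm e' → φ e = φ e') : sb X φ = sb X' φ := by
  induction h generalizing φ with
  | nil => rfl
  | cons p _ ih =>
    simp only [sb]
    rw [ih (φ := fun e => φ ((p, true) :: e)) fun e e' he => hφ _ _ (he.cons _),
      ih (φ := fun e => φ ((p, false) :: e)) fun e e' he => hφ _ _ (he.cons _)]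
  | swap p q l =>
    simp only [sb]
    have h : ∀ a b : Bool, sb l (fun e => φ ((q, a) :: (p, b) :: e)) =
        sb l (fun e => φ ((p, b) :: (q, a) :: e)) := fun a b =>
      sb_congr fun e _ => hφ _ _ (List.Perm.swap _ _ _)
    rw [h, h, h, h]
    abel
  | trans _ _ ih1 ih2 => exact (ih1 hφ).trans (ih2 hφ)

end sb

lemma sb_mul_left (X : List ℂ) (c : ℂ) (φ : List (ℂ × Bool) → ℂ) :
    sb X (fun e => c * φ e) = c * sb X φ :=
  (map_sb (AddMonoidHom.mulLeft c) X φ).symm

lemma U_symm (s t : Bool) (a b : ℂ) : U η s t a b = U η t s b a := by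
  rcases s with _ | _ <;> rcases t with _ | _
  · simp only [U]; congr 1 <;> ring
  · simp only [U]
    rw [← neg_div_neg_eq]; congr 1 <;> ring
  · simp only [U]
    rw [← neg_div_neg_eq]; congr 1 <;> ring
  · simp only [U]; congr 1 <;> ring

lemma ownB_perm {e e' : List (ℂ × Bool)} (h : e.Perm e') : ownB η e = ownB η e' := by
  induction h with
  | nil => rfl
  | cons p h ih =>
    simp only [ownB]
    rw [ih, (h.map _).prod_eq]
  | swap p q l =>
    simp only [ownB, List.map_cons, List.prod_cons]
    rw [U_symm q.2 p.2 q.1 p.1]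
    ring
  | trans _ _ ih1 ih2 => exact ih1.trans ih2

theorem B_perm {X X' : List ℂ} (h : X.Perm X') : B η X = B η X' :=
  sb_perm h fun _ _ he => ownB_perm he

lemma B_nil : B η [] = 1 := rfl

lemma one_add_ne (hη : η ^ 4 = -1) : (1 : ℂ) + η ^ 2 ≠ 0 := by
  intro h
  have h2 : η ^ 2 = -1 := by linear_combination h
  have : η ^ 4 = 1 := by rw [show η ^ 4 = (η ^ 2) ^ 2 by ring, h2]; ring
  rw [hη] at this
  norm_num at this

lemma wB_add (hη : η ^ 4 = -1) : wB η true + wB η false = 1 := by
  have := one_add_ne hη
  simp only [wB]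
  rw [← add_div, div_self this]

lemma wB_mul (hη : η ^ 4 = -1) : wB η true * wB η false = 1 / 2 := by
  have h := one_add_ne hη
  simp only [wB]
  rw [div_mul_div_comm, div_eq_div_iff (mul_ne_zero h h) (by norm_num)]
  linear_combination (-1) * hη

lemma wB_sq (hη : η ^ 4 = -1) : wB η false ^ 2 = -(wB η true ^ 2) := by
  have h := one_add_ne hη
  simp only [wB]
  field_simp
  linear_combination hη

/-! ### one and two lines split off -/

/-- weight and pair functions of one line -/
noncomputable def oneB (η : ℂ) (p : ℂ) (a : Bool) (e : List (ℂ × Bool)) : ℂ :=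
  (e.map (fun d => U η a d.2 p d.1)).prod

lemma B_cons (p : ℂ) (X : List ℂ) :
    B η (p :: X) = sb X (fun e => wB η true * oneB η p true e * ownB η e) +
      sb X (fun e => wB η false * oneB η p false e * ownB η e) := rfl

lemma B_single (hη : η ^ 4 = -1) (x : ℂ) : B η [x] = 1 := by
  rw [B_cons]
  simp only [sb, oneB, ownB, List.map_nil, List.prod_nil, mul_one]
  exact wB_add hη

/-- one term of the sum over the states of two lines -/
noncomputable def T2 (η p q : ℂ) (a b : Bool) (X : List ℂ) : ℂ :=
  wB η a * wB η b * (U η a b p q * sb X (fun e => oneB η p a e * oneB η q b e * ownB η e))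

lemma B_cons2 (p q : ℂ) (X : List ℂ) :
    B η (p :: q :: X) = T2 η p q true true X + T2 η p q true false X +
      (T2 η p q false true X + T2 η p q false false X) := by
  rw [B_cons]
  simp only [sb, T2, ← sb_mul_left]
  congr 1
  · congr 1
    · exact sb_congr fun e _ => by simp only [oneB, ownB, List.map_cons, List.prod_cons]; ring
    · exact sb_congr fun e _ => by simp only [oneB, ownB, List.map_cons, List.prod_cons]; ring
  · congr 1
    · exact sb_congr fun e _ => by simp only [oneB, ownB, List.map_cons, List.prod_cons]; ring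
    · exact sb_congr fun e _ => by simp only [oneB, ownB, List.map_cons, List.prod_cons]; ring

/-- equality of products of pair functions over the lines of `X` -/
lemma prod_congr_of {X : List ℂ} {f g : ℂ × Bool → ℂ} (h : ∀ x ∈ X, ∀ a, f (x, a) = g (x, a))
    {e : List (ℂ × Bool)} (he : e.map Prod.fst = X) : (e.map f).prod = (e.map g).prod := by
  congr 1
  refine List.map_congr_left fun d hd => ?_
  have hx : d.1 ∈ X := by rw [← he]; exact List.mem_map_of_mem hd
  exact h d.1 hx d.2

lemma prod_fst (g : ℂ → ℂ) {X : List ℂ} {e : List (ℂ × Bool)} (he : e.map Prod.fst = X) :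
    (e.map (fun d => g d.1)).prod = (X.map g).prod := by
  rw [← he, List.map_map]; rfl

end SPN
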