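import Pool.Agent.SPN.Comb

/-!
# The rules of the B-fermion

Variables `t = e^{2ix}`, `b L = B L * ∏ i < j, 2 * e^{i (x_i + x_j)}` (`B` in the positive normalisation).

* `BG` : the rules on generic lists (as in `NUF/Gas`);
* `BT` : the same rules for ALL lists, `b` being a polynomial.
-/

set_option autoImplicit false

open Polynomial

namespace SPN

open NUGas

/-- the rules on generic lists -/
structure BG (η κ ρ : ℂ) (b : List ℂ → ℂ) : Prop where
  nil : b [] = 1
  perm : ∀ {X X' : List ℂ}, X.Perm X' → b X = b X'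
  poly : ∀ L : List ℂ, Gen η L → ∃ P : ℂ[X],
    P.natDegree ≤ L.length ∧ P.coeff L.length = b L ∧ P.coeff 0 = L.prod * b L ∧
    ∀ t, Good η t L → (∀ x ∈ L, t ≠ -x) → b (t :: L) = P.eval t
  cross : ∀ (q : ℂ) (L : List ℂ), Gen η (q :: L) →
    b (η ^ 3 * q :: q :: L) =
      κ * q * (L.map (fun x => (x + η * q) * (x + η ^ 2 * q))).prod * b L
  fuse : ∀ (t : ℂ) (L : List ℂ), Gen η (t :: L) →
    b (η ^ 2 * t :: t :: L) = ρ * t * (L.map (fun x => x + η * t)).prod * b (η * t :: L)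

/-- polynomial functions of `n` variables -/
def PF (n : ℕ) (f : (Fin n → ℂ) → ℂ) : Prop :=
  ∃ P : MvPolynomial (Fin n) ℂ, ∀ v, f v = MvPolynomial.eval v P

/-- the rules on all lists -/
structure BT (η κ ρ : ℂ) (b : List ℂ → ℂ) : Prop where
  nil : b [] = 1
  perm : ∀ {X X' : List ℂ}, X.Perm X' → b X = b X'
  mv : ∀ n : ℕ, PF n (fun v => b (List.ofFn v))
  poly : ∀ L : List ℂ, ∃ P : ℂ[X],
    P.natDegree ≤ L.length ∧ P.coeff L.length = b L ∧ P.coeff 0 = L.prod * b L ∧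
    ∀ t, b (t :: L) = P.eval t
  cross : ∀ (q : ℂ) (L : List ℂ),
    b (η ^ 3 * q :: q :: L) =
      κ * q * (L.map (fun x => (x + η * q) * (x + η ^ 2 * q))).prod * b L
  fuse : ∀ (t : ℂ) (L : List ℂ),
    b (η ^ 2 * t :: t :: L) = ρ * t * (L.map (fun x => x + η * t)).prod * b (η * t :: L)

end SPN
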