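import Pool.Agent.SPN.BPoly
import Pool.Agent.SPN.BDefs

/-!
# Fusion of the two state sum, by interpolation from crossing
-/

set_option autoImplicit false

open Polynomial

namespace SPN

open NUGas

variable {η : ℂ}

lemma pm_of_gen {X : List ℂ} (hη : η ^ 4 = -1) (h : Gen η X) : Pm X := by
  refine ⟨h.1, h.2.imp ?_⟩
  intro a b hab
  refine ⟨fun h' => hab 0 (by rw [pow_zero, one_mul, h']), fun h' => hab 4 ?_⟩
  rw [hη, h']; ring

lemma pm_cons {x : ℂ} {X : List ℂ} (hx : x ≠ 0) (h : ∀ y ∈ X, x ≠ y ∧ x ≠ -y) (hX : Pm X) :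
    Pm (x :: X) := by
  refine ⟨fun y hy => ?_, List.pairwise_cons.2 ⟨h, hX.2⟩⟩
  rcases List.mem_cons.1 hy with rfl | hy
  · exact hx
  · exact hX.1 y hy

lemma sep_pm (hη : η ^ 4 = -1) {a b : ℂ} (h : Sep η a b) (k : ℕ) : η ^ k * a ≠ b ∧ η ^ k * a ≠ -b := by
  refine ⟨h k, fun h' => h (k + 4) ?_⟩
  rw [pow_add, hη]
  linear_combination (-1) * h'

/-- powers of `η` times the same point -/
lemma pow_pm (hη : η ^ 4 = -1) {t : ℂ} (ht : t ≠ 0) {j k : ℕ} (h : j % 4 ≠ k % 4) :
    η ^ j * t ≠ η ^ k * t ∧ η ^ j * t ≠ -(η ^ k * t) := by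
  have key : ∀ i l : ℕ, i % 4 ≠ l % 4 → η ^ i * t ≠ η ^ l * t := by
    intro i l hil h'
    have h1 : η ^ i = η ^ l := mul_right_cancel₀ ht h'
    have h0 := eta_ne hη
    have h8 := eta8 hη
    have h2 : η ^ (i + 7 * l) = 1 := by
      rw [pow_add, h1, ← pow_add, show l + 7 * l = 8 * l by ring, pow_mul, h8, one_pow]
    refine eta_pow_ne_one hη (k := i + 7 * l) ?_ h2
    omega
  refine ⟨key j k h, fun h' => key j (k + 4) (by omega) ?_⟩
  rw [h', pow_add, hη]; ring

lemma B_two (hη : η ^ 4 = -1) {a b : ℂ} (h1 : a - b ≠ 0) : B η [a, b] = a + b := by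
  have h2 := one_add_ne hη
  rw [B_cons2]
  simp only [T2, sb, oneB, ownB, List.map_nil, List.prod_nil, mul_one, U]
  have w1 := wB_mul hη
  have w2 := wB_sq hη
  have e : (a ^ 2 + (η + η ^ 3) * a * b - b ^ 2) / (a - b) +
      (a ^ 2 - (η + η ^ 3) * a * b - b ^ 2) / (a - b) = 2 * (a + b) := by
    rw [← add_div, div_eq_iff h1]; ring
  linear_combination (1 / 2 : ℂ) * e + ((a ^ 2 + (η - η ^ 3) * a * b + b ^ 2) / (a + b)) * w2 +
    ((a ^ 2 + (η + η ^ 3) * a * b - b ^ 2) / (a - b) +
      (a ^ 2 - (η + η ^ 3) * a * b - b ^ 2) / (a - b)) * w1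

/-- a polynomial of small degree with many zeros -/
lemma poly_zero {D : ℂ[X]} {m : ℕ} (hD : D.natDegree ≤ m + 1) (hc : D.coeff (m + 1) = 0)
    {L : List ℂ} (hL : L.Nodup) (hlen : L.length = m + 1) (h0 : ∀ t ∈ L, D.eval t = 0) : D = 0 := by
  by_contra hne
  have h1 := natDegree_le_of_dvd (list_dvd hL h0) hne
  rw [natDegree_prod_X_sub_C', hlen] at h1
  have h2 : D.natDegree = m + 1 := le_antisymm hD h1
  apply hne
  rw [← leadingCoeff_eq_zero, leadingCoeff, h2, hc]

/-- **fusion** -/
theorem B_fuse (hη : η ^ 4 = -1) : ∀ (n : ℕ) (t : ℂ) (X : List ℂ), X.length = n → Gen η (t :: X) →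
    B η (η ^ 2 * t :: t :: X) = (1 + η ^ 2) * t * (X.map (fun x => x + η * t)).prod * B η (η * t :: X) := by
  intro n
  induction n using Nat.strong_induction_on with
  | _ n ih =>
  intro t X hn hX
  rcases X with _ | ⟨x, X⟩
  · have ht := hX.head
    have h1 := (pow_pm hη ht (j := 2) (k := 0) (by norm_num)).1
    rw [pow_zero, one_mul] at h1
    rw [B_two hη (sub_ne_zero.2 h1), B_single hη]
    simp; ring
  have hn' : X.length + 1 = n := by simpa using hn
  have ht := hX.head
  have hX1 : Gen η (t :: X) := by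
    refine (hX.perm hη (List.Perm.swap x t X)).tail
  have IH := ih X.length (by omega) t X rfl hX1
  have hXg : Gen η X := hX1.tail
  -- conditions
  have ha : Pm (t :: X) := pm_of_gen hη hX1
  have hb : Pm (η ^ 2 * t :: t :: X) := by
    refine pm_cons (mul_ne_zero (pow_ne_zero _ (eta_ne hη)) ht) (fun y hy => ?_) ha
    rcases List.mem_cons.1 hy with rfl | hy
    · have := pow_pm hη ht (j := 2) (k := 0) (by norm_num)
      simpa using this
    · exact sep_pm hη (hX1.sep hy) 2
  have hc : Pm (η * t :: X) := by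
    refine pm_cons (mul_ne_zero (eta_ne hη) ht) (fun y hy => ?_) (pm_of_gen hη hXg)
    simpa using sep_pm hη (hX1.sep hy) 1
  obtain ⟨P1, d1, c1, z1, e1⟩ := B_poly hη _ hb
  obtain ⟨P2, d2, c2, z2, e2⟩ := B_poly hη _ hc
  set c : ℂ := (1 + η ^ 2) * t * (X.map (fun x => x + η * t)).prod with hcdef
  set Q : ℂ[X] := (C c * (Polynomial.X + C (η * t))) * P2 with hQ
  have hl1 : (η ^ 2 * t :: t :: X).length = X.length + 1 + 1 := by simp
  have hl2 : (η * t :: X).length = X.length + 1 := by simp
  rw [hl1] at d1 c1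
  rw [hl2] at d2 c2
  have hlin : (C c * (Polynomial.X + C (η * t)) : ℂ[X]).natDegree ≤ 1 := by
    compute_degree
  have hQd : Q.natDegree ≤ X.length + 1 + 1 := by
    have := natDegree_mul_le_of_le hlin d2
    rw [hQ]; omega
  have hQc : Q.coeff (X.length + 1 + 1) = c * B η (η * t :: X) := by
    rw [hQ, show X.length + 1 + 1 = 1 + (X.length + 1) by ring,
      coeff_mul_add_eq_of_natDegree_le hlin d2, c2]
    simp
  have hD : P1 - Q = 0 := by
    refine poly_zero (m := X.length + 1) (L := 0 :: η ^ 5 * t :: X.map (fun x => η ^ 3 * x))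
      ((natDegree_sub_le _ _).trans (max_le d1 hQd)) ?_ ?_ (by simp) ?_
    · rw [coeff_sub, c1, hQc, IH]; ring
    · refine List.nodup_cons.2 ⟨?_, List.nodup_cons.2 ⟨?_, ?_⟩⟩
      · intro h
        rcases List.mem_cons.1 h with h | h
        · exact mul_ne_zero (pow_ne_zero _ (eta_ne hη)) ht h.symm
        · obtain ⟨y, hy, h⟩ := List.mem_map.1 h
          exact mul_ne_zero (pow_ne_zero _ (eta_ne hη)) (hXg.1 y hy) h
      · intro h
        obtain ⟨y, hy, h⟩ := List.mem_map.1 h
        refine (hX1.sep hy) 2 ?_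
        have h0 := eta_ne hη
        refine mul_left_cancel₀ (pow_ne_zero 3 h0) ?_
        rw [h]; ring
      · refine List.Nodup.map ?_ ?_
        · intro a b hab
          exact mul_left_cancel₀ (pow_ne_zero 3 (eta_ne hη)) hab
        · exact (pm_of_gen hη hXg).2.imp (fun h => h.1)
    · intro s hs
      rw [eval_sub, sub_eq_zero]
      rcases List.mem_cons.1 hs with rfl | hs
      · have h1 : P1.eval 0 = (η ^ 2 * t :: t :: X).prod * B η (η ^ 2 * t :: t :: X) := by
          rw [← coeff_zero_eq_eval_zero, z1]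
        have h2 : P2.eval 0 = (η * t :: X).prod * B η (η * t :: X) := by
          rw [← coeff_zero_eq_eval_zero, z2]
        rw [h1, hQ, eval_mul, h2, IH]
        simp only [eval_mul, eval_add, eval_C, eval_X, List.prod_cons]
        ring
      rcases List.mem_cons.1 hs with rfl | hs
      · have hp : Pm (η ^ 5 * t :: η ^ 2 * t :: t :: X) := by
          refine pm_cons (mul_ne_zero (pow_ne_zero _ (eta_ne hη)) ht) (fun y hy => ?_) hb
          rcases List.mem_cons.1 hy with rfl | hy
          · exact pow_pm hη ht (by norm_num)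
          rcases List.mem_cons.1 hy with rfl | hy
          · have := pow_pm hη ht (j := 5) (k := 0) (by norm_num)
            simpa using this
          · exact sep_pm hη (hX1.sep hy) 5
        have h1 : B η (η ^ 5 * t :: η ^ 2 * t :: t :: X) = 0 := by
          have e5 : η ^ 5 * t = η ^ 3 * (η ^ 2 * t) := by ring
          rw [e5] at hp ⊢
          rw [B_cross hη (η ^ 2 * t) (t :: X) hp]
          have : (t + η * (η ^ 2 * t)) * (t + η ^ 2 * (η ^ 2 * t)) = 0 := by
            linear_combination (t * (t + η ^ 3 * t)) * hη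
          rw [List.map_cons, List.prod_cons, this]
          ring
        rw [← e1 _ (fun y hy => hp.ne hy), h1, hQ, eval_mul, eval_mul, eval_add, eval_C, eval_C,
          eval_X]
        linear_combination (-(c * (η * t) * P2.eval (η ^ 5 * t))) * hη
      · obtain ⟨y, hy, rfl⟩ := List.mem_map.1 hs
        have hpy := List.perm_cons_erase hy
        set X' := X.erase y with hX'
        have hg : Gen η (y :: X') := hXg.perm hη hpy
        have hgt : Gen η (t :: y :: X') := hX1.perm hη (hpy.cons t)
        have hgt' : Gen η (t :: X') := (hgt.perm hη (List.Perm.swap y t X')).tail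
        have hsy : Sep η y t := (hgt.sep List.mem_cons_self).symm hη
        have hy0 := hg.head
        have IH' := ih X'.length (by
          have := hpy.length_eq
          simp at this
          omega) t X' rfl hgt'
        -- left side
        have hpm1 : Pm (η ^ 3 * y :: y :: η ^ 2 * t :: t :: X') := by
          refine pm_cons (mul_ne_zero (pow_ne_zero _ (eta_ne hη)) hy0) (fun z hz => ?_) ?_
          · rcases List.mem_cons.1 hz with rfl | hz
            · have := pow_pm hη hy0 (j := 3) (k := 0) (by norm_num)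
              simpa using this
            rcases List.mem_cons.1 hz with rfl | hz
            · exact sep_pm hη (hsy.mul_right hη 2) 3
            rcases List.mem_cons.1 hz with rfl | hz
            · exact sep_pm hη hsy 3
            · exact sep_pm hη (hg.sep hz) 3
          · refine hb.perm ?_
            exact (((hpy.cons t).cons (η ^ 2 * t)).trans
              ((List.Perm.swap y t X').cons _)).trans (List.Perm.swap y _ _)
        have hpm2 : Pm (η ^ 3 * y :: y :: η * t :: X') := by
          refine pm_cons (mul_ne_zero (pow_ne_zero _ (eta_ne hη)) hy0) (fun z hz => ?_) ?_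
          · rcases List.mem_cons.1 hz with rfl | hz
            · have := pow_pm hη hy0 (j := 3) (k := 0) (by norm_num)
              simpa using this
            rcases List.mem_cons.1 hz with rfl | hz
            · have := sep_pm hη (hsy.mul_right hη 1) 3
              simpa using this
            · exact sep_pm hη (hg.sep hz) 3
          · exact hc.perm ((hpy.cons (η * t)).trans (List.Perm.swap y _ _))
        have hA : B η (η ^ 3 * y :: η ^ 2 * t :: t :: X) = B η (η ^ 3 * y :: y :: η ^ 2 * t :: t :: X') := by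
          refine B_perm (List.Perm.cons _ ?_)
          exact (((hpy.cons t).cons (η ^ 2 * t)).trans
              ((List.Perm.swap y t X').cons _)).trans (List.Perm.swap y _ _)
        have hB : B η (η ^ 3 * y :: η * t :: X) = B η (η ^ 3 * y :: y :: η * t :: X') := by
          refine B_perm (List.Perm.cons _ ?_)
          exact (hpy.cons (η * t)).trans (List.Perm.swap y _ _)
        have g1 : ∀ z ∈ (η ^ 2 * t :: t :: X), η ^ 3 * y ≠ z ∧ η ^ 3 * y ≠ -z := by
          intro z hz
          have : z ∈ (y :: η ^ 2 * t :: t :: X') := by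
            refine (List.Perm.mem_iff ?_).1 hz
            exact (((hpy.cons t).cons (η ^ 2 * t)).trans
              ((List.Perm.swap y t X').cons _)).trans (List.Perm.swap y _ _)
          exact hpm1.ne this
        have g2 : ∀ z ∈ (η * t :: X), η ^ 3 * y ≠ z ∧ η ^ 3 * y ≠ -z := by
          intro z hz
          have : z ∈ (y :: η * t :: X') := by
            refine (List.Perm.mem_iff ?_).1 hz
            exact (hpy.cons (η * t)).trans (List.Perm.swap y _ _)
          exact hpm2.ne this
        rw [← e1 _ g1, hQ, eval_mul, ← e2 _ g2, hA, hB, B_cross hη _ _ hpm1, B_cross hη _ _ hpm2, IH',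
          hcdef, (hpy.map (fun x => x + η * t)).prod_eq]
        simp only [eval_mul, eval_add, eval_C, eval_X, List.map_cons, List.prod_cons]
        ring
  -- evaluation at x
  have hp : Pm (x :: η ^ 2 * t :: t :: X) := by
    have hs : Gen η (x :: t :: X) := hX.perm hη (List.Perm.swap x t X)
    refine pm_cons hs.head (fun y hy => ?_) hb
    rcases List.mem_cons.1 hy with rfl | hy
    · have := sep_pm hη ((hs.sep List.mem_cons_self).mul_right hη 2) 0
      simpa using this
    · simpa using sep_pm hη (hs.sep hy) 0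
  have hp2 : ∀ y ∈ (η * t :: X), x ≠ y ∧ x ≠ -y := by
    have hs : Gen η (x :: t :: X) := hX.perm hη (List.Perm.swap x t X)
    intro y hy
    rcases List.mem_cons.1 hy with rfl | hy
    · have := sep_pm hη ((hs.sep List.mem_cons_self).mul_right hη 1) 0
      simpa using this
    · simpa using sep_pm hη (hs.sep (List.mem_cons_of_mem _ hy)) 0
  have hE : P1 = Q := sub_eq_zero.1 hD
  have hA : B η (η ^ 2 * t :: t :: x :: X) = B η (x :: η ^ 2 * t :: t :: X) :=
    B_perm (((List.Perm.swap x t X).cons _).trans (List.Perm.swap x _ _))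
  have hB : B η (η * t :: x :: X) = B η (x :: η * t :: X) := B_perm (List.Perm.swap x _ _)
  rw [hA, hB, e1 _ (fun y hy => hp.ne hy), e2 _ hp2, hE, hQ, hcdef]
  simp only [eval_mul, eval_add, eval_C, eval_X, List.map_cons, List.prod_cons]
  ring

/-- **the two state sum has the rules** -/
theorem B_BG (hη : η ^ 4 = -1) : BG η (1 + η ^ 3) (1 + η ^ 2) (B η) where
  nil := B_nil
  perm h := B_perm h
  poly L hL := by
    obtain ⟨P, h1, h2, h3, h4⟩ := B_poly hη L (pm_of_gen hη hL)
    exact ⟨P, h1, h2, h3, fun t ht ht' => h4 t fun x hx => ⟨(ht x hx).1, ht' x hx⟩⟩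
  cross q L hL := by
    refine B_cross hη q L (pm_cons (mul_ne_zero (pow_ne_zero _ (eta_ne hη)) hL.head) (fun y hy => ?_)
      (pm_of_gen hη hL))
    rcases List.mem_cons.1 hy with rfl | hy
    · have := pow_pm hη hL.head (j := 3) (k := 0) (by norm_num)
      simpa using this
    · exact sep_pm hη (hL.sep hy) 3
  fuse t L hL := B_fuse hη L.length t L rfl hL

lemma kappa_sq (hη : η ^ 4 = -1) : (1 + η ^ 3) ^ 2 = (2 - η + η ^ 3) * η ^ 3 := by
  linear_combination hη

lemma rho_sq (hη : η ^ 4 = -1) : (1 + η ^ 2) ^ 2 = 2 * η ^ 2 := by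
  linear_combination hη

end SPN
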