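import Pool.Agent.SPN.BCross

/-!
# The two state sum is a polynomial in every line
-/

set_option autoImplicit false

open Polynomial

namespace SPN

open NUGas

variable {η : ℂ}

/-- a monic cubic -/
noncomputable def cub (p q r : ℂ) : ℂ[X] := X ^ 3 + C p * X ^ 2 + C q * X + C r

lemma cub_natDegree (p q r : ℂ) : (cub p q r).natDegree ≤ 3 := by
  unfold cub; compute_degree

lemma cub_coeff3 (p q r : ℂ) : (cub p q r).coeff 3 = 1 := by
  unfold cub; simp [coeff_X_pow]

lemma cub_coeff0 (p q r : ℂ) : (cub p q r).coeff 0 = r := by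
  unfold cub; simp

lemma cub_eval (p q r t : ℂ) : (cub p q r).eval t = t ^ 3 + p * t ^ 2 + q * t + r := by
  unfold cub; simp

/-- `U * (t - x) * (t + x)` -/
noncomputable def VP (η : ℂ) : Bool → Bool → ℂ → ℂ[X]
  | true, true, x => cub ((η - η ^ 3) * x - x) (x ^ 2 - (η - η ^ 3) * x ^ 2) (-x ^ 3)
  | false, false, x => cub ((η - η ^ 3) * x - x) (x ^ 2 - (η - η ^ 3) * x ^ 2) (-x ^ 3)
  | true, false, x => cub ((η + η ^ 3) * x + x) ((η + η ^ 3) * x ^ 2 - x ^ 2) (-x ^ 3)
  | false, true, x => cub (x - (η + η ^ 3) * x) (-((η + η ^ 3) * x ^ 2) - x ^ 2) (-x ^ 3)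

lemma VP_natDegree (a b : Bool) (x : ℂ) : (VP η a b x).natDegree ≤ 3 := by
  rcases a with _ | _ <;> rcases b with _ | _ <;> exact cub_natDegree _ _ _

lemma VP_coeff3 (a b : Bool) (x : ℂ) : (VP η a b x).coeff 3 = 1 := by
  rcases a with _ | _ <;> rcases b with _ | _ <;> exact cub_coeff3 _ _ _

lemma VP_coeff0 (a b : Bool) (x : ℂ) : (VP η a b x).coeff 0 = -x ^ 3 := by
  rcases a with _ | _ <;> rcases b with _ | _ <;> exact cub_coeff0 _ _ _

lemma VP_eval (a b : Bool) {t x : ℂ} (h1 : t - x ≠ 0) (h2 : t + x ≠ 0) :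
    (VP η a b x).eval t = (t - x) * (t + x) * U η a b t x := by
  rcases a with _ | _ <;> rcases b with _ | _ <;> simp only [VP, cub_eval, U]
  · rw [show (t - x) * (t + x) * ((t ^ 2 + (η - η ^ 3) * t * x + x ^ 2) / (t + x)) =
      (t - x) * (t ^ 2 + (η - η ^ 3) * t * x + x ^ 2) by field_simp]
    ring
  · rw [show (t - x) * (t + x) * ((t ^ 2 - (η + η ^ 3) * t * x - x ^ 2) / (t - x)) =
      (t + x) * (t ^ 2 - (η + η ^ 3) * t * x - x ^ 2) by field_simp]
    ring
  · rw [show (t - x) * (t + x) * ((t ^ 2 + (η + η ^ 3) * t * x - x ^ 2) / (t - x)) =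
      (t + x) * (t ^ 2 + (η + η ^ 3) * t * x - x ^ 2) by field_simp]
    ring
  · rw [show (t - x) * (t + x) * ((t ^ 2 + (η - η ^ 3) * t * x + x ^ 2) / (t + x)) =
      (t - x) * (t ^ 2 + (η - η ^ 3) * t * x + x ^ 2) by field_simp]
    ring

/-! ### products over a list -/

lemma prod_cubic (e : List (ℂ × Bool)) (a : Bool) :
    ((e.map (fun d => VP η a d.2 d.1)).prod).natDegree ≤ 3 * e.length ∧
    ((e.map (fun d => VP η a d.2 d.1)).prod).coeff (3 * e.length) = 1 ∧
    ((e.map (fun d => VP η a d.2 d.1)).prod).coeff 0 = (e.map (fun d => -d.1 ^ 3)).prod := by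
  induction e with
  | nil => simp
  | cons d e ih =>
    obtain ⟨h1, h2, h3⟩ := ih
    simp only [List.map_cons, List.prod_cons, List.length_cons]
    have hl : 3 * (e.length + 1) = 3 + 3 * e.length := by ring
    refine ⟨?_, ?_, ?_⟩
    · rw [hl]; exact natDegree_mul_le_of_le (VP_natDegree _ _ _) h1
    · rw [hl, coeff_mul_add_eq_of_natDegree_le (VP_natDegree _ _ _) h1, VP_coeff3, h2, mul_one]
    · rw [mul_coeff_zero, VP_coeff0, h3]

/-- numerator -/
noncomputable def NP (η : ℂ) (X : List ℂ) : ℂ[X] :=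
  sb X (fun e => C (wB η true * ownB η e) * (e.map (fun d => VP η true d.2 d.1)).prod +
    C (wB η false * ownB η e) * (e.map (fun d => VP η false d.2 d.1)).prod)

lemma NP_perm {X X' : List ℂ} (h : X.Perm X') : NP η X = NP η X' := by
  refine sb_perm h fun e e' he => ?_
  rw [ownB_perm he, (he.map _).prod_eq, (he.map (fun d => VP η false d.2 d.1)).prod_eq]

lemma sb_natDegree {X : List ℂ} {n : ℕ} {φ : List (ℂ × Bool) → ℂ[X]}
    (h : ∀ e, e.map Prod.fst = X → (φ e).natDegree ≤ n) : (sb X φ).natDegree ≤ n := by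
  induction X generalizing φ with
  | nil => exact h [] rfl
  | cons p X ih =>
    simp only [sb]
    refine (natDegree_add_le _ _).trans (max_le ?_ ?_)
    · exact ih fun e he => h _ (by simp [he])
    · exact ih fun e he => h _ (by simp [he])

lemma length_of_fst {X : List ℂ} {e : List (ℂ × Bool)} (he : e.map Prod.fst = X) :
    e.length = X.length := by rw [← he, List.length_map]

lemma NP_natDegree (X : List ℂ) : (NP η X).natDegree ≤ 3 * X.length := by
  refine sb_natDegree fun e he => ?_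
  rw [← length_of_fst he]
  refine (natDegree_add_le _ _).trans (max_le ?_ ?_)
  · exact (natDegree_C_mul_le _ _).trans (prod_cubic e true).1
  · exact (natDegree_C_mul_le _ _).trans (prod_cubic e false).1

lemma sb_coeff (X : List ℂ) (n : ℕ) (φ : List (ℂ × Bool) → ℂ[X]) :
    (sb X φ).coeff n = sb X (fun e => (φ e).coeff n) :=
  map_sb (Polynomial.lcoeff ℂ n).toAddMonoidHom X φ

lemma NP_top (hη : η ^ 4 = -1) (X : List ℂ) : (NP η X).coeff (3 * X.length) = B η X := by
  unfold NP
  rw [sb_coeff, B]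
  refine sb_congr fun e he => ?_
  rw [← length_of_fst he, coeff_add, coeff_C_mul, coeff_C_mul, (prod_cubic e true).2.1,
    (prod_cubic e false).2.1]
  linear_combination (ownB η e) * wB_add hη

lemma NP_bot (hη : η ^ 4 = -1) (X : List ℂ) :
    (NP η X).coeff 0 = (X.map (fun x => -x ^ 3)).prod * B η X := by
  unfold NP
  rw [sb_coeff, B, ← sb_mul_left]
  refine sb_congr fun e he => ?_
  rw [coeff_add, coeff_C_mul, coeff_C_mul, (prod_cubic e true).2.2,
    (prod_cubic e false).2.2, ← prod_fst (fun x => -x ^ 3) he]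
  linear_combination (ownB η e * (e.map (fun d => -d.1 ^ 3)).prod) * wB_add hη

lemma sb_eval (X : List ℂ) (t : ℂ) (φ : List (ℂ × Bool) → ℂ[X]) :
    (sb X φ).eval t = sb X (fun e => (φ e).eval t) :=
  map_sb (Polynomial.evalRingHom t).toAddMonoidHom X φ

/-- value of the product of the `VP` -/
noncomputable def vB (η t : ℂ) (a : Bool) (e : List (ℂ × Bool)) : ℂ :=
  (e.map (fun d => (VP η a d.2 d.1).eval t)).prod

lemma eval_prod_VP (t : ℂ) (a : Bool) (e : List (ℂ × Bool)) :
    ((e.map (fun d => VP η a d.2 d.1)).prod).eval t = vB η t a e := by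
  unfold vB
  rw [eval_list_prod, List.map_map]; rfl

lemma NP_eval (t : ℂ) (X : List ℂ) : (NP η X).eval t =
    sb X (fun e => wB η true * ownB η e * vB η t true e + wB η false * ownB η e * vB η t false e) := by
  unfold NP
  rw [sb_eval]
  refine sb_congr fun e _ => ?_
  rw [eval_add, eval_mul, eval_mul, eval_C, eval_C, eval_prod_VP, eval_prod_VP]

lemma vB_cons (t : ℂ) (a : Bool) (d : ℂ × Bool) (e : List (ℂ × Bool)) :
    vB η t a (d :: e) = (VP η a d.2 d.1).eval t * vB η t a e := by
  simp [vB]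

lemma ownB_cons (p : ℂ) (a : Bool) (e : List (ℂ × Bool)) :
    ownB η ((p, a) :: e) = wB η a * oneB η p a e * ownB η e := rfl

/-- cancellation at `t = x` -/
lemma NP_zero (x : ℂ) (X : List ℂ) (h : ∀ y ∈ X, x - y ≠ 0 ∧ x + y ≠ 0) :
    (NP η (x :: X)).eval x = 0 := by
  rw [NP_eval]
  simp only [sb]
  rw [← sb_add]
  have key : ∀ e : List (ℂ × Bool), e.map Prod.fst = X →
      vB η x true e * oneB η x false e = vB η x false e * oneB η x true e := by
    intro e he
    unfold vB oneB
    rw [← List.prod_map_mul, ← List.prod_map_mul]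
    refine prod_congr_of (f := fun d => (VP η true d.2 d.1).eval x * U η false d.2 x d.1)
      (g := fun d => (VP η false d.2 d.1).eval x * U η true d.2 x d.1) (fun y hy a => ?_) he
    simp only
    rw [VP_eval _ _ (h y hy).1 (h y hy).2, VP_eval _ _ (h y hy).1 (h y hy).2]
    ring
  have h0 : sb X (fun _ => (0 : ℂ)) = 0 := sb_zero X
  rw [← h0]
  refine sb_congr fun e he => ?_
  have k := key e he
  rw [vB_cons, vB_cons, vB_cons, vB_cons, ownB_cons, ownB_cons]
  simp only [VP, cub_eval]
  linear_combination (wB η true * wB η false * ownB η e *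
    (2 * (η + η ^ 3) * x ^ 3)) * k

lemma U_opp (hη : η ^ 4 = -1) {x y : ℂ} (h1 : x - y ≠ 0) (h2 : x + y ≠ 0) (b : Bool) :
    U η true b (-x) y * U η true b x y = U η false b (-x) y * U η false b x y := by
  have h3 : -x + y ≠ 0 := fun h => h1 (by linear_combination -h)
  have h4 : -x - y ≠ 0 := fun h => h2 (by linear_combination -h)
  rcases b with _ | _
  · simp only [U]
    rw [div_mul_div_comm, div_mul_div_comm, div_eq_div_iff (mul_ne_zero h4 h1) (mul_ne_zero h3 h2)]
    linear_combination (-4 * x ^ 2 * y ^ 2 * (y ^ 2 - x ^ 2)) * hη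
  · simp only [U]
    rw [div_mul_div_comm, div_mul_div_comm, div_eq_div_iff (mul_ne_zero h3 h2) (mul_ne_zero h4 h1)]
    linear_combination (4 * x ^ 2 * y ^ 2 * (y ^ 2 - x ^ 2)) * hη

/-- cancellation at `t = - x` -/
lemma NP_zero' (hη : η ^ 4 = -1) (x : ℂ) (X : List ℂ) (h : ∀ y ∈ X, x - y ≠ 0 ∧ x + y ≠ 0) :
    (NP η (x :: X)).eval (-x) = 0 := by
  rw [NP_eval]
  simp only [sb]
  rw [← sb_add]
  have key : ∀ e : List (ℂ × Bool), e.map Prod.fst = X →
      vB η (-x) true e * oneB η x true e = vB η (-x) false e * oneB η x false e := by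
    intro e he
    unfold vB oneB
    rw [← List.prod_map_mul, ← List.prod_map_mul]
    refine prod_congr_of (f := fun d => (VP η true d.2 d.1).eval (-x) * U η true d.2 x d.1)
      (g := fun d => (VP η false d.2 d.1).eval (-x) * U η false d.2 x d.1) (fun y hy a => ?_) he
    simp only
    have h1 := (h y hy).1
    have h2 := (h y hy).2
    have h3 : -x + y ≠ 0 := fun h => h1 (by linear_combination -h)
    have h4 : -x - y ≠ 0 := fun h => h2 (by linear_combination -h)
    rw [VP_eval _ _ h4 h3, VP_eval _ _ h4 h3]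
    linear_combination ((-x - y) * (-x + y)) * U_opp hη h1 h2 a
  have h0 : sb X (fun _ => (0 : ℂ)) = 0 := sb_zero X
  rw [← h0]
  refine sb_congr fun e he => ?_
  have k := key e he
  have k2 := wB_sq hη
  rw [vB_cons, vB_cons, vB_cons, vB_cons, ownB_cons, ownB_cons]
  simp only [VP, cub_eval]
  linear_combination (ownB η e * (2 * ((η - η ^ 3) - 2) * x ^ 3) * wB η true ^ 2) * k +
    (ownB η e * (2 * ((η - η ^ 3) - 2) * x ^ 3) * oneB η x false e * vB η (-x) false e) * k2

/-! ### division -/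

/-- the roots of the denominator -/
def badB : List ℂ → List ℂ
  | [] => []
  | x :: X => x :: (-x) :: badB X

lemma mem_badB {X : List ℂ} {t : ℂ} : t ∈ badB X ↔ ∃ x ∈ X, t = x ∨ t = -x := by
  induction X with
  | nil => simp [badB]
  | cons x X ih =>
    simp only [badB, List.mem_cons, ih]
    constructor
    · rintro (h | h | ⟨y, hy, h⟩)
      · exact ⟨x, Or.inl rfl, Or.inl h⟩
      · exact ⟨x, Or.inl rfl, Or.inr h⟩
      · exact ⟨y, Or.inr hy, h⟩
    · rintro ⟨y, rfl | hy, h⟩
      · rcases h with h | h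
        · exact Or.inl h
        · exact Or.inr (Or.inl h)
      · exact Or.inr (Or.inr ⟨y, hy, h⟩)

lemma length_badB (X : List ℂ) : (badB X).length = 2 * X.length := by
  induction X with
  | nil => rfl
  | cons x X ih => simp [badB, ih]; ring

lemma nodup_badB {X : List ℂ} (h : Pm X) : (badB X).Nodup := by
  induction X with
  | nil => simp [badB]
  | cons x X ih =>
    have hx := h.head
    simp only [badB, List.nodup_cons, List.mem_cons, not_or]
    refine ⟨⟨fun h' => hx (self_eq_neg.1 h'), fun h' => ?_⟩, fun h' => ?_, ih h.tail⟩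
    · obtain ⟨y, hy, h1 | h1⟩ := mem_badB.1 h'
      · exact (h.ne hy).1 h1
      · exact (h.ne hy).2 h1
    · obtain ⟨y, hy, h1 | h1⟩ := mem_badB.1 h'
      · exact (h.ne hy).2 (by rw [← h1, neg_neg])
      · exact (h.ne hy).1 (neg_injective h1)

/-- denominator -/
noncomputable def DB (X : List ℂ) : ℂ[X] := ((badB X).map (fun a => Polynomial.X - C a)).prod

lemma DB_monic (X : List ℂ) : (DB X).Monic := by
  unfold DB
  have : ∀ L : List ℂ, ((L.map (fun a => Polynomial.X - C a)).prod : ℂ[X]).Monic := by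
    intro L
    induction L with
    | nil => simp
    | cons a L ih =>
      rw [List.map_cons, List.prod_cons]
      exact (monic_X_sub_C a).mul ih
  exact this _

lemma DB_natDegree (X : List ℂ) : (DB X).natDegree = 2 * X.length := by
  unfold DB; rw [natDegree_prod_X_sub_C', length_badB]

lemma DB_cons (x : ℂ) (X : List ℂ) :
    DB (x :: X) = (Polynomial.X - C x) * ((Polynomial.X + C x) * DB X) := by
  unfold DB
  simp only [badB, List.map_cons, List.prod_cons, map_neg, sub_neg_eq_add]

lemma DB_eval (t : ℂ) (X : List ℂ) :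
    (DB X).eval t = (X.map (fun x => (t - x) * (t + x))).prod := by
  induction X with
  | nil => simp [DB, badB]
  | cons x X ih =>
    rw [DB_cons, List.map_cons, List.prod_cons, ← ih]
    simp only [eval_mul, eval_sub, eval_add, eval_X, eval_C]
    ring

lemma DB_coeff0 (X : List ℂ) : (DB X).coeff 0 = (X.map (fun x => -x ^ 2)).prod := by
  rw [coeff_zero_eq_eval_zero, DB_eval]
  congr 1
  exact List.map_congr_left fun x _ => by ring

/-- value of the numerator -/
lemma NP_eval_good (t : ℂ) (X : List ℂ) (h : ∀ x ∈ X, t - x ≠ 0 ∧ t + x ≠ 0) :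
    (NP η X).eval t = (DB X).eval t * B η (t :: X) := by
  rw [NP_eval, DB_eval, B_cons, ← sb_add, ← sb_mul_left]
  refine sb_congr fun e he => ?_
  have k : ∀ a, vB η t a e = (X.map (fun x => (t - x) * (t + x))).prod * oneB η t a e := by
    intro a
    unfold vB oneB
    rw [← prod_fst (fun x => (t - x) * (t + x)) he, ← List.prod_map_mul]
    refine prod_congr_of (f := fun d => (VP η a d.2 d.1).eval t)
      (g := fun d => (t - d.1) * (t + d.1) * U η a d.2 t d.1) (fun x hx b => ?_) he
    exact VP_eval _ _ (h x hx).1 (h x hx).2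
  rw [k, k]
  ring

lemma NP_root (hη : η ^ 4 = -1) {X : List ℂ} (h : Pm X) {t : ℂ} (ht : t ∈ badB X) :
    (NP η X).eval t = 0 := by
  obtain ⟨x, hx, h1⟩ := mem_badB.1 ht
  have hp := List.perm_cons_erase hx
  have h2 : Pm (x :: X.erase x) := h.perm hp
  rw [NP_perm hp]
  rcases h1 with rfl | rfl
  · exact NP_zero _ _ fun y hy => ⟨h2.sub hy, h2.add hy⟩
  · exact NP_zero' hη _ _ fun y hy => ⟨h2.sub hy, h2.add hy⟩

/-- **polynomial in every line** -/
theorem B_poly (hη : η ^ 4 = -1) (X : List ℂ) (hX : Pm X) : ∃ P : ℂ[X],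
    P.natDegree ≤ X.length ∧ P.coeff X.length = B η X ∧ P.coeff 0 = X.prod * B η X ∧
    ∀ t, (∀ x ∈ X, t ≠ x ∧ t ≠ -x) → B η (t :: X) = P.eval t := by
  obtain ⟨P, hP⟩ : DB X ∣ NP η X := list_dvd (nodup_badB hX) fun t ht => NP_root hη hX ht
  have hdeg : P.natDegree ≤ X.length := by
    rcases eq_or_ne P 0 with rfl | h0
    · simp
    · have h1 : (NP η X).natDegree = (DB X).natDegree + P.natDegree := by
        rw [hP, (DB_monic X).natDegree_mul' h0]
      have h2 := NP_natDegree (η := η) X
      rw [h1, DB_natDegree] at h2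
      omega
  refine ⟨P, hdeg, ?_, ?_, fun t ht => ?_⟩
  · have h1 := NP_top hη X
    rw [hP, show 3 * X.length = 2 * X.length + X.length by ring,
      coeff_mul_add_eq_of_natDegree_le (DB_natDegree X).le hdeg] at h1
    have h2 : (DB X).coeff (2 * X.length) = 1 := by
      rw [← DB_natDegree X]; exact (DB_monic X)
    rw [h2, one_mul] at h1
    exact h1
  · have h1 := NP_bot hη X
    rw [hP, mul_coeff_zero, DB_coeff0] at h1
    have h2 : (X.map (fun x => -x ^ 2)).prod ≠ 0 := by
      rw [Ne, List.prod_eq_zero_iff, List.mem_map]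
      rintro ⟨x, hx, h⟩
      exact hX.1 x hx (by simpa using h)
    have h3 : (X.map (fun x => -x ^ 3)).prod = (X.map (fun x => -x ^ 2)).prod * X.prod := by
      conv_rhs => rw [← List.map_id X, List.map_id X]
      have : X.prod = (X.map (fun x => x)).prod := by simp
      rw [this, ← List.prod_map_mul]
      congr 1
      exact List.map_congr_left fun x _ => by ring
    rw [h3, mul_assoc] at h1
    exact mul_left_cancel₀ h2 h1
  · have h1 : ∀ x ∈ X, t - x ≠ 0 ∧ t + x ≠ 0 := fun x hx =>
      ⟨sub_ne_zero.2 (ht x hx).1, fun h => (ht x hx).2 (by linear_combination h)⟩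
    have h2 := NP_eval_good (η := η) t X h1
    rw [hP, eval_mul] at h2
    have h3 : (DB X).eval t ≠ 0 := by
      rw [DB_eval, Ne, List.prod_eq_zero_iff, List.mem_map]
      rintro ⟨x, hx, h⟩
      exact mul_ne_zero (h1 x hx).1 (h1 x hx).2 h
    exact (mul_left_cancel₀ h3 h2).symm

end SPN
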