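import Pool.Agent.SPN.Intp
import Mathlib.Analysis.Complex.CauchyIntegral

/-!
# Every family with the rules is a circle average of products of two `b`

`circ_rep` : `v0` arbitrary (coincident half rows allowed).  For every `F` in `Rul η (List.ofFn v0)` and every generic `X`
`F X = (2 π i)⁻¹ ∮ t⁻¹ ∑ S, (∑ e, c S e t * F (evL e)) * pr b S (v0 + t v1) X dt`,
the `c S e` do not depend on `F`, `X` and are continuous on `0 < |t| ≤ R0`.
-/

set_option autoImplicit false

open Polynomial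

namespace SPN

open NUGas

variable {η κ ρ : ℂ} {b : List ℂ → ℂ} {r : ℕ}

lemma PF.cont_line {f : (Fin r → ℂ) → ℂ} (hf : PF r f) (v0 v1 : Fin r → ℂ) :
    Continuous fun t : ℂ => f (v0 + t • v1) := by
  obtain ⟨q, hq⟩ := hf.line v0 v1
  have : (fun t : ℂ => f (v0 + t • v1)) = fun t => q.eval t := funext hq
  rw [this]
  exact q.continuous

lemma PF.diff_line {f : (Fin r → ℂ) → ℂ} (hf : PF r f) (v0 v1 : Fin r → ℂ) :
    Differentiable ℂ fun t : ℂ => f (v0 + t • v1) := by
  obtain ⟨q, hq⟩ := hf.line v0 v1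
  have : (fun t : ℂ => f (v0 + t • v1)) = fun t => q.eval t := funext hq
  rw [this]
  exact q.differentiable

/-- the lift at a regular point: values at all generic lists -/
lemma lift_eq (hκ : κ ^ 2 = (2 - η + η ^ 3) * η ^ 3)
    (hρ : ρ ^ 2 = 2 * η ^ 2) (hb : BT η κ ρ b) {v : Fin r → ℂ} {d : ℂ} (hd : d ≠ 0)
    {A : Matrix (Cf r) (EvI r) ℂ}
    (hA : evM r (fun c : Cf r => pr b c.1 (List.ofFn v)) * A = d • (1 : Matrix (EvI r) (EvI r) ℂ))
    {X : List ℂ} {L : EvI r → (Fin r → ℂ) → ℂ}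
    (hL : ∀ (v : Fin r → ℂ) (F : List ℂ → ℂ), Rul η (List.ofFn v) F →
      F X = ∑ e, L e v * F (evL e)) (F : List ℂ → ℂ) :
    ∑ S : Cf r, (∑ e : EvI r, d⁻¹ * A S e * F (evL e)) * pr b S.1 (List.ofFn v) X =
      ∑ e, L e v * F (evL e) := by
  set α : Cf r → ℂ := fun S => ∑ e : EvI r, d⁻¹ * A S e * F (evL e) with hα
  have h1 : Rul η (List.ofFn v) (fun X => ∑ S ∈ Finset.univ, α S * pr b S.1 (List.ofFn v) X) :=
    Rul.sum Finset.univ (fun S : Cf r => pr_rul hκ hρ hb
      (by rw [List.length_ofFn]; exact len_Cf _ _ S.2)) α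
  have h2 := hL v _ h1
  have h3 : ∀ e : EvI r, ∑ S : Cf r, α S * pr b S.1 (List.ofFn v) (evL e) = F (evL e) := by
    intro e
    have h4 : ∀ e' : EvI r, ∑ S : Cf r, pr b S.1 (List.ofFn v) (evL e) * A S e' =
        if e = e' then d else 0 := by
      intro e'
      have h5 := congrFun (congrFun hA e) e'
      rw [Matrix.mul_apply, Matrix.smul_apply, Matrix.one_apply] at h5
      simp only [evM, Matrix.of_apply] at h5
      rw [h5]
      split_ifs <;> simp
    calc ∑ S : Cf r, α S * pr b S.1 (List.ofFn v) (evL e)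
        = ∑ S : Cf r, ∑ e' : EvI r, d⁻¹ * F (evL e') *
            (pr b S.1 (List.ofFn v) (evL e) * A S e') := by
          refine Finset.sum_congr rfl fun S _ => ?_
          rw [hα, Finset.sum_mul]
          exact Finset.sum_congr rfl fun e' _ => by ring
      _ = ∑ e' : EvI r, d⁻¹ * F (evL e') *
            ∑ S : Cf r, pr b S.1 (List.ofFn v) (evL e) * A S e' := by
          rw [Finset.sum_comm]
          exact Finset.sum_congr rfl fun e' _ => by rw [Finset.mul_sum]
      _ = F (evL e) := by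
          simp only [h4, mul_ite, mul_zero, Finset.sum_ite_eq, Finset.mem_univ, if_true]
          field_simp
  rw [h2]
  exact Finset.sum_congr rfl fun e _ => by rw [h3]

/-- **every family with the rules is a circle average of products of two `b`** -/
theorem circ_rep (hη : η ^ 4 = -1) (hκ : κ ^ 2 = (2 - η + η ^ 3) * η ^ 3)
    (hρ : ρ ^ 2 = 2 * η ^ 2) (hκ0 : κ ≠ 0) (hρ0 : ρ ≠ 0) (hb : BT η κ ρ b) (r : ℕ)
    (v0 : Fin r → ℂ) :
    ∃ (v1 : Fin r → ℂ) (R0 : ℝ) (c : Cf r → EvI r → ℂ → ℂ), 0 < R0 ∧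
      (∀ S e, ContinuousOn (c S e) {t : ℂ | t ≠ 0 ∧ ‖t‖ ≤ R0}) ∧
      ∀ F : List ℂ → ℂ, Rul η (List.ofFn v0) F → ∀ X : List ℂ, Gen η X → ∀ R : ℝ, 0 < R → R ≤ R0 →
        F X = (2 * Real.pi * Complex.I)⁻¹ * ∮ t in C(0, R), t⁻¹ *
          ∑ S : Cf r, (∑ e : EvI r, c S e t * F (evL e)) *
            pr b S.1 (List.ofFn (v0 + t • v1)) X := by
  obtain ⟨D, A, hD, hA, hne, hDA⟩ := exists_D hη hκ hρ hκ0 hρ0 hb r
  obtain ⟨v1, R0, hR0, hcirc⟩ := circ hD hne v0
  refine ⟨v1, R0, fun S e t => (D (v0 + t • v1))⁻¹ * A (v0 + t • v1) S e, hR0, fun S e => ?_,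
    fun F hF X hX R hR hRR => ?_⟩
  · refine ContinuousOn.mul (ContinuousOn.inv₀ (hD.cont_line v0 v1).continuousOn ?_)
      ((hA S e).cont_line v0 v1).continuousOn
    rintro t ⟨h1, h2⟩
    exact hcirc t h1 h2
  · obtain ⟨L, hL1, hL2⟩ := ip_all hη r hX
    set g : ℂ → ℂ := fun t => ∑ e, L e (v0 + t • v1) * F (evL e) with hg
    have hgd : Differentiable ℂ g := by
      rw [hg]
      exact Differentiable.fun_sum fun e _ => ((hL1 e).diff_line v0 v1).mul_const _
    have hg0 : g 0 = F X := by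
      rw [hg]
      simp only [zero_smul, add_zero]
      exact (hL2 v0 F hF).symm
    have hint : (∮ t in C(0, R), t⁻¹ * ∑ S : Cf r,
        (∑ e : EvI r, ((D (v0 + t • v1))⁻¹ * A (v0 + t • v1) S e) * F (evL e)) *
            pr b S.1 (List.ofFn (v0 + t • v1)) X) = ∮ t in C(0, R), (t - 0)⁻¹ • g t := by
      refine circleIntegral.integral_congr hR.le fun t ht => ?_
      have hn : ‖t‖ = R := by simpa using ht
      have ht0 : t ≠ 0 := by
        rintro rfl
        rw [norm_zero] at hn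
        exact hR.ne hn
      have h1 := lift_eq hκ hρ hb (hcirc t ht0 (hn.le.trans hRR)) (hDA (v0 + t • v1)) hL2 F
      simp only [sub_zero, smul_eq_mul]
      rw [h1]
    rw [hint, (hgd.diffContOnCl (s := Metric.ball 0 R)).circleIntegral_sub_inv_smul
      (Metric.mem_ball_self hR), hg0, smul_eq_mul, ← mul_assoc, inv_mul_cancel₀, one_mul]
    exact Complex.two_pi_I_ne_zero

end SPN
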