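import Pool.Agent.SPN.Sol

/-!
# Families with the rules are combinations of `fib (n + 1)` given ones when a determinant does not vanish
-/

set_option autoImplicit false

open Polynomial

namespace SPN

open NUGas

variable {η : ℂ} {Y : List ℂ}

/-- the places of evaluation -/
def EvI (r : ℕ) : Finset (Σ _ : ℕ, Finset ℕ) :=
  (Finset.range (r + 1)).sigma (fun m => (Finset.range (r - m)).powersetCard m)

lemma card_EvI (r : ℕ) : (EvI r).card = Nat.fib (r + 1) := by
  unfold EvI
  rw [Finset.card_sigma, Nat.fib_succ_eq_sum_choose,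
    Finset.Nat.sum_antidiagonal_eq_sum_range_succ (fun i j => i.choose j) r,
    ← Finset.sum_range_reflect]
  refine Finset.sum_congr rfl fun m hm => ?_
  rw [Finset.mem_range] at hm
  rw [Finset.card_powersetCard, Finset.card_range]
  congr 1
  omega

/-- the list of nodes of a place of evaluation -/
noncomputable def evL {r : ℕ} (e : EvI r) : List ℂ := e.1.2.toList.map nd

lemma gen_evL (hη : η ^ 4 = -1) {r : ℕ} (e : EvI r) : Gen η (evL e) := gen_nodes hη _

/-- a family with the rules vanishes if it vanishes at the places of evaluation -/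
theorem eval_zero' (hη : η ^ 4 = -1) {F : List ℂ → ℂ} (hF : Rul η Y F)
    (h : ∀ e : EvI Y.length, F (evL e) = 0) : ∀ X : List ℂ, Gen η X → F X = 0 := by
  refine eval_zero hη hF fun m B hB => ?_
  by_cases hm : m < Y.length + 1
  · exact h ⟨⟨m, B⟩, Finset.mem_sigma.2 ⟨Finset.mem_range.2 hm, hB⟩⟩
  · exfalso
    have h1 : (Finset.range (Y.length - m)).powersetCard m = ∅ := by
      rw [Finset.powersetCard_eq_empty, Finset.card_range]; omega
    rw [h1] at hB
    simp at hB

/-- matrix of the values -/
noncomputable def evM {ι : Type*} (r : ℕ) (P : ι → List ℂ → ℂ) : Matrix (EvI r) ι ℂ :=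
  Matrix.of fun e i => P i (evL e)

/-- **a family with the rules is the combination determined by the places of evaluation** -/
theorem comb_of_inv (hη : η ^ 4 = -1) {ι : Type*} [Fintype ι] [DecidableEq ι]
    {P : ι → List ℂ → ℂ} (hP : ∀ i, Rul η Y (P i)) (R : Matrix ι (EvI Y.length) ℂ)
    (hR : evM Y.length P * R = 1) {F : List ℂ → ℂ} (hF : Rul η Y F) :
    ∀ X : List ℂ, Gen η X → F X = ∑ i, (R.mulVec fun e => F (evL e)) i * P i X := by
  set c : ι → ℂ := R.mulVec fun e => F (evL e) with hc
  have h1 : Rul η Y (fun X => F X + (-1) * ∑ i ∈ Finset.univ, c i * P i X) :=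
    hF.add ((Rul.sum Finset.univ hP c).smul (-1))
  intro X hX
  have h2 := eval_zero' hη h1 (fun e => ?_) X hX
  · linear_combination h2
  · have h3 : (evM Y.length P).mulVec c = fun e => F (evL e) := by
      rw [hc, Matrix.mulVec_mulVec, hR, Matrix.one_mulVec]
    have h4 := congrFun h3 e
    simp only [Matrix.mulVec, dotProduct, evM, Matrix.of_apply] at h4
    rw [← h4]
    have : ∑ i, c i * P i (evL e) = ∑ i, P i (evL e) * c i :=
      Finset.sum_congr rfl fun i _ => mul_comm _ _
    rw [this]
    ring

/-- linearly independent families, as many as possible, have an invertible matrix of values -/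
theorem inv_of_indep (hη : η ^ 4 = -1) {ι : Type*} [Fintype ι] [DecidableEq ι]
    {P : ι → List ℂ → ℂ} (hP : ∀ i, Rul η Y (P i)) (hc : Fintype.card ι = Nat.fib (Y.length + 1))
    (hI : ∀ c : ι → ℂ, (∀ X : List ℂ, Gen η X → ∑ i, c i * P i X = 0) → c = 0) :
    ∃ R : Matrix ι (EvI Y.length) ℂ, evM Y.length P * R = 1 ∧ R * evM Y.length P = 1 := by
  classical
  have hcard : Module.finrank ℂ (ι → ℂ) = Module.finrank ℂ (EvI Y.length → ℂ) := by
    rw [Module.finrank_fintype_fun_eq_card, Module.finrank_fintype_fun_eq_card, hc,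
      Fintype.card_coe, card_EvI]
  set L : (ι → ℂ) →ₗ[ℂ] (EvI Y.length → ℂ) := Matrix.toLin' (evM Y.length P) with hL
  have hinj : Function.Injective L := by
    rw [← LinearMap.ker_eq_bot, LinearMap.ker_eq_bot']
    intro c hc0
    refine hI c fun X hX => ?_
    refine eval_zero' hη (F := fun X => ∑ i, c i * P i X) (Rul.sum Finset.univ hP c) (fun e => ?_)
      X hX
    have h4 := congrFun hc0 e
    rw [hL, Matrix.toLin'_apply] at h4
    simp only [Matrix.mulVec, dotProduct, evM, Matrix.of_apply, Pi.zero_apply] at h4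
    rw [← h4]
    exact Finset.sum_congr rfl fun i _ => mul_comm _ _
  set E := LinearMap.linearEquivOfInjective L hinj hcard with hE
  have hLE : (E : (ι → ℂ) →ₗ[ℂ] (EvI Y.length → ℂ)) = L := by
    refine LinearMap.ext fun x => ?_
    rfl
  refine ⟨LinearMap.toMatrix' (E.symm : (EvI Y.length → ℂ) →ₗ[ℂ] (ι → ℂ)), ?_, ?_⟩
  · have h1 : LinearMap.toMatrix' L = evM Y.length P := by rw [hL]; exact LinearMap.toMatrix'_toLin' _
    rw [← h1, ← LinearMap.toMatrix'_comp, ← hLE, ← LinearMap.toMatrix'_id]
    congr 1
    refine LinearMap.ext fun x => ?_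
    exact LinearEquiv.apply_symm_apply E x
  · have h1 : LinearMap.toMatrix' L = evM Y.length P := by rw [hL]; exact LinearMap.toMatrix'_toLin' _
    rw [← h1, ← LinearMap.toMatrix'_comp, ← hLE, ← LinearMap.toMatrix'_id]
    congr 1
    refine LinearMap.ext fun x => ?_
    exact LinearEquiv.symm_apply_apply E x

end SPN
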