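import Pool.Agent.SPN.Indep

/-!
# Determinant and adjugate of the matrix of values of the `fib (r + 1)` products

* `exists_D` : determinant and adjugate, polynomial in `Y`, the determinant not identically `0`;
* `circ` : near every `Y0`, in a suitable direction, a polynomial function which is not identically `0` is not `0`.
-/

set_option autoImplicit false

open Polynomial

namespace SPN

open NUGas

variable {η κ ρ : ℂ} {b : List ℂ → ℂ} {n : ℕ}

lemma PF.det {ι : Type*} [Fintype ι] [DecidableEq ι] {M : ι → ι → (Fin n → ℂ) → ℂ}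
    (h : ∀ i j, PF n (M i j)) : PF n (fun v => (Matrix.of fun i j => M i j v).det) := by
  refine (PF.sum Finset.univ fun σ _ => (PF.const (((Equiv.Perm.sign σ : ℤˣ) : ℤ) : ℂ)).mul
    (PF.prod Finset.univ fun i _ => h (σ i) i)).congr fun v => ?_
  rw [Matrix.det_apply']
  rfl

lemma PF.adj {ι : Type*} [Fintype ι] [DecidableEq ι] {M : ι → ι → (Fin n → ℂ) → ℂ}
    (h : ∀ i j, PF n (M i j)) (i j : ι) :
    PF n (fun v => (Matrix.of fun i j => M i j v).adjugate i j) := by
  refine (PF.det (M := fun i' j' => if i' = j then fun _ => (Pi.single i 1 : ι → ℂ) j'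
    else M i' j') fun i' j' => ?_).congr fun v => ?_
  · split_ifs
    · exact PF.const _
    · exact h _ _
  · rw [Matrix.adjugate_apply]
    congr 1
    ext i' j'
    rw [Matrix.updateRow_apply]
    simp only [Matrix.of_apply]
    split_ifs <;> rfl

/-- an order of the places of evaluation -/
noncomputable def ecE (r : ℕ) : Cf r ≃ EvI r :=
  Fintype.equivOfCardEq (by rw [Fintype.card_coe, Fintype.card_coe, card_Cf, card_EvI])

/-- the matrix of the values -/
noncomputable def MM (b : List ℂ → ℂ) (r : ℕ) (Y : List ℂ) : Matrix (Cf r) (Cf r) ℂ :=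
  Matrix.of fun i c => pr b c.1 Y (evL (ecE r i))

lemma evM_eq (b : List ℂ → ℂ) (r : ℕ) (Y : List ℂ) :
    evM r (fun c : Cf r => pr b c.1 Y) = (MM b r Y).submatrix (ecE r).symm id := by
  ext e c
  simp [evM, MM]

lemma det_ne_of_ind (hη : η ^ 4 = -1) (hκ : κ ^ 2 = (2 - η + η ^ 3) * η ^ 3)
    (hρ : ρ ^ 2 = 2 * η ^ 2) (hb : BT η κ ρ b) {Y : List ℂ} (h : Ind b Y.length Y) :
    (MM b Y.length Y).det ≠ 0 := by
  obtain ⟨R, _, hR⟩ := inv_of_indep hη (Y := Y) (P := fun c : Cf Y.length => pr b c.1 Y)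
    (fun c => pr_rul hκ hρ hb (len_Cf _ _ c.2)) (by rw [Fintype.card_coe, card_Cf]) fun α hα => by
      classical
      set β : List Bool → ℂ := fun c => if hc : c ∈ Cf Y.length then α ⟨c, hc⟩ else 0 with hβ
      have h1 : ∀ X : List ℂ, ∑ c ∈ Cf Y.length, β c * pr b c Y X =
          ∑ c : Cf Y.length, α c * pr b c.1 Y X := by
        intro X
        rw [← Finset.sum_coe_sort (Cf Y.length)]
        refine Finset.sum_congr rfl fun c _ => ?_
        have h0 : β c.1 = α c := dif_pos c.2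
        rw [h0]
      have h2 : ∀ X : List ℂ, ∑ c ∈ Cf Y.length, β c * pr b c Y X = 0 := by
        intro X
        have h3 := PF.ext_nd (f := fun v => ∑ c ∈ Cf Y.length, β c * pr b c Y (List.ofFn v))
          (g := fun _ : Fin X.length → ℂ => 0)
          (PF.sum _ fun c _ => (PF.const _).mul (pr_pfX hb c _ _)) (PF.const 0) 0
          (fun a ha _ => by rw [h1]; exact hα _ (gen_inj hη ha)) X.get
        simpa using h3
      funext c
      have h4 := h β h2 c.1 c.2
      rw [hβ] at h4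
      simpa using h4
  intro h0
  rw [evM_eq] at hR
  have h1 : (R.submatrix id (ecE Y.length)) * (MM b Y.length Y) = 1 := by
    rw [← hR]
    ext i j
    rw [Matrix.mul_apply, Matrix.mul_apply]
    refine Fintype.sum_equiv (ecE Y.length) _ _ fun k => ?_
    simp
  have h2 := congrArg Matrix.det h1
  rw [Matrix.det_mul, h0, mul_zero, Matrix.det_one] at h2
  exact one_ne_zero h2.symm

lemma ind_of_det {r : ℕ} {Y : List ℂ} (h : (MM b r Y).det ≠ 0) : Ind b r Y := by
  intro α hα c hc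
  have h1 : (MM b r Y).mulVec (fun c : Cf r => α c.1) = 0 := by
    funext i
    have h2 := hα (evL (ecE r i))
    rw [← Finset.sum_coe_sort] at h2
    simp only [Matrix.mulVec, dotProduct, MM, Matrix.of_apply, Pi.zero_apply]
    rw [← h2]
    exact Finset.sum_congr rfl fun c _ => mul_comm _ _
  exact congrFun (Matrix.eq_zero_of_mulVec_eq_zero h h1) ⟨c, hc⟩

lemma pf_MM (hb : BT η κ ρ b) (r n : ℕ) (i c : Cf r) :
    PF n (fun v => pr b c.1 (List.ofFn v) (evL (ecE r i))) := pr_pfY hb _ _ _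

lemma pf_DD (hb : BT η κ ρ b) (r n : ℕ) : PF n (fun v => (MM b r (List.ofFn v)).det) :=
  PF.det (fun i c => pf_MM hb r n i c)

lemma ne_of_two (hη : η ^ 4 = -1) (k : ℕ) : (2 : ℂ) + η ^ k ≠ 0 := by
  intro h
  have e : (2 : ℂ) = -η ^ k := by linear_combination h
  have e2 := congrArg norm e
  rw [norm_neg, norm_pow, norm_eta hη, one_pow] at e2
  norm_num at e2

/-- **the determinant is not identically zero** -/
theorem exists_ne (hη : η ^ 4 = -1) (hκ : κ ^ 2 = (2 - η + η ^ 3) * η ^ 3)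
    (hρ : ρ ^ 2 = 2 * η ^ 2) (hκ0 : κ ≠ 0) (hρ0 : ρ ≠ 0) (hb : BT η κ ρ b) :
    ∀ r : ℕ, ∃ v : Fin r → ℂ, (MM b r (List.ofFn v)).det ≠ 0
  | 0 => ⟨Fin.elim0, by
      have := det_ne_of_ind hη hκ hρ hb (Y := []) (ind_zero hb)
      simpa using this⟩
  | 1 => ⟨fun _ => 0, by
      have := det_ne_of_ind hη hκ hρ hb (Y := [0]) (ind_one hb 0)
      simpa using this⟩
  | r + 2 => by
    obtain ⟨v0, h0⟩ := exists_ne hη hκ hρ hκ0 hρ0 hb r
    obtain ⟨v1, h1⟩ := exists_ne hη hκ hρ hκ0 hρ0 hb (r + 1)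
    have h8 : η ^ 8 = 1 := eta8 hη
    have F1 : PF (r + 1) (fun w => (MM b r (List.ofFn fun i : Fin r => w i.succ)).det) :=
      (pf_DD hb r r).comp (g := fun i w => w i.succ) fun i => PF.var _
    have F2 : PF (r + 1) (fun w =>
        (MM b (r + 1) (List.ofFn (Fin.cons (η ^ 7 * w 0) (fun i => w i.succ) :
          Fin (r + 1) → ℂ))).det) := by
      refine ((pf_DD hb (r + 1) (r + 1)).comp
        (g := Fin.cons (fun w => η ^ 7 * w 0) (fun i w => w i.succ)) fun i => ?_).congr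
          fun w => ?_
      · refine Fin.cases ?_ (fun j => ?_) i
        · exact (PF.const _).mul (PF.var _)
        · exact PF.var _
      · congr 2
        congr 1
        funext i
        refine Fin.cases ?_ (fun j => ?_) i
        · rfl
        · rfl
    have F3 : PF (r + 1) (fun w => w 0 * ∏ i : Fin r, ((w i.succ + η * w 0) *
        (w i.succ + η ^ 2 * w 0) * (w i.succ + η * (η ^ 6 * w 0)) *
        (w i.succ + η * (η ^ 3 * w 0)) * (w i.succ + η ^ 2 * (η ^ 3 * w 0)))) := by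
      refine (PF.var 0).mul (PF.prod _ fun i _ => ?_)
      have g : ∀ c : ℂ, PF (r + 1) (fun w => w i.succ + c * w 0) := fun c =>
        (PF.var _).add ((PF.const c).mul (PF.var 0))
      have g2 : ∀ c d : ℂ, PF (r + 1) (fun w => w i.succ + c * (d * w 0)) := fun c d =>
        (PF.var _).add ((PF.const c).mul ((PF.const d).mul (PF.var 0)))
      exact ((((g _).mul (g _)).mul (g2 _ _)).mul (g2 _ _)).mul (g2 _ _)
    obtain ⟨w, hw⟩ := PF.mul_ne F1 F2 ⟨Fin.cons 0 v0, by simpa using h0⟩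
      ⟨Fin.cons (η * v1 0) (fun i => v1 i.succ), by
        have e : η ^ 7 * (η * v1 0) = v1 0 := by
          rw [← mul_assoc, ← pow_succ, h8, one_mul]
        simp only [Fin.cons_zero, Fin.cons_succ, e]
        have e2 : (Fin.cons (v1 0) (fun i => v1 i.succ) : Fin (r + 1) → ℂ) = v1 := by
          funext i
          refine Fin.cases ?_ (fun j => ?_) i <;> rfl
        rw [e2]
        exact h1⟩
    obtain ⟨u, hu12, hu3⟩ := PF.mul_ne (F1.mul F2) F3 ⟨w, mul_ne_zero hw.1 hw.2⟩
      ⟨Fin.cons 1 (fun _ => 2), by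
        simp only [Fin.cons_zero, Fin.cons_succ, mul_one, one_mul]
        refine Finset.prod_ne_zero_iff.2 fun i _ => ?_
        have e1 : η * η ^ 6 = η ^ 7 := by ring
        have e2 : η * η ^ 3 = η ^ 4 := by ring
        have e3 : η ^ 2 * η ^ 3 = η ^ 5 := by ring
        rw [e1, e2, e3]
        refine mul_ne_zero (mul_ne_zero (mul_ne_zero (mul_ne_zero ?_ (ne_of_two hη 2))
          (ne_of_two hη 7)) (ne_of_two hη 4)) (ne_of_two hη 5)
        have := ne_of_two hη 1
        rwa [pow_one] at this⟩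
    have hu1 := (mul_ne_zero_iff.1 hu12).1
    have hu2 := (mul_ne_zero_iff.1 hu12).2
    have hz := (mul_ne_zero_iff.1 hu3).1
    have hp := (mul_ne_zero_iff.1 hu3).2
    rw [Finset.prod_ne_zero_iff] at hp
    have hA : Av η (u 0) (List.ofFn fun i : Fin r => u i.succ) := by
      refine ⟨hz, fun y hy => ?_⟩
      obtain ⟨i, rfl⟩ := (List.mem_ofFn' _ _).1 hy
      have h := hp i (Finset.mem_univ i)
      have a5 := (mul_ne_zero_iff.1 h)
      have a4 := (mul_ne_zero_iff.1 a5.1)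
      have a3 := (mul_ne_zero_iff.1 a4.1)
      have a2 := (mul_ne_zero_iff.1 a3.1)
      exact ⟨a2.1, a2.2, a3.2, a4.2, a5.2⟩
    have hI := ind_step hη hκ0 hρ0 hb hA (ind_of_det hu1) (by
      have := ind_of_det hu2
      rwa [List.ofFn_succ, Fin.cons_zero] at this)
    have hl : (u 0 :: η ^ 3 * u 0 :: (List.ofFn fun i : Fin r => u i.succ)).length = r + 2 := by
      simp
    refine ⟨Fin.cons (u 0) (Fin.cons (η ^ 3 * u 0) (fun i : Fin r => u i.succ)), ?_⟩
    have hL : List.ofFn (Fin.cons (u 0) (Fin.cons (η ^ 3 * u 0) (fun i : Fin r => u i.succ)) :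
        Fin (r + 2) → ℂ) = u 0 :: η ^ 3 * u 0 :: (List.ofFn fun i : Fin r => u i.succ) := by
      rw [List.ofFn_succ, List.ofFn_succ]
      rfl
    rw [hL]
    rw [← hl] at hI
    have := det_ne_of_ind hη hκ hρ hb hI
    rwa [hl] at this

/-- **determinant and adjugate** -/
theorem exists_D (hη : η ^ 4 = -1) (hκ : κ ^ 2 = (2 - η + η ^ 3) * η ^ 3)
    (hρ : ρ ^ 2 = 2 * η ^ 2) (hκ0 : κ ≠ 0) (hρ0 : ρ ≠ 0) (hb : BT η κ ρ b) (r : ℕ) :
    ∃ (D : (Fin r → ℂ) → ℂ) (A : (Fin r → ℂ) → Matrix (Cf r) (EvI r) ℂ),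
      PF r D ∧ (∀ c e, PF r (fun v => A v c e)) ∧ (∃ v, D v ≠ 0) ∧
      ∀ v, evM r (fun c : Cf r => pr b c.1 (List.ofFn v)) * A v =
        D v • (1 : Matrix (EvI r) (EvI r) ℂ) := by
  refine ⟨fun v => (MM b r (List.ofFn v)).det,
    fun v => (MM b r (List.ofFn v)).adjugate.submatrix id (ecE r).symm, pf_DD hb r r,
    fun c e => ?_, exists_ne hη hκ hρ hκ0 hρ0 hb r, fun v => ?_⟩
  · exact PF.adj (fun i c => pf_MM hb r r i c) c ((ecE r).symm e)
  · rw [evM_eq, ← Matrix.submatrix_mul _ _ _ _ _ Function.bijective_id, Matrix.mul_adjugate]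
    ext i j
    simp [Matrix.one_apply]

/-! ### lines -/

lemma PF.line {f : (Fin n → ℂ) → ℂ} (hf : PF n f) (v0 v1 : Fin n → ℂ) :
    ∃ q : ℂ[X], ∀ t : ℂ, f (v0 + t • v1) = q.eval t := by
  obtain ⟨P, hP⟩ := hf
  refine ⟨MvPolynomial.eval₂ Polynomial.C (fun i => C (v0 i) + X * C (v1 i)) P, fun t => ?_⟩
  rw [hP]
  have h := MvPolynomial.eval₂_comp_left (Polynomial.evalRingHom t) Polynomial.C
    (fun i => C (v0 i) + X * C (v1 i)) P
  rw [Polynomial.coe_evalRingHom] at h
  rw [h]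
  have h1 : (Polynomial.evalRingHom t).comp Polynomial.C = RingHom.id ℂ := by
    ext <;> simp
  rw [h1]
  show MvPolynomial.eval₂ (RingHom.id ℂ) _ P = _
  congr 1
  funext i
  simp only [Function.comp_apply, Pi.add_apply, Pi.smul_apply, smul_eq_mul, Polynomial.eval_add,
    Polynomial.eval_C, Polynomial.eval_mul, Polynomial.eval_X]

lemma exists_R (S : Finset ℂ) : ∃ R : ℝ, 0 < R ∧ ∀ t ∈ S, t ≠ 0 → R < ‖t‖ := by
  induction S using Finset.induction_on with
  | empty => exact ⟨1, one_pos, by simp⟩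
  | insert a s _ ih =>
    obtain ⟨R, hR, h⟩ := ih
    by_cases ha : a = 0
    · refine ⟨R, hR, fun t ht h0 => ?_⟩
      rcases Finset.mem_insert.1 ht with rfl | ht
      · exact absurd ha h0
      · exact h t ht h0
    · have hn : 0 < ‖a‖ := norm_pos_iff.2 ha
      refine ⟨min R (‖a‖ / 2), lt_min hR (by positivity), fun t ht h0 => ?_⟩
      rcases Finset.mem_insert.1 ht with rfl | ht
      · exact lt_of_le_of_lt (min_le_right _ _) (by linarith)
      · exact lt_of_le_of_lt (min_le_left _ _) (h t ht h0)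

/-- **in a suitable direction `D` does not vanish near `v0`, except perhaps at `v0`** -/
theorem circ {D : (Fin n → ℂ) → ℂ} (hD : PF n D) (hne : ∃ v, D v ≠ 0) (v0 : Fin n → ℂ) :
    ∃ (v1 : Fin n → ℂ) (R : ℝ), 0 < R ∧ ∀ t : ℂ, t ≠ 0 → ‖t‖ ≤ R → D (v0 + t • v1) ≠ 0 := by
  obtain ⟨w, hw⟩ := hne
  obtain ⟨q, hq⟩ := hD.line v0 (w - v0)
  have hq0 : q ≠ 0 := by
    rintro rfl
    have := hq 1
    rw [one_smul, add_sub_cancel, Polynomial.eval_zero] at this
    exact hw this
  obtain ⟨R, hR, h⟩ := exists_R q.roots.toFinset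
  refine ⟨w - v0, R, hR, fun t ht htR h0 => ?_⟩
  rw [hq] at h0
  have := h t (by rw [Multiset.mem_toFinset, Polynomial.mem_roots hq0]; exact h0) ht
  linarith

end SPN
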