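import Pool.Agent.SPN.Sol
import Pool.Agent.NUF.Gas.Poly3

/-!
# The charge sum of one group in an external field made of half rows has the rules `Rul`

`Ext ζ Y m φ`: properties of the one body factor `φ a t` (charge `a`, line `t`) of a list `Y` of half rows of total
charge `m` (`ζ ^ 2 = η`).  Closed under products (`Ext.mul`); `H ζ b y` is one half row of charge `b`.
`S η σ m φ X`: sum over the charges `e` of the lines `X` with `2 tot e = m`.
`S_rul`: `Rul η Y (S η σ m φ)`.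
-/

set_option autoImplicit false

open Polynomial

namespace SPN

open NUGas

variable {ζ η σ : ℂ}

/-- properties of the one body factor of a list of half rows of total charge `m` -/
structure Ext (ζ η : ℂ) (Y : List ℂ) (m : ℤ) (φ : SignType → ℂ → ℂ) : Prop where
  poly : ∃ P : SignType → ℂ[X], (∀ a t, (P a).eval t = φ a t) ∧
    (∀ a : SignType, ((P a).natDegree : ℤ) ≤ Y.length - (a : ℤ) * m) ∧
    (P .zero).coeff Y.length = ζ ^ (-m)
  zero : φ .zero 0 = ζ ^ m * Y.prod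
  pole : ∀ t, φ .neg (η * t) * φ .pos t = ζ ^ m * (φ .zero (η * t) * φ .zero t)
  f1 : ∀ t, φ .neg (η ^ 2 * t) * φ .zero t =
    ζ ^ m * ((Y.map (fun y => y + η * t)).prod * φ .neg (η * t))
  f2 : ∀ t, φ .zero (η ^ 2 * t) * φ .pos t =
    ζ ^ m * ((Y.map (fun y => y + η * t)).prod * φ .pos (η * t))
  f3 : ∀ t, φ .neg (η ^ 2 * t) * φ .pos t =
    ζ ^ (2 * m) * ((Y.map (fun y => y + η * t)).prod * φ .zero (η * t))
  cr : ∀ q, φ .neg (η ^ 3 * q) * φ .pos q =
    ζ ^ (3 * m) * (Y.map (fun y => (y + η * q) * (y + η ^ 2 * q))).prod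

lemma Ext.one (ζ η : ℂ) : Ext ζ η [] 0 (fun _ _ => 1) where
  poly := ⟨fun _ => 1, by simp, by simp, by simp⟩
  zero := by simp
  pole := by simp
  f1 := by simp
  f2 := by simp
  f3 := by simp
  cr := by simp

lemma Ext.mul (hζ : ζ ≠ 0) {Y₁ Y₂ : List ℂ} {m₁ m₂ : ℤ} {φ₁ φ₂ : SignType → ℂ → ℂ}
    (h₁ : Ext ζ η Y₁ m₁ φ₁) (h₂ : Ext ζ η Y₂ m₂ φ₂) :
    Ext ζ η (Y₁ ++ Y₂) (m₁ + m₂) (fun a t => φ₁ a t * φ₂ a t) where
  poly := by
    obtain ⟨P, p1, p2, p3⟩ := h₁.poly
    obtain ⟨Q, q1, q2, q3⟩ := h₂.poly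
    refine ⟨fun a => P a * Q a, fun a t => by rw [eval_mul, p1, q1], fun a => ?_, ?_⟩
    · have h := natDegree_mul_le (p := P a) (q := Q a)
      have h' : ((P a * Q a).natDegree : ℤ) ≤ (P a).natDegree + (Q a).natDegree := by exact_mod_cast h
      have := p2 a
      have := q2 a
      rw [List.length_append]
      push_cast
      nlinarith
    · have hp : (P .zero).natDegree ≤ Y₁.length := by
        have := p2 .zero
        rw [show ((SignType.zero : SignType) : ℤ) = 0 from rfl, zero_mul, sub_zero] at this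
        exact_mod_cast this
      have hq : (Q .zero).natDegree ≤ Y₂.length := by
        have := q2 .zero
        rw [show ((SignType.zero : SignType) : ℤ) = 0 from rfl, zero_mul, sub_zero] at this
        exact_mod_cast this
      rw [List.length_append, coeff_mul_add_eq_of_natDegree_le hp hq, p3, q3, ← zpow_add₀ hζ]
      congr 1
      ring
  zero := by rw [h₁.zero, h₂.zero, zpow_add₀ hζ, List.prod_append]; ring
  pole t := by
    rw [zpow_add₀ hζ]
    calc _ = (φ₁ .neg (η * t) * φ₁ .pos t) * (φ₂ .neg (η * t) * φ₂ .pos t) := by ring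
      _ = _ := by rw [h₁.pole, h₂.pole]; ring
  f1 t := by
    rw [zpow_add₀ hζ, List.map_append, List.prod_append]
    calc _ = (φ₁ .neg (η ^ 2 * t) * φ₁ .zero t) * (φ₂ .neg (η ^ 2 * t) * φ₂ .zero t) := by ring
      _ = _ := by rw [h₁.f1, h₂.f1]; ring
  f2 t := by
    rw [zpow_add₀ hζ, List.map_append, List.prod_append]
    calc _ = (φ₁ .zero (η ^ 2 * t) * φ₁ .pos t) * (φ₂ .zero (η ^ 2 * t) * φ₂ .pos t) := by ring
      _ = _ := by rw [h₁.f2, h₂.f2]; ring
  f3 t := by
    rw [mul_add, zpow_add₀ hζ, List.map_append, List.prod_append]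
    calc _ = (φ₁ .neg (η ^ 2 * t) * φ₁ .pos t) * (φ₂ .neg (η ^ 2 * t) * φ₂ .pos t) := by ring
      _ = _ := by rw [h₁.f3, h₂.f3]; ring
  cr q := by
    rw [mul_add, zpow_add₀ hζ, List.map_append, List.prod_append]
    calc _ = (φ₁ .neg (η ^ 3 * q) * φ₁ .pos q) * (φ₂ .neg (η ^ 3 * q) * φ₂ .pos q) := by ring
      _ = _ := by rw [h₁.cr, h₂.cr]; ring

/-! ### one half row -/

/-- one body factor of a half row `y` of charge `b` on a line `t` of charge `a` -/
noncomputable def H (ζ η : ℂ) : SignType → ℂ → SignType → ℂ → ℂ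
  | .zero, y, .zero, t => -lin η 4 t y
  | .zero, y, .pos, t => -(ζ ^ 7 * lin η 5 t y)
  | .zero, y, .neg, t => ζ * lin η 3 t y
  | .pos, y, .zero, t => -(ζ * lin η 3 t y)
  | .pos, _, .pos, _ => 1
  | .pos, y, .neg, t => ζ ^ 3 * (lin η 2 t y * lin η 3 t y)
  | .neg, y, .zero, t => ζ ^ 7 * lin η 5 t y
  | .neg, _, .neg, _ => 1
  | .neg, y, .pos, t => -(ζ ^ 5 * (lin η 5 t y * lin η 6 t y))

/-- the square is the pair function across the face -/
lemma H_sq (hη : η = ζ ^ 2) (a b : SignType) (t y : ℂ) :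
    H ζ η b y a t ^ 2 = G η a b t y := by
  subst hη
  rcases a with _ | _ | _ <;> rcases b with _ | _ | _ <;> simp only [H, G] <;> ring

lemma s3 (k : ℕ) (t y : ℂ) : lin η k (η ^ 3 * t) y = lin η (k + 3) t y := by
  unfold lin; ring

lemma l5 (hη4 : η ^ 4 = -1) (t y : ℂ) : y + η * t = -lin η 5 t y := by
  unfold lin; linear_combination (η * t) * hη4

lemma l6 (hη4 : η ^ 4 = -1) (t y : ℂ) : y + η ^ 2 * t = -lin η 6 t y := by
  unfold lin; linear_combination (η ^ 2 * t) * hη4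

lemma eta4_of (hη : η = ζ ^ 2) (hζ : ζ ^ 8 = -1) : η ^ 4 = -1 := by
  rw [hη, ← pow_mul]; exact hζ

lemma zeta_inv (hζ : ζ ^ 8 = -1) : ζ⁻¹ = -ζ ^ 7 :=
  inv_eq_of_mul_eq_one_right (by linear_combination (-1) * hζ)

lemma z2 (u : ℂ) : u ^ (2 * ((SignType.neg : SignType) : ℤ)) = (u ^ 2)⁻¹ := by
  rw [show 2 * ((SignType.neg : SignType) : ℤ) = -2 by rfl, zpow_neg]; norm_cast
lemma z2p (u : ℂ) : u ^ (2 * ((SignType.pos : SignType) : ℤ)) = u ^ 2 := by
  rw [show 2 * ((SignType.pos : SignType) : ℤ) = 2 by rfl]; norm_cast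
lemma z3 (u : ℂ) : u ^ (3 * ((SignType.neg : SignType) : ℤ)) = (u ^ 3)⁻¹ := by
  rw [show 3 * ((SignType.neg : SignType) : ℤ) = -3 by rfl, zpow_neg]; norm_cast
lemma z3p (u : ℂ) : u ^ (3 * ((SignType.pos : SignType) : ℤ)) = u ^ 3 := by
  rw [show 3 * ((SignType.pos : SignType) : ℤ) = 3 by rfl]; norm_cast
lemma zm (u : ℂ) : u ^ (-((SignType.neg : SignType) : ℤ)) = u := by
  rw [show -((SignType.neg : SignType) : ℤ) = 1 by rfl, zpow_one]
lemma zmp (u : ℂ) : u ^ (-((SignType.pos : SignType) : ℤ)) = u⁻¹ := by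
  rw [show -((SignType.pos : SignType) : ℤ) = -1 by rfl, zpow_neg_one]

/-- polynomial version of a half row -/
noncomputable def HP (ζ η : ℂ) : SignType → ℂ → SignType → ℂ[X]
  | .zero, y, .zero => -LP η 4 y
  | .zero, y, .pos => C (-ζ ^ 7) * LP η 5 y
  | .zero, y, .neg => C ζ * LP η 3 y
  | .pos, y, .zero => C (-ζ) * LP η 3 y
  | .pos, _, .pos => 1
  | .pos, y, .neg => C (ζ ^ 3) * (LP η 2 y * LP η 3 y)
  | .neg, y, .zero => C (ζ ^ 7) * LP η 5 y
  | .neg, _, .neg => 1
  | .neg, y, .pos => C (-ζ ^ 5) * (LP η 5 y * LP η 6 y)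

lemma HP_eval (a b : SignType) (t y : ℂ) : (HP ζ η b y a).eval t = H ζ η b y a t := by
  rcases a with _ | _ | _ <;> rcases b with _ | _ | _ <;> simp [HP, H]

lemma HP_natDegree (a b : SignType) (y : ℂ) :
    ((HP ζ η b y a).natDegree : ℤ) ≤ 1 - (a : ℤ) * (b : ℤ) := by
  have L := fun k => degL (η := η) k y
  rcases a with _ | _ | _ <;> rcases b with _ | _ | _ <;> simp only [HP]
  · rw [natDegree_neg]; exact castLe (L 4).1 rfl
  · exact castLe (deg2 (degC _) (L 5)).1 rfl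
  · exact castLe (deg2 (degC _) (L 3)).1 rfl
  · exact castLe (deg2 (degC _) (L 3)).1 rfl
  · exact castLe (n := 0) (by simp) rfl
  · exact castLe (deg2 (degC _) (deg2 (L 2) (L 3))).1 rfl
  · exact castLe (deg2 (degC _) (L 5)).1 rfl
  · exact castLe (deg2 (degC _) (deg2 (L 5) (L 6))).1 rfl
  · exact castLe (n := 0) (by simp) rfl

/-- **one half row** -/
lemma H_ext (hη : η = ζ ^ 2) (hζ : ζ ^ 8 = -1) (b : SignType) (y : ℂ) :
    Ext ζ η [y] (b : ℤ) (H ζ η b y) := by
  have h4 := eta4_of hη hζ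
  have h0 : ζ ≠ 0 := by rintro rfl; norm_num at hζ
  have hi := zeta_inv hζ
  refine ⟨⟨HP ζ η b y, fun a t => HP_eval a b t y, fun a => ?_, ?_⟩, ?_, ?_, ?_, ?_, ?_, ?_⟩
  · simpa using HP_natDegree (ζ := ζ) (η := η) a b y
  · have L := fun k => degL (η := η) k y
    rcases b with _ | _ | _ <;> simp only [HP, List.length_singleton]
    · rw [coeff_neg, (L 4).2, h4]; simp
    · rw [(deg2 (degC (ζ ^ 7)) (L 5)).2, zm, hη]
      linear_combination (ζ ^ 9 - ζ) * hζ
    · rw [(deg2 (degC (-ζ)) (L 3)).2, zmp, hi, hη]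
      ring
  · have hl : ∀ k, lin η k 0 y = -y := fun k => by unfold lin; ring
    rcases b with _ | _ | _ <;> simp only [H, hl, List.prod_singleton]
    · rw [Fuse.cz]; ring
    · rw [Fuse.cn, hi]; ring
    · rw [Fuse.cp]; ring
  · intro t
    rcases b with _ | _ | _ <;> simp only [H, Fuse.s1, Nat.reduceAdd]
    · rw [Fuse.cz]; linear_combination (-(lin η 4 t y * lin η 5 t y)) * hζ
    · rw [Fuse.cn, hi]; linear_combination (ζ ^ 5 * lin η 5 t y * lin η 6 t y) * (ζ ^ 8 - 1) * hζ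
    · rw [Fuse.cp]; ring
  · intro t
    simp only [List.map_cons, List.map_nil, List.prod_singleton, l5 h4]
    rcases b with _ | _ | _ <;> simp only [H, Fuse.s1, Fuse.s2, Nat.reduceAdd]
    · rw [Fuse.cz]; ring
    · rw [Fuse.cn, hi]; ring
    · rw [Fuse.cp]; ring
  · intro t
    simp only [List.map_cons, List.map_nil, List.prod_singleton, l5 h4]
    rcases b with _ | _ | _ <;> simp only [H, Fuse.s1, Fuse.s2, Nat.reduceAdd]
    · rw [Fuse.cz]; ring
    · rw [Fuse.cn, hi]; ring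
    · rw [Fuse.cp]; ring
  · intro t
    simp only [List.map_cons, List.map_nil, List.prod_singleton, l5 h4]
    rcases b with _ | _ | _ <;> simp only [H, Fuse.s1, Fuse.s2, Nat.reduceAdd]
    · rw [show (2 : ℤ) * ((SignType.zero : SignType) : ℤ) = 0 from rfl, zpow_zero]
      linear_combination (-(lin η 5 t y * lin η 5 t y)) * hζ
    · rw [z2, ← inv_pow, hi]
      linear_combination (ζ ^ 5 * lin η 5 t y * lin η 6 t y) * (ζ ^ 8 - 1) * hζ
    · rw [z2p]; ring
  · intro q
    simp only [List.map_cons, List.map_nil, List.prod_singleton, l5 h4, l6 h4]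
    rcases b with _ | _ | _ <;> simp only [H, s3, Nat.reduceAdd]
    · rw [show (3 : ℤ) * ((SignType.zero : SignType) : ℤ) = 0 from rfl, zpow_zero]
      linear_combination (-(lin η 5 q y * lin η 6 q y)) * hζ
    · rw [z3, ← inv_pow, hi]
      linear_combination (ζ ^ 5 * lin η 5 q y * lin η 6 q y) * (ζ ^ 8 - 1) * hζ
    · rw [z3p]; ring

/-- one body factor of a list of half rows with charges -/
noncomputable def HL (ζ η : ℂ) (f : List (ℂ × SignType)) (a : SignType) (t : ℂ) : ℂ :=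
  (f.map (fun d => H ζ η d.2 d.1 a t)).prod

/-- **a list of half rows** -/
lemma HL_ext (hη : η = ζ ^ 2) (hζ : ζ ^ 8 = -1) (f : List (ℂ × SignType)) :
    Ext ζ η (f.map Prod.fst) (tot f) (HL ζ η f) := by
  have h0 : ζ ≠ 0 := by rintro rfl; norm_num at hζ
  induction f with
  | nil =>
    have e : HL ζ η [] = fun _ _ => 1 := by funext a t; simp [HL]
    rw [e]
    simpa [tot] using Ext.one ζ η
  | cons d f ih =>
    have := Ext.mul h0 (H_ext hη hζ d.2 d.1) ih
    have e : HL ζ η (d :: f) = fun a t => H ζ η d.2 d.1 a t * HL ζ η f a t := by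
      funext a t; simp [HL]
    rw [tot_cons, e]
    simpa using this

end SPN
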