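import Pool.Agent.SPN.PF
import Pool.Agent.SPN.Pr

/-!
# `fib (r + 1)` independent products at generic `Y`

`Cf r` : colourings of `r` half rows; `pr b c Y X` : the half rows of colour `true` in copy 1.
* `ind_step` : from `Z`, `η⁻¹ z :: Z` to `z :: η³ z :: Z`;
* `exists_D` : determinant and adjugate, polynomial in `Y`, the determinant not identically `0`;
* `circ` : on every small circle around every `Y0`, in a suitable direction, the determinant is not `0`.
-/

set_option autoImplicit false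

open Polynomial

namespace SPN

open NUGas

variable {η κ ρ : ℂ} {b : List ℂ → ℂ}

/-- colourings behind a first `true` -/
def Df : ℕ → Finset (List Bool)
  | 0 => {[]}
  | 1 => {[true], [false]}
  | r + 2 => (Df r).image (fun s => true :: true :: s) ∪ (Df (r + 1)).image (fun s => false :: s)

/-- colourings -/
def Cf : ℕ → Finset (List Bool)
  | 0 => {[]}
  | r + 1 => (Df r).image (fun s => true :: s)

lemma Df_succ (r : ℕ) : Df (r + 1) =
    (Cf r).image (fun s => true :: s) ∪ (Df r).image (fun s => false :: s) := by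
  cases r with
  | zero => rfl
  | succ r =>
    rw [Df, Cf, Finset.image_image]
    rfl

lemma cons_inj (a : Bool) : Function.Injective (fun s : List Bool => a :: s) := fun _ _ h =>
  (List.cons.inj h).2

lemma card_Df : ∀ r : ℕ, (Df r).card = Nat.fib (r + 2)
  | 0 => rfl
  | 1 => rfl
  | r + 2 => by
    rw [Df, Finset.card_union_of_disjoint, Finset.card_image_of_injective,
      Finset.card_image_of_injective _ (cons_inj false), card_Df r, card_Df (r + 1),
      Nat.fib_add_two (n := r + 2)]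
    · exact (cons_inj true).comp (cons_inj true)
    · rw [Finset.disjoint_left]
      intro c h1 h2
      obtain ⟨s, _, rfl⟩ := Finset.mem_image.1 h1
      obtain ⟨s', _, h⟩ := Finset.mem_image.1 h2
      exact absurd (List.cons.inj h).1 (by simp)

lemma card_Cf (r : ℕ) : (Cf r).card = Nat.fib (r + 1) := by
  cases r with
  | zero => rfl
  | succ r => rw [Cf, Finset.card_image_of_injective _ (cons_inj true), card_Df]

lemma len_Df : ∀ (r : ℕ) (c : List Bool), c ∈ Df r → c.length = r
  | 0, c, h => by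
    rw [Df, Finset.mem_singleton] at h
    rw [h]; rfl
  | 1, c, h => by
    rw [Df, Finset.mem_insert, Finset.mem_singleton] at h
    rcases h with rfl | rfl <;> rfl
  | r + 2, c, h => by
    rw [Df, Finset.mem_union] at h
    rcases h with h | h
    · obtain ⟨s, hs, rfl⟩ := Finset.mem_image.1 h
      simp [len_Df r s hs]
    · obtain ⟨s, hs, rfl⟩ := Finset.mem_image.1 h
      simp [len_Df (r + 1) s hs]

lemma len_Cf (r : ℕ) (c : List Bool) (h : c ∈ Cf r) : c.length = r := by
  cases r with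
  | zero =>
    rw [Cf, Finset.mem_singleton] at h
    rw [h]; rfl
  | succ r =>
    obtain ⟨s, hs, rfl⟩ := Finset.mem_image.1 h
    simp [len_Df r s hs]

/-- the half rows of a colour -/
def sel : Bool → List Bool → List ℂ → List ℂ
  | s, c :: cs, y :: ys => if c = s then y :: sel s cs ys else sel s cs ys
  | _, _, _ => []

@[simp] lemma sel_nil (s : Bool) (Y : List ℂ) : sel s [] Y = [] := by
  cases Y <;> rfl

@[simp] lemma sel_nil' (s : Bool) (c : List Bool) : sel s c [] = [] := by
  cases c <;> rfl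

@[simp] lemma sel_cons (s c : Bool) (cs : List Bool) (y : ℂ) (ys : List ℂ) :
    sel s (c :: cs) (y :: ys) = if c = s then y :: sel s cs ys else sel s cs ys := rfl

lemma sel_perm : ∀ (c : List Bool) (Y : List ℂ), c.length = Y.length →
    (sel true c Y ++ sel false c Y).Perm Y
  | [], [], _ => by simp
  | [], y :: Y, h => by simp at h
  | a :: c, [], h => by simp at h
  | a :: c, y :: Y, h => by
    have ih := sel_perm c Y (by simpa using h)
    cases a
    · simp only [sel_cons, Bool.false_eq_true, if_false, if_true]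
      exact List.perm_middle.trans (ih.cons y)
    · simp only [sel_cons, Bool.true_eq_false, if_false, if_true, List.cons_append]
      exact ih.cons y

/-- the product with the half rows of colour `true` in copy 1, the others in copy 2 -/
def pr (b : List ℂ → ℂ) (c : List Bool) (Y X : List ℂ) : ℂ :=
  two b (sel true c Y) (sel false c Y) X

theorem pr_rul (hκ : κ ^ 2 = (2 - η + η ^ 3) * η ^ 3) (hρ : ρ ^ 2 = 2 * η ^ 2)
    (hb : BT η κ ρ b) {c : List Bool} {Y : List ℂ} (h : c.length = Y.length) :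
    Rul η Y (pr b c Y) :=
  (two_rul hκ hρ hb _ _).permY (sel_perm c Y h)

/-! ### polynomials -/

lemma pf_app (hb : BT η κ ρ b) {n k m : ℕ} {e : Fin k → (Fin n → ℂ) → ℂ}
    (he : ∀ i, PF n (e i)) {f : Fin m → (Fin n → ℂ) → ℂ} (hf : ∀ i, PF n (f i)) :
    PF n (fun v => b (List.ofFn (fun i => e i v) ++ List.ofFn (fun i => f i v))) := by
  refine ((hb.mv (k + m)).comp (g := Fin.append e f) fun i => ?_).congr fun v => ?_
  · refine Fin.addCases (fun j => ?_) (fun j => ?_) i
    · rw [Fin.append_left]; exact he j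
    · rw [Fin.append_right]; exact hf j
  · rw [← List.ofFn_fin_append]
    congr 1
    congr 1
    funext i
    refine Fin.addCases (fun j => ?_) (fun j => ?_) i
    · rw [Fin.append_left, Fin.append_left]
    · rw [Fin.append_right, Fin.append_right]

lemma sel_ofFn (s : Bool) : ∀ (c : List Bool) (n : ℕ), ∃ (k : ℕ) (idx : Fin k → Fin n),
    ∀ v : Fin n → ℂ, sel s c (List.ofFn v) = List.ofFn fun j => v (idx j)
  | [], n => ⟨0, Fin.elim0, fun v => by simp⟩
  | a :: c, 0 => ⟨0, Fin.elim0, fun v => by simp⟩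
  | a :: c, n + 1 => by
    obtain ⟨k, idx, h⟩ := sel_ofFn s c n
    by_cases ha : a = s
    · refine ⟨k + 1, Fin.cons 0 (fun j => (idx j).succ), fun v => ?_⟩
      rw [List.ofFn_succ, sel_cons, if_pos ha, h, List.ofFn_succ]
      simp
    · refine ⟨k, fun j => (idx j).succ, fun v => ?_⟩
      rw [List.ofFn_succ, sel_cons, if_neg ha, h]

/-- polynomial in `X` -/
lemma pr_pfX (hb : BT η κ ρ b) (c : List Bool) (Y : List ℂ) (n : ℕ) :
    PF n (fun v => pr b c Y (List.ofFn v)) := by
  unfold pr two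
  have h : ∀ U : List ℂ, PF n (fun v => b (List.ofFn v ++ U)) := by
    intro U
    refine (pf_app hb (e := fun i v => v i) (f := fun (i : Fin U.length) _ => U.get i)
      (fun i => PF.var i) fun i => PF.const _).congr fun v => ?_
    rw [List.ofFn_get]
  exact (h _).mul (h _)

/-- polynomial in `Y` -/
lemma pr_pfY (hb : BT η κ ρ b) (c : List Bool) (X : List ℂ) (n : ℕ) :
    PF n (fun v => pr b c (List.ofFn v) X) := by
  unfold pr two
  have h : ∀ s : Bool, PF n (fun v => b (X ++ sel s c (List.ofFn v))) := by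
    intro s
    obtain ⟨k, idx, h⟩ := sel_ofFn s c n
    refine (pf_app hb (e := fun (i : Fin X.length) _ => X.get i) (f := fun j v => v (idx j))
      (fun i => PF.const _) fun i => PF.var _).congr fun v => ?_
    rw [List.ofFn_get, h]
  exact (h true).mul (h false)

/-- linear independence of the products of `Cf r` -/
def Ind (b : List ℂ → ℂ) (r : ℕ) (Y : List ℂ) : Prop :=
  ∀ α : List Bool → ℂ, (∀ X, ∑ c ∈ Cf r, α c * pr b c Y X = 0) → ∀ c ∈ Cf r, α c = 0

/-- a nonzero prefactor may be dropped -/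
lemma drop_factor {G : List ℂ → ℂ} (hG : ∀ n, PF n fun v => G (List.ofFn v)) {P : ℂ → ℂ}
    {K : ℕ} (hP : ∀ k ≥ K, P (nd k) ≠ 0) (h : ∀ X : List ℂ, (X.map P).prod * G X = 0) :
    ∀ X, G X = 0 := by
  intro X
  have h1 := PF.ext_nd (hG X.length) (PF.const 0) K (fun a ha haK => ?_) X.get
  · simpa using h1
  · rcases mul_eq_zero.1 (h (List.ofFn fun i => nd (a i))) with h2 | h2
    · exfalso
      rw [List.map_ofFn, List.prod_ofFn, Finset.prod_eq_zero_iff] at h2
      obtain ⟨i, _, hi⟩ := h2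
      exact hP _ (haK i) hi
    · exact h2

lemma nd_add_ne (c : ℂ) : ∃ K : ℕ, ∀ k ≥ K, nd k + c ≠ 0 := by
  obtain ⟨K, hK⟩ := exists_nat_gt ‖c‖
  refine ⟨K, fun k hk h => ?_⟩
  have e : nd k = -c := by linear_combination h
  have e2 := congrArg norm e
  rw [norm_neg, norm_nd] at e2
  have : (K : ℝ) ≤ (k + 1 : ℕ) := by exact_mod_cast (by omega : K ≤ k + 1)
  linarith

lemma prod_append' (f : ℂ → ℂ) (X Y : List ℂ) :
    ((X ++ Y).map f).prod = (X.map f).prod * (Y.map f).prod := by
  rw [List.map_append, List.prod_append]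

lemma prod_ne {f : ℂ → ℂ} {L : List ℂ} (h : ∀ y ∈ L, f y ≠ 0) : (L.map f).prod ≠ 0 := by
  induction L with
  | nil => simp
  | cons y L ih =>
    rw [List.map_cons, List.prod_cons]
    exact mul_ne_zero (h y List.mem_cons_self) (ih fun x hx => h x (List.mem_cons_of_mem _ hx))

lemma mem_sel : ∀ (s : Bool) (c : List Bool) (Y : List ℂ), ∀ y ∈ sel s c Y, y ∈ Y
  | s, [], Y, y, h => by simp at h
  | s, a :: c, [], y, h => by simp at h
  | s, a :: c, z :: Y, y, h => by
    rw [sel_cons] at h
    split_ifs at h with ha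
    · rcases List.mem_cons.1 h with rfl | h
      · exact List.mem_cons_self
      · exact List.mem_cons_of_mem _ (mem_sel s c Y y h)
    · exact List.mem_cons_of_mem _ (mem_sel s c Y y h)

/-- same copy -/
lemma pr_same (hb : BT η κ ρ b) (z : ℂ) (s : List Bool) (Z X : List ℂ) :
    pr b (true :: true :: s) (z :: η ^ 3 * z :: Z) X =
      (X.map fun x => (x + η * z) * (x + η ^ 2 * z)).prod *
        ((κ * z * ((sel true s Z).map fun x => (x + η * z) * (x + η ^ 2 * z)).prod) *
          pr b s Z X) := by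
  unfold pr two
  simp only [sel_cons, Bool.true_eq_false, if_false, if_true]
  have hp : (X ++ z :: η ^ 3 * z :: sel true s Z).Perm (η ^ 3 * z :: z :: (X ++ sel true s Z)) :=
    (List.perm_middle.trans ((List.perm_middle).cons z)).trans (List.Perm.swap _ _ _)
  rw [hb.perm hp, hb.cross, prod_append']
  ring

/-- different copies, seen with the row `η⁶ z` -/
lemma pr_diff (hη : η ^ 4 = -1) (hb : BT η κ ρ b) (z : ℂ) (s : List Bool) (Z X : List ℂ) :
    pr b (true :: false :: s) (z :: η ^ 3 * z :: Z) (η ^ 6 * z :: X) =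
      (X.map fun x => (x + η * (η ^ 6 * z)) * ((x + η * (η ^ 3 * z)) * (x + η ^ 2 * (η ^ 3 * z)))).prod *
        ((ρ * (η ^ 6 * z) * ((sel true s Z).map fun x => x + η * (η ^ 6 * z)).prod *
          (κ * (η ^ 3 * z) * ((sel false s Z).map fun x =>
            (x + η * (η ^ 3 * z)) * (x + η ^ 2 * (η ^ 3 * z))).prod)) *
          pr b (true :: s) (η ^ 7 * z :: Z) X) := by
  unfold pr two
  simp only [sel_cons, Bool.true_eq_false, Bool.false_eq_true, if_false, if_true, List.cons_append]
  have h8 : η ^ 8 = 1 := eta8 hη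
  have e1 : z = η ^ 2 * (η ^ 6 * z) := by rw [← mul_assoc, ← pow_add, h8, one_mul]
  have e2 : η ^ 6 * z = η ^ 3 * (η ^ 3 * z) := by rw [← mul_assoc, ← pow_add]
  have e7 : η * (η ^ 6 * z) = η ^ 7 * z := by rw [← mul_assoc, ← pow_succ']
  have hp1 : (η ^ 6 * z :: (X ++ z :: sel true s Z)).Perm
      (z :: η ^ 6 * z :: (X ++ sel true s Z)) :=
    ((List.perm_middle).cons _).trans (List.Perm.swap _ _ _)
  have hp2 : (η ^ 6 * z :: (X ++ η ^ 3 * z :: sel false s Z)).Perm
      (η ^ 6 * z :: η ^ 3 * z :: (X ++ sel false s Z)) := (List.perm_middle).cons _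
  have hp3 : (X ++ η ^ 7 * z :: sel true s Z).Perm (η ^ 7 * z :: (X ++ sel true s Z)) :=
    List.perm_middle
  have f1 : b (z :: η ^ 6 * z :: (X ++ sel true s Z)) = ρ * (η ^ 6 * z) *
      ((X ++ sel true s Z).map fun x => x + η * (η ^ 6 * z)).prod *
        b (η ^ 7 * z :: (X ++ sel true s Z)) := by
    conv_lhs => rw [show z :: η ^ 6 * z :: (X ++ sel true s Z) =
      η ^ 2 * (η ^ 6 * z) :: η ^ 6 * z :: (X ++ sel true s Z) by rw [← e1]]
    rw [hb.fuse, e7]
  have f2 : b (η ^ 6 * z :: η ^ 3 * z :: (X ++ sel false s Z)) = κ * (η ^ 3 * z) *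
      ((X ++ sel false s Z).map fun x =>
        (x + η * (η ^ 3 * z)) * (x + η ^ 2 * (η ^ 3 * z))).prod * b (X ++ sel false s Z) := by
    conv_lhs => rw [show η ^ 6 * z :: η ^ 3 * z :: (X ++ sel false s Z) =
      η ^ 3 * (η ^ 3 * z) :: η ^ 3 * z :: (X ++ sel false s Z) by rw [← e2]]
    rw [hb.cross]
  rw [hb.perm hp1, hb.perm hp2, hb.perm hp3, f1, f2, prod_append', prod_append']
  have e3 : (X.map fun x => (x + η * (η ^ 6 * z)) *
      ((x + η * (η ^ 3 * z)) * (x + η ^ 2 * (η ^ 3 * z)))).prod =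
      (X.map fun x => x + η * (η ^ 6 * z)).prod *
        (X.map fun x => (x + η * (η ^ 3 * z)) * (x + η ^ 2 * (η ^ 3 * z))).prod := by
    rw [← List.prod_map_mul]
  rw [e3]
  ring

/-- what has to be avoided -/
def Av (η z : ℂ) (Z : List ℂ) : Prop := z ≠ 0 ∧ ∀ y ∈ Z, y + η * z ≠ 0 ∧ y + η ^ 2 * z ≠ 0 ∧
  y + η * (η ^ 6 * z) ≠ 0 ∧ y + η * (η ^ 3 * z) ≠ 0 ∧ y + η ^ 2 * (η ^ 3 * z) ≠ 0

lemma sum_Cf2 (r : ℕ) (f : List Bool → ℂ) : ∑ c ∈ Cf (r + 2), f c =
    ∑ s ∈ Cf r, f (true :: true :: s) + ∑ s ∈ Df r, f (true :: false :: s) := by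
  rw [Cf, Df_succ, Finset.sum_image (fun _ _ _ _ h => cons_inj true h), Finset.sum_union,
    Finset.sum_image (fun _ _ _ _ h => cons_inj true h),
    Finset.sum_image (fun _ _ _ _ h => cons_inj false h)]
  rw [Finset.disjoint_left]
  intro c h1 h2
  obtain ⟨s, _, rfl⟩ := Finset.mem_image.1 h1
  obtain ⟨s', _, h⟩ := Finset.mem_image.1 h2
  exact absurd (List.cons.inj h).1 (by simp)

lemma mem_Cf2 {r : ℕ} {c : List Bool} (h : c ∈ Cf (r + 2)) :
    (∃ s ∈ Cf r, c = true :: true :: s) ∨ ∃ s ∈ Df r, c = true :: false :: s := by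
  rw [Cf, Df_succ] at h
  obtain ⟨s, hs, rfl⟩ := Finset.mem_image.1 h
  rcases Finset.mem_union.1 hs with hs | hs
  · obtain ⟨s', hs', rfl⟩ := Finset.mem_image.1 hs
    exact Or.inl ⟨s', hs', rfl⟩
  · obtain ⟨s', hs', rfl⟩ := Finset.mem_image.1 hs
    exact Or.inr ⟨s', hs', rfl⟩

/-- **the step** -/
theorem ind_step (hη : η ^ 4 = -1) (hκ0 : κ ≠ 0) (hρ0 : ρ ≠ 0) (hb : BT η κ ρ b) {r : ℕ}
    {z : ℂ} {Z : List ℂ} (hA : Av η z Z) (h1 : Ind b r Z) (h2 : Ind b (r + 1) (η ^ 7 * z :: Z)) :
    Ind b (r + 2) (z :: η ^ 3 * z :: Z) := by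
  intro α hα
  obtain ⟨hz, hZ⟩ := hA
  have he := eta_ne hη
  -- different copies
  have hd : ∀ s ∈ Df r, α (true :: false :: s) = 0 := by
    set C : List Bool → ℂ := fun s =>
      ρ * (η ^ 6 * z) * ((sel true s Z).map fun x => x + η * (η ^ 6 * z)).prod *
          (κ * (η ^ 3 * z) * ((sel false s Z).map fun x =>
            (x + η * (η ^ 3 * z)) * (x + η ^ 2 * (η ^ 3 * z))).prod) with hC
    have hC0 : ∀ s, C s ≠ 0 := by
      intro s
      have hz6 : η ^ 6 * z ≠ 0 := mul_ne_zero (pow_ne_zero _ he) hz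
      have hz3 : η ^ 3 * z ≠ 0 := mul_ne_zero (pow_ne_zero _ he) hz
      refine mul_ne_zero (mul_ne_zero (mul_ne_zero hρ0 hz6) (prod_ne fun y hy => ?_))
        (mul_ne_zero (mul_ne_zero hκ0 hz3) (prod_ne fun y hy => ?_))
      · exact (hZ y (mem_sel _ _ _ y hy)).2.2.1
      · have h := hZ y (mem_sel _ _ _ y hy)
        exact mul_ne_zero h.2.2.2.1 h.2.2.2.2
    set β : List Bool → ℂ := fun c => match c with
      | true :: s => α (true :: false :: s) * C s
      | _ => 0 with hβ
    obtain ⟨K1, hK1⟩ := nd_add_ne (η * (η ^ 6 * z))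
    obtain ⟨K2, hK2⟩ := nd_add_ne (η * (η ^ 3 * z))
    obtain ⟨K3, hK3⟩ := nd_add_ne (η ^ 2 * (η ^ 3 * z))
    have key : ∀ X, ∑ c ∈ Cf (r + 1), β c * pr b c (η ^ 7 * z :: Z) X = 0 := by
      refine drop_factor (G := fun X => ∑ c ∈ Cf (r + 1), β c * pr b c (η ^ 7 * z :: Z) X)
        (fun n => PF.sum _ fun c _ => (PF.const _).mul (pr_pfX hb c _ n))
        (P := fun x => (x + η * (η ^ 6 * z)) * ((x + η * (η ^ 3 * z)) * (x + η ^ 2 * (η ^ 3 * z))))
        (K := K1 + K2 + K3) (fun k hk => ?_) fun X => ?_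
      · exact mul_ne_zero (hK1 k (by omega)) (mul_ne_zero (hK2 k (by omega)) (hK3 k (by omega)))
      · have h := hα (η ^ 6 * z :: X)
        rw [sum_Cf2] at h
        have h3 : ∑ s ∈ Cf r, α (true :: true :: s) *
            pr b (true :: true :: s) (z :: η ^ 3 * z :: Z) (η ^ 6 * z :: X) = 0 := by
          refine Finset.sum_eq_zero fun s _ => ?_
          rw [pr_same hb, List.map_cons, List.prod_cons]
          have e0 : η ^ 6 * z + η ^ 2 * z = 0 := by
            have : η ^ 6 = η ^ 4 * η ^ 2 := by ring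
            rw [this, hη]; ring
          rw [e0]; ring
        rw [h3, zero_add] at h
        show _ * (∑ c ∈ Cf (r + 1), β c * pr b c (η ^ 7 * z :: Z) X) = 0
        rw [Cf, Finset.sum_image (fun _ _ _ _ h => cons_inj true h), Finset.mul_sum, ← h]
        refine Finset.sum_congr rfl fun s _ => ?_
        rw [pr_diff hη hb]
        simp only [hβ, hC]
        ring
    intro s hs
    have h4 := h2 β key (true :: s) (by rw [Cf]; exact Finset.mem_image_of_mem _ hs)
    simp only [hβ] at h4
    exact (mul_eq_zero.1 h4).resolve_right (hC0 s)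
  -- same copy
  have hsm : ∀ s ∈ Cf r, α (true :: true :: s) = 0 := by
    set C : List Bool → ℂ := fun s =>
      κ * z * ((sel true s Z).map fun x => (x + η * z) * (x + η ^ 2 * z)).prod with hC
    have hC0 : ∀ s, C s ≠ 0 := by
      intro s
      refine mul_ne_zero (mul_ne_zero hκ0 hz) (prod_ne fun y hy => ?_)
      have h := hZ y (mem_sel _ _ _ y hy)
      exact mul_ne_zero h.1 h.2.1
    obtain ⟨K1, hK1⟩ := nd_add_ne (η * z)
    obtain ⟨K2, hK2⟩ := nd_add_ne (η ^ 2 * z)
    have key : ∀ X, ∑ s ∈ Cf r, (α (true :: true :: s) * C s) * pr b s Z X = 0 := by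
      refine drop_factor (G := fun X => ∑ s ∈ Cf r, (α (true :: true :: s) * C s) * pr b s Z X)
        (fun n => PF.sum _ fun c _ => (PF.const _).mul (pr_pfX hb c _ n))
        (P := fun x => (x + η * z) * (x + η ^ 2 * z))
        (K := K1 + K2) (fun k hk => ?_) fun X => ?_
      · exact mul_ne_zero (hK1 k (by omega)) (hK2 k (by omega))
      · have h := hα X
        rw [sum_Cf2] at h
        have h3 : ∑ s ∈ Df r, α (true :: false :: s) *
            pr b (true :: false :: s) (z :: η ^ 3 * z :: Z) X = 0 :=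
          Finset.sum_eq_zero fun s hs => by rw [hd s hs, zero_mul]
        rw [h3, add_zero] at h
        show _ * (∑ s ∈ Cf r, (α (true :: true :: s) * C s) * pr b s Z X) = 0
        rw [Finset.mul_sum, ← h]
        refine Finset.sum_congr rfl fun s _ => ?_
        rw [pr_same hb]
        simp only [hC]
        ring
    intro s hs
    have h4 := h1 (fun s => α (true :: true :: s) * C s) key s hs
    exact (mul_eq_zero.1 h4).resolve_right (hC0 s)
  intro c hc
  rcases mem_Cf2 hc with ⟨s, hs, rfl⟩ | ⟨s, hs, rfl⟩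
  · exact hsm s hs
  · exact hd s hs

lemma ind_zero (hb : BT η κ ρ b) : Ind b 0 [] := by
  intro α hα c hc
  rw [Cf, Finset.mem_singleton] at hc
  subst hc
  have h := hα []
  rw [Cf, Finset.sum_singleton] at h
  unfold pr two at h
  simpa [hb.nil] using h

lemma b_single (hb : BT η κ ρ b) (y : ℂ) : b [y] = 1 := by
  obtain ⟨P, h1, h2, h3, h4⟩ := hb.poly []
  rw [h4, Polynomial.eq_C_of_natDegree_le_zero h1, Polynomial.eval_C]
  rw [h3, hb.nil]
  simp

lemma ind_one (hb : BT η κ ρ b) (y : ℂ) : Ind b 1 [y] := by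
  intro α hα c hc
  have hc' : c = [true] := by
    rw [Cf, Df, Finset.image_singleton, Finset.mem_singleton] at hc
    exact hc
  subst hc'
  have h := hα []
  rw [Cf, Df, Finset.image_singleton, Finset.sum_singleton] at h
  unfold pr two at h
  simpa [hb.nil, b_single hb] using h

end SPN
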