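import Pool.Agent.SPN.Det

/-!
# Interpolation: the values of a family with the rules are combinations of `fib (r + 1)` of them

`IP η r X`: there are polynomial functions `L e` of the half rows `v` with `F X = ∑ e, L e v * F (evL e)` for all `v`
and all `F` in `Rul η (List.ofFn v)`.  `ip_all`: every generic list `X` has this property.
-/

set_option autoImplicit false

open Polynomial

namespace SPN

open NUGas

variable {η : ℂ} {r : ℕ}

/-- a functional which is a combination of the values at the places of evaluation, the coefficients being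
polynomial functions of the half rows -/
def IPf (η : ℂ) (r : ℕ) (Φ : (Fin r → ℂ) → (List ℂ → ℂ) → ℂ) : Prop :=
  ∃ L : EvI r → (Fin r → ℂ) → ℂ, (∀ e, PF r (L e)) ∧
    ∀ (v : Fin r → ℂ) (F : List ℂ → ℂ), Rul η (List.ofFn v) F → Φ v F = ∑ e, L e v * F (evL e)

/-- the value at `X` -/
def IP (η : ℂ) (r : ℕ) (X : List ℂ) : Prop := IPf η r (fun _ F => F X)

section closure

variable {Φ Ψ : (Fin r → ℂ) → (List ℂ → ℂ) → ℂ}

lemma IPf.congr (h : IPf η r Φ)
    (hc : ∀ (v : Fin r → ℂ) (F : List ℂ → ℂ), Rul η (List.ofFn v) F → Ψ v F = Φ v F) :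
    IPf η r Ψ := by
  obtain ⟨L, h1, h2⟩ := h
  exact ⟨L, h1, fun v F hF => by rw [hc v F hF, h2 v F hF]⟩

lemma IPf.zero : IPf η r (fun _ _ => 0) := ⟨fun _ _ => 0, fun _ => PF.const 0, by simp⟩

lemma IPf.mul {a : (Fin r → ℂ) → ℂ} (ha : PF r a) (h : IPf η r Φ) :
    IPf η r (fun v F => a v * Φ v F) := by
  obtain ⟨L, h1, h2⟩ := h
  refine ⟨fun e v => a v * L e v, fun e => ha.mul (h1 e), fun v F hF => ?_⟩
  show a v * Φ v F = _
  rw [h2 v F hF, Finset.mul_sum]
  exact Finset.sum_congr rfl fun e _ => by ring

lemma IPf.add (h : IPf η r Φ) (k : IPf η r Ψ) : IPf η r (fun v F => Φ v F + Ψ v F) := by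
  obtain ⟨L, h1, h2⟩ := h
  obtain ⟨M, k1, k2⟩ := k
  refine ⟨fun e v => L e v + M e v, fun e => (h1 e).add (k1 e), fun v F hF => ?_⟩
  show Φ v F + Ψ v F = _
  rw [h2 v F hF, k2 v F hF, ← Finset.sum_add_distrib]
  exact Finset.sum_congr rfl fun e _ => by ring

lemma IPf.sum {ι : Type*} (s : Finset ι) {Φ : ι → (Fin r → ℂ) → (List ℂ → ℂ) → ℂ}
    (h : ∀ i ∈ s, IPf η r (Φ i)) : IPf η r (fun v F => ∑ i ∈ s, Φ i v F) := by
  classical
  induction s using Finset.induction_on with
  | empty => simpa using IPf.zero
  | insert a s ha ih =>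
    simp only [Finset.sum_insert ha]
    exact (h a (Finset.mem_insert_self a s)).add (ih fun i hi => h i (Finset.mem_insert_of_mem hi))

end closure

lemma IP.perm {X X' : List ℂ} (hX : IP η r X) (h : X.Perm X') : IP η r X' :=
  IPf.congr hX fun _ _ hF => hF.perm h.symm

lemma pf_prodL {g : ℂ → ℂ} (hg : ∀ f : (Fin r → ℂ) → ℂ, PF r f → PF r (fun v => g (f v))) :
    PF r (fun v => ((List.ofFn v).map g).prod) := by
  have := PF.prodL (n := r) (k := r) (g := fun x _ => g x) (e := fun i v => v i)
    (fun f hf => hg f hf) (fun i => PF.var i)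
  simpa using this

lemma pf_lin (c : ℂ) : PF r (fun v => ((List.ofFn v).map (fun y => y + c)).prod) :=
  pf_prodL fun _ hf => hf.add (PF.const c)

lemma pf_two (c d : ℂ) : PF r (fun v => ((List.ofFn v).map (fun y => (y + c) * (y + d))).prod) :=
  pf_prodL fun _ hf => (hf.add (PF.const c)).mul (hf.add (PF.const d))

lemma pf_prod : PF r (fun v => (List.ofFn v).prod) := by
  refine PF.congr (pf_prodL (r := r) (g := fun y => y) fun _ hf => hf) fun v => ?_
  rw [List.map_id']

/-! ### annihilation and fusion -/

lemma ip_cross {q : ℂ} {X : List ℂ} (hX : Gen η (q :: X)) (h : IP η r X) :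
    IP η r (η ^ 3 * q :: q :: X) := by
  refine IPf.congr (IPf.mul (((PF.const ((2 - η + η ^ 3) * η ^ 3 * q ^ 2 *
    (X.map (fun x => ((x + η * q) * (x + η ^ 2 * q)) ^ 2)).prod)).mul
      (pf_two (η * q) (η ^ 2 * q)))) h) fun v F hF => ?_
  rw [hF.cross q X hX]
  ring

lemma ip_fuse {t : ℂ} {X : List ℂ} (hX : Gen η (t :: X)) (h : IP η r (η * t :: X)) :
    IP η r (η ^ 2 * t :: t :: X) := by
  refine IPf.congr (IPf.mul (((PF.const (2 * (η * t) ^ 2 *
    (X.map (fun x => (x + η * t) ^ 2)).prod)).mul (pf_lin (η * t)))) h) fun v F hF => ?_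
  rw [hF.fuse t X hX]
  ring

lemma rel_IP (hη : η ^ 4 = -1) {m : ℕ}
    (h0 : ∀ X : List ℂ, Gen η X → X.length < m → IP η r X) {X : List ℂ} (hX : Gen η X)
    (hm : X.length + 1 ≤ m) {t : ℂ} (ht : t ∈ rel η X) : IP η r (t :: X) := by
  obtain ⟨x, hx, hk⟩ := mem_rel.1 ht
  have hp := List.perm_cons_erase hx
  have hG : Gen η (x :: X.erase x) := hX.perm hη hp
  have hl : X.length = (X.erase x).length + 1 := by rw [hp.length_eq]; rfl
  have key : ∀ k : ℕ, Gen η (η ^ k * x :: X.erase x) := fun k => hG.scale hη k
  have h8 : η ^ 8 = 1 := eta8 hη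
  rcases hk with rfl | rfl | rfl | rfl
  · exact (ip_fuse hG (h0 (η * x :: X.erase x) (by simpa using key 1) (by simp; omega))).perm
      (hp.cons _).symm
  · exact (ip_cross hG (h0 _ hG.tail (by omega))).perm (hp.cons _).symm
  · have e : x = η ^ 3 * (η ^ 5 * x) := by rw [← mul_assoc, ← pow_add, h8, one_mul]
    have hq : (η ^ 5 * x :: x :: X.erase x).Perm
        (η ^ 3 * (η ^ 5 * x) :: η ^ 5 * x :: X.erase x) := by
      rw [← e]; exact List.Perm.swap _ _ _
    exact ((ip_cross (key 5) (h0 _ hG.tail (by omega))).perm hq.symm).perm (hp.cons _).symm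
  · have e : x = η ^ 2 * (η ^ 6 * x) := by rw [← mul_assoc, ← pow_add, h8, one_mul]
    have hq : (η ^ 6 * x :: x :: X.erase x).Perm
        (η ^ 2 * (η ^ 6 * x) :: η ^ 6 * x :: X.erase x) := by
      rw [← e]; exact List.Perm.swap _ _ _
    have k7 : Gen η (η * (η ^ 6 * x) :: X.erase x) := by
      rw [← mul_assoc, ← pow_succ']; exact key 7
    exact ((ip_fuse (key 6) (h0 _ k7 (by simp; omega))).perm hq.symm).perm (hp.cons _).symm

/-- interpolation in the first variable -/
lemma line_IP (hη : η ^ 4 = -1) {X : List ℂ} (hX : Gen η X) (hI : IP η r X)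
    (hR : ∀ t ∈ rel η X, IP η r (t :: X)) (s : Finset ℂ) (hs0 : ∀ t ∈ s, t ≠ 0)
    (hsX : ∀ t ∈ s, ∀ x ∈ X, Sep η t x) (hs : ∀ t ∈ s, IP η r (t :: X))
    (hc : r < 2 * X.length + s.card + 2) :
    ∀ t, Good η t X → IP η r (t :: X) := by
  classical
  intro t ht
  have hgs : ∀ t ∈ s, Good η t X := by
    intro t ht x hx
    have h := hsX t ht x hx
    exact ⟨by simpa using h 0, by simpa using h 1, fun hc => (h.mul_right hη 1) 0 (by simpa using hc)⟩
  set T : Finset ℂ := insert 0 (rel η X ∪ s) with hT
  have hdis : Disjoint (rel η X) s := by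
    rw [Finset.disjoint_left]
    intro t ht1 ht2
    obtain ⟨x, hx, hk⟩ := mem_rel.1 ht1
    have h := hsX t ht2 x hx
    rcases hk with hk | hk | hk | hk
    · exact (h.mul_right hη 2) 0 (by rw [pow_zero, one_mul]; exact hk)
    · exact (h.mul_right hη 3) 0 (by rw [pow_zero, one_mul]; exact hk)
    · exact (h.mul_right hη 5) 0 (by rw [pow_zero, one_mul]; exact hk)
    · exact (h.mul_right hη 6) 0 (by rw [pow_zero, one_mul]; exact hk)
  have h0T : (0 : ℂ) ∉ rel η X ∪ s := by
    rw [Finset.mem_union, not_or]
    refine ⟨fun h => ?_, fun h => hs0 0 h rfl⟩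
    obtain ⟨x, hx, hk⟩ := mem_rel.1 h
    have hx0 := hX.1 x hx
    have he := eta_ne hη
    rcases hk with hk | hk | hk | hk <;>
    · rcases mul_eq_zero.1 hk.symm with h | h
      · exact absurd h (pow_ne_zero _ he)
      · exact hx0 h
  have hcard : T.card = 4 * X.length + s.card + 1 := by
    rw [hT, Finset.card_insert_of_notMem h0T, Finset.card_union_of_disjoint hdis, card_rel hη hX]
  set d := 2 * X.length + r with hd
  have hdT : d ≤ T.card := by omega
  set ℓ : ℂ → ℂ := fun a => (Lagrange.basis T id a).eval t with hℓ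
  -- the value at the node `a`
  set G : ℂ → (Fin r → ℂ) → (List ℂ → ℂ) → ℂ := fun a v F =>
    if a = 0 then ((X.map (fun x => x ^ 2)).prod * (List.ofFn v).prod) * F X else F (a :: X) with hG
  have hGI : ∀ a ∈ T, IPf η r (G a) := by
    intro a ha
    by_cases h0 : a = 0
    · refine IPf.congr (IPf.mul ((PF.const (X.map (fun x => x ^ 2)).prod).mul pf_prod) hI)
        fun v F _ => ?_
      rw [hG]
      simp only [h0, if_true]
    · have ha' : a ∈ rel η X ∪ s := by
        rw [hT, Finset.mem_insert] at ha
        exact ha.resolve_left h0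
      have h1 : IP η r (a :: X) := by
        rcases Finset.mem_union.1 ha' with h | h
        · exact hR a h
        · exact hs a h
      refine IPf.congr h1 fun v F _ => ?_
      rw [hG]
      simp only [h0, if_false]
  have key : IPf η r (fun v F => t ^ d * F X +
      ∑ a ∈ T, ℓ a * (G a v F + (-(a ^ d)) * F X)) :=
    (IPf.mul (PF.const _) hI).add (IPf.sum T fun a ha =>
      IPf.mul (PF.const _) ((hGI a ha).add (IPf.mul (PF.const _) hI)))
  refine IPf.congr key fun v F hF => ?_
  obtain ⟨P, h1, h2, h3, h4⟩ := hF.poly X hX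
  rw [List.length_ofFn] at h1 h2
  set Q : ℂ[X] := P - C (F X) * Polynomial.X ^ d with hQ
  have hQd : Q.degree < (T.card : WithBot ℕ) := by
    refine lt_of_lt_of_le ?_ (by exact_mod_cast hdT : (d : WithBot ℕ) ≤ (T.card : WithBot ℕ))
    rw [degree_lt_iff_coeff_zero]
    intro k hk
    rw [hQ, coeff_sub, coeff_C_mul, coeff_X_pow]
    rcases eq_or_lt_of_le hk with h | h
    · subst h
      rw [if_pos rfl, h2]; ring
    · rw [if_neg (by omega), coeff_eq_zero_of_natDegree_lt (by omega)]; ring
  have hL := Lagrange.eq_interpolate (s := T) (v := (id : ℂ → ℂ)) (Set.injOn_id _) hQd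
  have hval : ∀ a ∈ T, Q.eval a = G a v F + (-(a ^ d)) * F X := by
    intro a ha
    have : P.eval a = G a v F := by
      by_cases h0 : a = 0
      · rw [hG]
        simp only [h0, if_true]
        rw [← Polynomial.coeff_zero_eq_eval_zero, h3]
      · have ha' : a ∈ rel η X ∪ s := by
          rw [hT, Finset.mem_insert] at ha
          exact ha.resolve_left h0
        rw [hG]
        simp only [h0, if_false]
        rcases Finset.mem_union.1 ha' with h | h
        · exact (h4 a (good_of_rel hη hX h)).symm
        · exact (h4 a (hgs a h)).symm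
    rw [hQ, eval_sub, this, eval_mul, eval_C, eval_pow, eval_X]
    ring
  have h5 : Q.eval t = ∑ a ∈ T, ℓ a * (G a v F + (-(a ^ d)) * F X) := by
    conv_lhs => rw [hL]
    rw [Lagrange.interpolate_apply, eval_finsetSum]
    refine Finset.sum_congr rfl fun a ha => ?_
    rw [eval_mul, eval_C, id, hval a ha, hℓ]
    ring
  rw [h4 t ht, ← h5, hQ, eval_sub, eval_mul, eval_C, eval_pow, eval_X]
  ring

lemma stepA_IP (hη : η ^ 4 = -1) {m : ℕ}
    (h0 : ∀ X : List ℂ, Gen η X → X.length < m → IP η r X)
    (h : ∀ B ∈ (Finset.range (r - m)).powersetCard m, IP η r (B.toList.map nd)) :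
    ∀ (j : ℕ) (A : List ℂ) (B : Finset ℕ), A.length = j → B ⊆ Finset.range (r - m) →
      A.length + B.card = m → Gen η (A ++ B.toList.map nd) → SepN η r A →
      IP η r (A ++ B.toList.map nd) := by
  intro j
  induction j with
  | zero =>
    intro A B hA hB hm _ _
    rw [List.length_eq_zero_iff] at hA
    subst hA
    refine h B (Finset.mem_powersetCard.2 ⟨hB, by simpa using hm⟩)
  | succ j ih =>
    intro A B hA hB hm hG hS
    match A, hA with
    | a :: A, hA =>
      have hA' : A.length = j := by simpa using hA
      have hG' : Gen η (A ++ B.toList.map nd) := by rw [List.cons_append] at hG; exact hG.tail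
      have hS' : SepN η r A := fun b hb => hS b (List.mem_cons_of_mem _ hb)
      have hlen : (A ++ B.toList.map nd).length + 1 = m := by
        simp only [List.length_append, List.length_map, Finset.length_toList]
        simp only [List.length_cons] at hm
        omega
      set s : Finset ℂ := ((Finset.range (r - m)) \ B).image nd with hs
      have hcard : s.card = r - m - B.card := by
        rw [hs, Finset.card_image_of_injective _ (fun i j h => nd_inj h),
          Finset.card_sdiff_of_subset hB, Finset.card_range]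
      have hBc : B.card ≤ r - m := by simpa using Finset.card_le_card hB
      refine line_IP hη hG' (h0 _ hG' (by omega)) (fun t ht => rel_IP hη h0 hG' (by omega) ht)
        s ?_ ?_ ?_ ?_ a ?_
      · intro t ht
        obtain ⟨i, _, rfl⟩ := Finset.mem_image.1 ht
        exact nd_ne i
      · intro t ht x hx
        obtain ⟨i, hi, rfl⟩ := Finset.mem_image.1 ht
        rw [Finset.mem_sdiff, Finset.mem_range] at hi
        rcases List.mem_append.1 hx with hx | hx
        · exact (hS' x hx i (by omega)).symm hη
        · obtain ⟨k, hk, rfl⟩ := List.mem_map.1 hx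
          refine sep_nd hη ?_
          rintro rfl
          exact hi.2 (Finset.mem_toList.1 hk)
      · intro t ht
        obtain ⟨i, hi, rfl⟩ := Finset.mem_image.1 ht
        rw [Finset.mem_sdiff, Finset.mem_range] at hi
        have hp : (nd i :: (A ++ B.toList.map nd)).Perm (A ++ (insert i B).toList.map nd) := by
          have e1 : ((insert i B).toList.map nd).Perm (nd i :: B.toList.map nd) := by
            have := (Finset.toList_insert hi.2).map nd
            simpa using this
          exact (List.perm_middle.symm).trans ((e1.symm).append_left A)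
        have hG2 : Gen η (nd i :: (A ++ B.toList.map nd)) := by
          refine ⟨?_, List.pairwise_cons.2 ⟨?_, hG'.2⟩⟩
          · intro x hx
            rcases List.mem_cons.1 hx with rfl | hx
            · exact nd_ne i
            · exact hG'.1 x hx
          · intro x hx
            rcases List.mem_append.1 hx with hx | hx
            · exact (hS' x hx i (by omega)).symm hη
            · obtain ⟨k, hk, rfl⟩ := List.mem_map.1 hx
              refine sep_nd hη ?_
              rintro rfl
              exact hi.2 (Finset.mem_toList.1 hk)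
        refine (ih A (insert i B) hA' ?_ ?_ (hG2.perm hη hp) hS').perm hp.symm
        · exact Finset.insert_subset (Finset.mem_range.2 hi.1) hB
        · rw [Finset.card_insert_of_notMem hi.2]
          simp only [List.length_cons] at hm
          omega
      · rw [hcard]
        simp only [List.length_append, List.length_map, Finset.length_toList]
        simp only [List.length_cons] at hm
        omega
      · rw [List.cons_append] at hG
        exact hG.good hη

lemma stepB_IP (hη : η ^ 4 = -1) {m : ℕ}
    (h0 : ∀ X : List ℂ, Gen η X → X.length < m → IP η r X)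
    (h : ∀ B ∈ (Finset.range (r - m)).powersetCard m, IP η r (B.toList.map nd)) :
    ∀ (j : ℕ) (A D : List ℂ), A.length = j → A.length + D.length = m → Gen η (A ++ D) →
      SepN η r D → IP η r (A ++ D) := by
  intro j
  induction j with
  | zero =>
    intro A D hA hm hG hS
    rw [List.length_eq_zero_iff] at hA
    subst hA
    have := stepA_IP hη h0 h D.length D ∅ rfl (Finset.empty_subset _) (by simpa using hm)
      (by simpa using hG) hS
    simpa using this
  | succ j ih =>
    intro A D hA hm hG hS
    match A, hA with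
    | a :: A, hA =>
      have hA' : A.length = j := by simpa using hA
      have hG' : Gen η (A ++ D) := by rw [List.cons_append] at hG; exact hG.tail
      have hlen : (A ++ D).length + 1 = m := by
        simp only [List.length_append]
        simp only [List.length_cons] at hm
        omega
      obtain ⟨K, hsep⟩ := exists_sep (A ++ D) hη
      set K₁ := max K r with hK₁
      set s : Finset ℂ := ((Finset.range (r + 1)).image (fun i => nd (K₁ + i))) with hs
      have hcard : s.card = r + 1 := by
        rw [hs, Finset.card_image_of_injective _ (fun i j h => by have := nd_inj h; omega),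
          Finset.card_range]
      refine line_IP hη hG' (h0 _ hG' (by omega)) (fun t ht => rel_IP hη h0 hG' (by omega) ht)
        s ?_ ?_ ?_ (by omega) a ?_
      · intro t ht
        obtain ⟨i, _, rfl⟩ := Finset.mem_image.1 ht
        exact nd_ne _
      · intro t ht x hx
        obtain ⟨i, _, rfl⟩ := Finset.mem_image.1 ht
        exact hsep _ (by omega) x hx
      · intro t ht
        obtain ⟨i, _, rfl⟩ := Finset.mem_image.1 ht
        have hp : (nd (K₁ + i) :: (A ++ D)).Perm (A ++ nd (K₁ + i) :: D) := List.perm_middle.symm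
        have hG2 : Gen η (nd (K₁ + i) :: (A ++ D)) := by
          refine ⟨?_, List.pairwise_cons.2 ⟨fun x hx => hsep _ (by omega) x hx, hG'.2⟩⟩
          intro x hx
          rcases List.mem_cons.1 hx with rfl | hx
          · exact nd_ne _
          · exact hG'.1 x hx
        refine (ih A _ hA' ?_ (hG2.perm hη hp) ?_).perm hp.symm
        · simp only [List.length_cons] at hm ⊢
          omega
        · intro d hd k hk
          rcases List.mem_cons.1 hd with rfl | hd
          · exact sep_nd hη (by omega)
          · exact hS d hd k hk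
      · rw [List.cons_append] at hG
        exact hG.good hη

lemma ip_base {m : ℕ} {B : Finset ℕ} (hB : B ∈ (Finset.range (r - m)).powersetCard m) :
    IP η r (B.toList.map nd) := by
  classical
  have hm : m < r + 1 := by
    by_contra hc
    have h1 : (Finset.range (r - m)).powersetCard m = ∅ := by
      rw [Finset.powersetCard_eq_empty, Finset.card_range]; omega
    rw [h1] at hB
    simp at hB
  set e : EvI r := ⟨⟨m, B⟩, Finset.mem_sigma.2 ⟨Finset.mem_range.2 hm, hB⟩⟩ with he
  refine ⟨fun e' _ => if e' = e then 1 else 0, fun e' => PF.const _, fun v F _ => ?_⟩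
  simp only [ite_mul, one_mul, zero_mul, Finset.sum_ite_eq', Finset.mem_univ, if_true]
  rfl

/-- **interpolation** -/
theorem ip_all (hη : η ^ 4 = -1) (r : ℕ) {X : List ℂ} (hX : Gen η X) : IP η r X := by
  have key : ∀ m : ℕ, ∀ X : List ℂ, Gen η X → X.length < m → IP η r X := by
    intro m
    induction m with
    | zero => intro X _ hX; omega
    | succ m ih =>
      intro X hX hm
      rcases Nat.lt_or_ge X.length m with hlt | hge
      · exact ih X hX hlt
      · have := stepB_IP hη ih (fun B hB => ip_base hB) X.length X [] rfl (by simp; omega)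
          (by simpa using hX) (fun d hd => by simp at hd)
        simpa using this
  exact key (X.length + 1) X hX (Nat.lt_succ_self _)

end SPN
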