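import Pool.Agent.SPN.BDefs

/-!
# Polynomial functions of `n` variables: closure, and equality from a generic box
-/

set_option autoImplicit false

open Polynomial

namespace SPN

open NUGas

variable {η : ℂ} {n m : ℕ}

lemma PF.congr {f g : (Fin n → ℂ) → ℂ} (hf : PF n f) (h : ∀ v, g v = f v) : PF n g := by
  obtain ⟨P, hP⟩ := hf
  exact ⟨P, fun v => by rw [h, hP]⟩

lemma PF.const (c : ℂ) : PF n (fun _ => c) := ⟨MvPolynomial.C c, fun v => by simp⟩

lemma PF.var (i : Fin n) : PF n (fun v => v i) := ⟨MvPolynomial.X i, fun v => by simp⟩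

lemma PF.add {f g : (Fin n → ℂ) → ℂ} (hf : PF n f) (hg : PF n g) : PF n (fun v => f v + g v) := by
  obtain ⟨P, hP⟩ := hf
  obtain ⟨Q, hQ⟩ := hg
  exact ⟨P + Q, fun v => by simp only [map_add, hP, hQ]⟩

lemma PF.mul {f g : (Fin n → ℂ) → ℂ} (hf : PF n f) (hg : PF n g) : PF n (fun v => f v * g v) := by
  obtain ⟨P, hP⟩ := hf
  obtain ⟨Q, hQ⟩ := hg
  exact ⟨P * Q, fun v => by simp only [map_mul, hP, hQ]⟩

lemma PF.neg {f : (Fin n → ℂ) → ℂ} (hf : PF n f) : PF n (fun v => - f v) := by
  obtain ⟨P, hP⟩ := hf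
  exact ⟨-P, fun v => by simp only [map_neg, hP]⟩

lemma PF.sub {f g : (Fin n → ℂ) → ℂ} (hf : PF n f) (hg : PF n g) : PF n (fun v => f v - g v) :=
  (hf.add hg.neg).congr fun v => by ring

lemma PF.pow {f : (Fin n → ℂ) → ℂ} (hf : PF n f) (k : ℕ) : PF n (fun v => f v ^ k) := by
  obtain ⟨P, hP⟩ := hf
  exact ⟨P ^ k, fun v => by simp only [map_pow, hP]⟩

lemma PF.sum {ι : Type*} (s : Finset ι) {f : ι → (Fin n → ℂ) → ℂ} (hf : ∀ i ∈ s, PF n (f i)) :
    PF n (fun v => ∑ i ∈ s, f i v) := by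
  classical
  induction s using Finset.induction_on with
  | empty => simpa using PF.const 0
  | insert a s ha ih =>
    simp only [Finset.sum_insert ha]
    exact (hf a (Finset.mem_insert_self a s)).add
      (ih fun i hi => hf i (Finset.mem_insert_of_mem hi))

lemma PF.prod {ι : Type*} (s : Finset ι) {f : ι → (Fin n → ℂ) → ℂ} (hf : ∀ i ∈ s, PF n (f i)) :
    PF n (fun v => ∏ i ∈ s, f i v) := by
  classical
  induction s using Finset.induction_on with
  | empty => simpa using PF.const 1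
  | insert a s ha ih =>
    simp only [Finset.prod_insert ha]
    exact (hf a (Finset.mem_insert_self a s)).mul
      (ih fun i hi => hf i (Finset.mem_insert_of_mem hi))

lemma PF.comp {f : (Fin m → ℂ) → ℂ} (hf : PF m f) {g : Fin m → (Fin n → ℂ) → ℂ}
    (hg : ∀ i, PF n (g i)) : PF n (fun v => f (fun i => g i v)) := by
  obtain ⟨P, hP⟩ := hf
  choose G hG using hg
  refine ⟨MvPolynomial.bind₁ G P, fun v => ?_⟩
  have h : MvPolynomial.eval v (MvPolynomial.bind₁ G P) =
      MvPolynomial.eval (fun i => MvPolynomial.eval v (G i)) P :=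
    MvPolynomial.eval₂Hom_bind₁ _ _ _ _
  have h2 : (fun i => g i v) = fun i => MvPolynomial.eval v (G i) := funext fun i => hG i v
  show f (fun i => g i v) = _
  rw [hP, h2]
  exact h.symm

lemma PF.eval {g : (Fin n → ℂ) → ℂ} (hg : PF n g) (q : ℂ[X]) :
    PF n (fun v => q.eval (g v)) := by
  refine PF.congr (f := fun v => ∑ i ∈ Finset.range (q.natDegree + 1), q.coeff i * g v ^ i)
    (PF.sum _ fun i _ => (PF.const _).mul (hg.pow i)) fun v => ?_
  exact Polynomial.eval_eq_sum_range _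

/-- the product over a list -/
lemma PF.prodL {g : ℂ → (Fin n → ℂ) → ℂ} (hg : ∀ f : (Fin n → ℂ) → ℂ, PF n f → PF n (fun v => g (f v) v))
    {k : ℕ} {e : Fin k → (Fin n → ℂ) → ℂ} (he : ∀ i, PF n (e i)) :
    PF n (fun v => ((List.ofFn fun i => e i v).map fun x => g x v).prod) := by
  refine PF.congr (f := fun v => ∏ i : Fin k, g (e i v) v) (PF.prod _ fun i _ => hg _ (he i))
    fun v => ?_
  rw [List.map_ofFn, List.prod_ofFn]
  rfl

/-! ### generic lists of nodes -/

lemma gen_inj (hη : η ^ 4 = -1) {a : Fin n → ℕ} (ha : Function.Injective a) :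
    Gen η (List.ofFn fun i => nd (a i)) := by
  refine ⟨fun x hx => ?_, ?_⟩
  · obtain ⟨i, rfl⟩ := (List.mem_ofFn' _ _).1 hx
    exact nd_ne _
  · rw [List.pairwise_ofFn]
    intro i j hij
    exact sep_nd hη fun h => hij.ne (ha h)

/-- equality of polynomial functions from a box of nodes -/
lemma PF.ext_nd {f g : (Fin n → ℂ) → ℂ} (hf : PF n f) (hg : PF n g) (K : ℕ)
    (h : ∀ a : Fin n → ℕ, Function.Injective a → (∀ i, K ≤ a i) →
      f (fun i => nd (a i)) = g (fun i => nd (a i))) : ∀ v, f v = g v := by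
  obtain ⟨P, hP⟩ := hf
  obtain ⟨Q, hQ⟩ := hg
  have hPQ : P = Q := by
    refine MvPolynomial.funext_set
      (fun i : Fin n => {z : ℂ | ∃ k : ℕ, z = nd (K + (n * k + i.1))}) (fun i => ?_) ?_
    · have : Set.Infinite (Set.range fun k : ℕ => nd (K + (n * k + i.1))) := by
        refine Set.infinite_range_of_injective fun k k' hk => ?_
        have h1 := nd_inj hk
        have h2 : n * k = n * k' := by omega
        exact Nat.eq_of_mul_eq_mul_left (lt_of_le_of_lt (Nat.zero_le _) i.2) h2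
      refine this.mono ?_
      rintro _ ⟨k, rfl⟩
      exact ⟨k, rfl⟩
    · intro x hx
      have hx' : ∀ i : Fin n, ∃ k : ℕ, x i = nd (K + (n * k + i.1)) := fun i => hx i (Set.mem_univ i)
      choose k hk using hx'
      set a : Fin n → ℕ := fun i => K + (n * k i + i.1) with ha
      have hxa : x = fun i => nd (a i) := funext fun i => hk i
      rw [← hP, ← hQ, hxa]
      refine h a ?_ fun i => by rw [ha]; simp
      intro i j hij
      simp only [ha] at hij
      have h1 : n * k i + i.1 = n * k j + j.1 := by omega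
      have h2 := congrArg (· % n) h1
      simp only [Nat.mul_add_mod] at h2
      rw [Nat.mod_eq_of_lt i.2, Nat.mod_eq_of_lt j.2] at h2
      exact Fin.ext h2
  intro v
  rw [hP, hQ, hPQ]

/-- a product of polynomial functions which vanishes everywhere -/
lemma PF.mul_ne {f g : (Fin n → ℂ) → ℂ} (hf : PF n f) (hg : PF n g) (h1 : ∃ v, f v ≠ 0)
    (h2 : ∃ v, g v ≠ 0) : ∃ v, f v ≠ 0 ∧ g v ≠ 0 := by
  obtain ⟨P, hP⟩ := hf
  obtain ⟨Q, hQ⟩ := hg
  obtain ⟨v, hv⟩ := h1
  obtain ⟨w, hw⟩ := h2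
  have hP0 : P ≠ 0 := by
    rintro rfl
    exact hv (by rw [hP]; simp)
  have hQ0 : Q ≠ 0 := by
    rintro rfl
    exact hw (by rw [hQ]; simp)
  by_contra hc
  push Not at hc
  refine mul_ne_zero hP0 hQ0 (MvPolynomial.funext fun u => ?_)
  rw [map_mul, map_zero]
  by_cases hu : f u = 0
  · rw [← hP, hu, zero_mul]
  · rw [← hQ, hc u hu, mul_zero]

lemma exists_sep (L : List ℂ) (hη : η ^ 4 = -1) :
    ∃ K : ℕ, ∀ i ≥ K, ∀ x ∈ L, Sep η (nd i) x := by
  induction L with
  | nil => exact ⟨0, by simp⟩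
  | cons x L ih =>
    obtain ⟨K, hK⟩ := ih
    obtain ⟨K', hK'⟩ := exists_nat_gt ‖x‖
    refine ⟨max K K', fun i hi y hy => ?_⟩
    rcases List.mem_cons.1 hy with rfl | hy
    · intro k hk
      have e := congrArg norm hk
      rw [norm_mul, norm_pow, norm_eta hη, one_pow, one_mul, norm_nd] at e
      have h1 : (K' : ℝ) ≤ (i + 1 : ℕ) := by
        have : K' ≤ i + 1 := le_trans (le_max_right K K') (by omega)
        exact_mod_cast this
      linarith
    · exact hK i (le_trans (le_max_left _ _) hi) y hy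

/-- lists with the same elements -/
lemma exists_perm {f g : Fin n → ℂ} (h : (List.ofFn f).Perm (List.ofFn g)) :
    ∃ σ : Equiv.Perm (Fin n), ∀ i, g (σ i) = f i := by
  classical
  have hc : ∀ c : ℂ, Fintype.card {i // f i = c} = Fintype.card {i // g i = c} := by
    have key : ∀ (e : Fin n → ℂ) (c : ℂ), Fintype.card {i // e i = c} = (List.ofFn e).count c := by
      intro e c
      rw [Fintype.card_subtype, List.ofFn_eq_map, ← Multiset.coe_count, ← Multiset.map_coe,
        Multiset.count_map]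
      have h1 : ((List.finRange n : List (Fin n)) : Multiset (Fin n)) = Finset.univ.val := by
        rw [Fin.univ_def]
      rw [h1]
      simp only [eq_comm (a := c)]
      rfl
    intro c
    rw [key, key, h.count_eq]
  refine ⟨Equiv.ofFiberEquiv (fun c => Fintype.equivOfCardEq (hc c)), fun i => ?_⟩
  exact Equiv.ofFiberEquiv_map _ i

end SPN
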