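import Pool.Agent.NUTG.Cur

/-!
# The current of one empty line: near = far

`cur_far` : the current `NUTG.curc` of the empty line `r` (sum over the near poles `r`, `A`, `B`) is the sum
over the far poles: `θ ^ 2 r`, `θ ^ 3 c` for the kinds `D`, `θ ^ 2 c` for the kinds `E`.
-/

set_option autoImplicit false

open Polynomial

noncomputable section

namespace SPN

open NUTP NUTG

/-- exponent of the position of the pole -/
def ap : Kd → ℕ
  | .A => 0
  | .B => 15
  | .D => 3
  | .E => 2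
  | _ => 0

/-- pole -/
def pl : Kd → Bool
  | .A => true
  | .B => true
  | .D => true
  | .E => true
  | _ => false

/-- numerator of the factor -/
def nm (θ : ℂ) : Kd → ℂ → ℂ → ℂ
  | .A, _, _ => 1
  | .B, c, w => sn θ 2 (w / c)
  | .C, c, w => sn θ 3 (w / c)
  | .D, c, w => -cs (w / c)
  | .E, _, _ => -1
  | .R, _, _ => 1

/-- degree of the numerator -/
def dg : Kd → ℕ
  | .B => 1
  | .C => 1
  | .D => 1
  | _ => 0

variable {θ : ℂ}

lemma th16' (hθ : θ ^ 8 = -1) : θ ^ 16 = 1 := by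
  rw [show (16 : ℕ) = 8 * 2 from rfl, pow_mul, hθ]; norm_num

lemma nm_lp (θ : ℂ) (κ : Kd) (c : ℂ) : LP (dg κ) (nm θ κ c) := by
  cases κ
  case A => exact LP.const 1
  case B => exact LP.sn θ 2 c
  case C => exact LP.sn θ 3 c
  case D => exact (LP.cs c).neg
  case E => exact LP.const (-1)
  case R => exact LP.const 1

lemma div_th (hθ : θ ^ 8 = -1) (c : ℂ) : c / θ = θ ^ 15 * c := by
  have h0 := th_ne hθ
  rw [div_eq_iff h0]
  linear_combination (-c) * th16' hθ

lemma sn_flip (θ : ℂ) (k : ℕ) {c w : ℂ} (h0 : θ ≠ 0) (hc : c ≠ 0) (hw : w ≠ 0) :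
    sn θ k (c / w) = -sn θ 0 (w / (θ ^ k * c)) := by
  unfold sn
  have e : w / (θ ^ k * c) = (θ ^ k * (c / w))⁻¹ := by
    have := pow_ne_zero k h0
    field_simp
  rw [e, pow_zero, one_mul, inv_inv]
  ring

/-- the factor with its pole -/
lemma ff_pole (hθ : θ ^ 8 = -1) {κ : Kd} (hR : κ ≠ .R) {c w : ℂ} (hc : c ≠ 0) (hw : w ≠ 0) :
    NUTG.ff θ κ c w = if pl κ = true then nm θ κ c w / sn θ 0 (w / (θ ^ ap κ * c)) else nm θ κ c w := by
  have h0 := th_ne hθ
  cases κ
  case A => simp [NUTG.ff, pl, nm, ap]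
  case B =>
    simp only [NUTG.ff, pl, nm, ap, if_true]
    congr 1
    rw [← div_th hθ]
    unfold sn
    have : w / (c / θ) = θ ^ 1 * (w / c) := by field_simp
    rw [this, pow_zero, one_mul]
  case C => simp [NUTG.ff, pl, nm]
  case D =>
    simp only [NUTG.ff, pl, nm, ap, if_true]
    rw [sn_flip θ 3 h0 hc hw, div_neg, neg_div]
  case E =>
    simp only [NUTG.ff, pl, nm, ap, if_true]
    rw [sn_flip θ 2 h0 hc hw, div_neg, neg_div]
  case R => exact absurd rfl hR

lemma sep_pow (hθ : θ ^ 8 = -1) {a b : ℂ} (h : Sp θ a b) (j k : ℕ) :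
    (θ ^ j * a) ^ 2 ≠ (θ ^ k * b) ^ 2 := by
  intro e
  apply h (j + 15 * k)
  have h16 := th16' hθ
  have e1 : θ ^ (16 * k) = 1 := by rw [pow_mul, h16, one_pow]
  have e2 : θ ^ (32 * k) = 1 := by rw [show 32 * k = 16 * (2 * k) by ring, pow_mul, h16, one_pow]
  calc (θ ^ 2) ^ (j + 15 * k) * a ^ 2 = θ ^ (30 * k) * (θ ^ j * a) ^ 2 := by ring
    _ = θ ^ (30 * k) * (θ ^ k * b) ^ 2 := by rw [e]
    _ = θ ^ (32 * k) * b ^ 2 := by ring
    _ = b ^ 2 := by rw [e2, one_mul]

/-- far pole -/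
def fk : Kd → Bool
  | .D => true
  | .E => true
  | _ => false

/-- minus the residue of the factor at its far pole -/
def rf (θ : ℂ) : Kd → ℂ
  | .D => cs (θ ^ 3)
  | .E => 1
  | _ => 0

/-- the factor of the empty line -/
def kp (θ r w : ℂ) : ℂ := sn θ 2 1 / (sn θ 0 (w / r) * sn θ 2 (r / w))

lemma count_eq (os : List (Kd × ℂ)) (hR : ∀ o ∈ os, o.1 ≠ .R)
    (hch : (os.map fun o => NUTG.ch o.1).sum = 0) :
    (os.filter (fun o => decide (pl o.1 = true))).length = (os.map fun o => dg o.1).sum := by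
  have key : ((os.filter (fun o => decide (pl o.1 = true))).length : ℤ) =
      ((os.map fun o => dg o.1).sum : ℕ) + (os.map fun o => NUTG.ch o.1).sum := by
    clear hch
    induction os with
    | nil => simp
    | cons o os ih =>
      have ih' := ih fun o' ho' => hR o' (List.mem_cons_of_mem _ ho')
      have hR0 := hR o List.mem_cons_self
      obtain ⟨κ, c⟩ := o
      rw [List.filter_cons]
      simp only [List.map_cons, List.sum_cons]
      cases κ <;> simp [pl, dg, NUTG.ch] at ih' hR0 ⊢ <;> omega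
  rw [hch, add_zero] at key
  exact_mod_cast key

/-- **near = far** -/
theorem cur_far (hθ : θ ^ 8 = -1) {os : List (Kd × ℂ)} (h0 : ∀ o ∈ os, o.2 ≠ 0)
    (hR : ∀ o ∈ os, o.1 ≠ .R) (hs : os.Pairwise fun o o' => Sp θ o.2 o'.2) {r : ℂ} (hr : r ≠ 0)
    (hrs : ∀ o ∈ os, Sp θ r o.2) (hch : (os.map fun o => NUTG.ch o.1).sum = 0) :
    curc θ (me θ) os r = (os.map fun o => vf θ o.1 o.2 r * NUTG.ff θ o.1 o.2 (θ ^ 2 * r)).prod +
      ((foc os).map fun p => rf θ p.1.1 * kp θ r (θ ^ ap p.1.1 * p.1.2) *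
        (vf θ p.1.1 p.1.2 r * (p.2.map fun o => vf θ o.1 o.2 r *
          NUTG.ff θ o.1 o.2 (θ ^ ap p.1.1 * p.1.2)).prod)).sum := by
  have t0 := th_ne hθ
  have s21 : sn θ 2 1 ≠ 0 := by
    intro h
    have h1 : θ ^ 4 ≠ 1 := by
      intro h2
      have : θ ^ 8 = 1 := by rw [show (8 : ℕ) = 4 * 2 from rfl, pow_mul, h2, one_pow]
      rw [hθ] at this
      norm_num at this
    unfold sn at h
    rw [div_eq_zero_iff] at h
    rcases h with h | h
    · rw [mul_one, sub_eq_zero] at h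
      apply h1
      have h2 : θ ^ 2 * θ ^ 2 = 1 := by
        nth_rewrite 2 [h]
        exact mul_inv_cancel₀ (pow_ne_zero _ t0)
      rw [← h2]; ring
    · exact mul_ne_zero two_ne_zero (pow_ne_zero _ t0) h
  have hrr : Sp θ r r → False := fun h => h 0 (by simp)
  set L : List (Kd × ℂ) := (.A, r) :: (.E, r) :: os with hL
  have hL0 : ∀ o ∈ L, o.2 ≠ 0 := by
    intro o ho
    rcases List.mem_cons.1 ho with rfl | ho
    · exact hr
    rcases List.mem_cons.1 ho with rfl | ho
    · exact hr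
    · exact h0 o ho
  have hLR : ∀ o ∈ L, o.1 ≠ .R := by
    intro o ho
    rcases List.mem_cons.1 ho with rfl | ho
    · simp
    rcases List.mem_cons.1 ho with rfl | ho
    · simp
    · exact hR o ho
  have h := res_foc (θ := θ) t0 L (fun o => pl o.1 = true) (fun o => θ ^ ap o.1 * o.2)
    (fun o => nm θ o.1 o.2) (fun o => dg o.1) (fun o _ => nm_lp θ o.1 o.2)
    (fun o ho _ => mul_ne_zero (pow_ne_zero _ t0) (hL0 o ho)) (by
      rw [hL, List.pairwise_cons, List.pairwise_cons]
      refine ⟨fun o ho _ _ => ?_, fun o ho _ _ => ?_, hs.imp fun {o o'} hoo _ _ => sep_pow hθ hoo _ _⟩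
      · rcases List.mem_cons.1 ho with rfl | ho
        · simp only [ap, pow_zero, one_mul]
          intro e
          have e2 : (θ ^ 4 - 1) * r ^ 2 = 0 := by linear_combination -e
          rcases mul_eq_zero.1 e2 with h | h
          · have h2 : θ ^ 4 = 1 := by linear_combination h
            have : θ ^ 8 = 1 := by rw [show (8 : ℕ) = 4 * 2 from rfl, pow_mul, h2, one_pow]
            rw [hθ] at this
            norm_num at this
          · exact hr (pow_eq_zero_iff (two_ne_zero) |>.1 h)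
        · exact sep_pow hθ (hrs o ho) _ _
      · exact sep_pow hθ (hrs o ho) _ _) (k := 0) (by
      have e1 : L.filter (fun o => decide (pl o.1 = true)) =
          (.A, r) :: (.E, r) :: os.filter (fun o => decide (pl o.1 = true)) := rfl
      have e2 : (L.map fun o => dg o.1).sum = (os.map fun o => dg o.1).sum := by
        rw [hL, List.map_cons, List.map_cons, List.sum_cons, List.sum_cons]
        show 0 + (0 + _) = _
        rw [zero_add, zero_add]
      rw [e1, e2, List.length_cons, List.length_cons, count_eq os hR hch])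
  -- the factors are `ff`
  have hF : ∀ p ∈ foc L, (if pl p.1.1 = true then nm θ p.1.1 p.1.2 (θ ^ ap p.1.1 * p.1.2) *
      (p.2.map fun j => (if pl j.1 = true then nm θ j.1 j.2 (θ ^ ap p.1.1 * p.1.2) /
        sn θ 0 (θ ^ ap p.1.1 * p.1.2 / (θ ^ ap j.1 * j.2)) else
          nm θ j.1 j.2 (θ ^ ap p.1.1 * p.1.2))).prod else 0) =
      (if pl p.1.1 = true then nm θ p.1.1 p.1.2 (θ ^ ap p.1.1 * p.1.2) else 0) *
        (p.2.map fun j => NUTG.ff θ j.1 j.2 (θ ^ ap p.1.1 * p.1.2)).prod := by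
    intro p hp
    split_ifs with hpl
    · congr 2
      refine List.map_congr_left fun j hj => ?_
      rw [ff_pole hθ (hLR j (foc_mem_rest hp hj)) (hL0 j (foc_mem_rest hp hj))
        (mul_ne_zero (pow_ne_zero _ t0) (hL0 _ (foc_mem hp)))]
    · rw [zero_mul]
  rw [List.map_congr_left hF, hL] at h
  simp only [foc, List.map_cons, List.sum_cons, List.map_map, Function.comp_def, List.prod_cons] at h
  -- evaluation of the factors of `r`
  have b1 : (if pl Kd.A = true then nm θ .A r (θ ^ ap .A * r) else 0) = 1 := by simp [pl, nm]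
  have b2 : (if pl Kd.E = true then nm θ .E r (θ ^ ap .E * r) else 0) = -1 := by simp [pl, nm]
  have b3 : θ ^ ap .A * r = r := by simp [ap]
  have b4 : θ ^ ap .E * r = θ ^ 2 * r := rfl
  have a1 : NUTG.ff θ .E r r = 1 / sn θ 2 1 := by
    show 1 / sn θ 2 (r / r) = _
    rw [div_self hr]
  have a2 : NUTG.ff θ .A r (θ ^ 2 * r) = 1 / sn θ 2 1 := by
    show 1 / sn θ 0 (θ ^ 2 * r / r) = _
    rw [mul_div_assoc, div_self hr, mul_one]
    unfold sn
    rw [pow_zero, one_mul, mul_one]
  have a3 : ∀ w, sn θ 2 1 * (NUTG.ff θ .A r w * NUTG.ff θ .E r w) = kp θ r w := by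
    intro w
    show sn θ 2 1 * (1 / sn θ 0 (w / r) * (1 / sn θ 2 (r / w))) = _
    unfold kp
    rw [one_div_mul_one_div, mul_one_div]
  rw [b1, b2, b3, b4, a1, a2] at h
  -- the sum over `foc os`, times `sn θ 2 1 * ∏ vf`
  have c1 : (os.map fun o => nf θ o.1 o.2 r / df θ o.1 o.2 r).prod =
      (os.map fun o => vf θ o.1 o.2 r).prod * (os.map fun o => NUTG.ff θ o.1 o.2 r).prod := by
    rw [← List.prod_map_mul]
    congr 1
    refine List.map_congr_left fun o ho => ?_
    have e := dvf_eq hθ hr (h0 o ho) (hrs o ho) o.1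
    have hd : df θ o.1 o.2 r ≠ 0 := by
      have hk := fun k => (hrs o ho).sn_ne hθ hr (h0 o ho) k
      rcases o with ⟨κ, c⟩
      cases κ <;> simp only [df] at hk ⊢
      · exact hk 0
      · exact hk 1
      · exact one_ne_zero
      · exact one_ne_zero
      · exact one_ne_zero
      · exact hk 0
    rw [← e]
    field_simp
  have c2 : (os.map fun o => vf θ o.1 o.2 r * NUTG.ff θ o.1 o.2 (θ ^ 2 * r)).prod =
      (os.map fun o => vf θ o.1 o.2 r).prod * (os.map fun o => NUTG.ff θ o.1 o.2 (θ ^ 2 * r)).prod :=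
    List.prod_map_mul
  have c3 : ∀ p ∈ foc os, sn θ 2 1 * (os.map fun o => vf θ o.1 o.2 r).prod *
      ((if pl p.1.1 = true then nm θ p.1.1 p.1.2 (θ ^ ap p.1.1 * p.1.2) else 0) *
        (NUTG.ff θ .A r (θ ^ ap p.1.1 * p.1.2) * (NUTG.ff θ .E r (θ ^ ap p.1.1 * p.1.2) *
          (p.2.map fun j => NUTG.ff θ j.1 j.2 (θ ^ ap p.1.1 * p.1.2)).prod))) =
      -(me θ p.1.1 p.1.2 r / df θ p.1.1 p.1.2 r *
        (p.2.map fun o => vf θ o.1 o.2 r * NUTG.ff θ o.1 o.2 (wm θ p.1.1 p.1.2)).prod) -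
      rf θ p.1.1 * kp θ r (θ ^ ap p.1.1 * p.1.2) *
        (vf θ p.1.1 p.1.2 r * (p.2.map fun o => vf θ o.1 o.2 r *
          NUTG.ff θ o.1 o.2 (θ ^ ap p.1.1 * p.1.2)).prod) := by
    intro p hp
    have hpos := foc_mem hp
    have hv : (os.map fun o => vf θ o.1 o.2 r).prod =
        vf θ p.1.1 p.1.2 r * (p.2.map fun o => vf θ o.1 o.2 r).prod := by
      rw [((foc_perm_cons hp).map _).prod_eq]
      rfl
    have hpr : ∀ w, (p.2.map fun o => vf θ o.1 o.2 r * NUTG.ff θ o.1 o.2 w).prod =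
        (p.2.map fun o => vf θ o.1 o.2 r).prod * (p.2.map fun o => NUTG.ff θ o.1 o.2 w).prod :=
      fun w => List.prod_map_mul
    rw [hv, hpr, hpr]
    have key : sn θ 2 1 * vf θ p.1.1 p.1.2 r *
        (if pl p.1.1 = true then nm θ p.1.1 p.1.2 (θ ^ ap p.1.1 * p.1.2) else 0) *
        (NUTG.ff θ .A r (θ ^ ap p.1.1 * p.1.2) * NUTG.ff θ .E r (θ ^ ap p.1.1 * p.1.2)) =
        -(me θ p.1.1 p.1.2 r / df θ p.1.1 p.1.2 r) -
          rf θ p.1.1 * kp θ r (θ ^ ap p.1.1 * p.1.2) * vf θ p.1.1 p.1.2 r := by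
      have hc0 := h0 _ hpos
      have hk := fun k => (hrs _ hpos).sn_ne hθ hr hc0 k
      rcases p with ⟨⟨κ, c⟩, l⟩
      simp only at hc0 hk ⊢
      have f0 : sn θ 0 (c / r) = -sn θ 0 (r / c) := by
        rw [sn_flip θ 0 t0 hc0 hr, pow_zero, one_mul]
      cases κ
      · -- A
        have e1 : (if pl Kd.A = true then nm θ .A c (θ ^ ap .A * c) else 0) = 1 := by
          simp [pl, nm]
        have e2 : θ ^ ap .A * c = c := by simp [ap]
        rw [e1, e2]
        show sn θ 2 1 * sk θ (r / c) * 1 * (1 / sn θ 0 (c / r) * (1 / sn θ 2 (r / c))) =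
          -(sn θ 2 1 * sn θ 3 (r / c) / sn θ 0 (r / c)) - 0 * _ * _
        rw [f0]
        unfold sk
        have h1 := hk 0
        have h2 := hk 2
        field_simp
        ring
      · -- B
        have e2 : θ ^ ap .B * c = θ ^ 15 * c := rfl
        have e3 : sn θ 2 (θ ^ 15 * c / c) = sn θ 1 1 := by
          rw [mul_div_assoc, div_self hc0, mul_one]
          unfold sn
          have : θ ^ 2 * θ ^ 15 = θ ^ 1 * 1 := by linear_combination θ * th16' hθ
          rw [this]
        have e1 : (if pl Kd.B = true then nm θ .B c (θ ^ ap .B * c) else 0) = sn θ 1 1 := by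
          rw [e2]
          simp only [pl, if_true, nm]
          exact e3
        have e4 : sn θ 0 (θ ^ 15 * c / r) = -sn θ 1 (r / c) := by
          rw [← div_th hθ]
          have : c / θ / r = (θ ^ 1 * (r / c))⁻¹ := by field_simp
          unfold sn
          rw [this, pow_zero, one_mul, inv_inv]
          ring
        have e5 : sn θ 2 (r / (θ ^ 15 * c)) = sn θ 3 (r / c) := by
          rw [← div_th hθ]
          unfold sn
          have : θ ^ 2 * (r / (c / θ)) = θ ^ 3 * (r / c) := by field_simp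
          rw [this]
        rw [e1, e2]
        show sn θ 2 1 * sn θ 3 (r / c) * sn θ 1 1 * (1 / sn θ 0 (θ ^ 15 * c / r) *
          (1 / sn θ 2 (r / (θ ^ 15 * c)))) =
          -(sn θ 2 1 * sn θ 1 1 / sn θ 1 (r / c)) - 0 * _ * _
        rw [e4, e5]
        have h1 := hk 1
        have h3 := hk 3
        field_simp
        ring
      · -- C
        have e1 : (if pl Kd.C = true then nm θ .C c (θ ^ ap .C * c) else 0) = 0 := by
          simp [pl]
        rw [e1]
        show _ * 0 * _ = -(0 / _) - 0 * _ * _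
        ring
      · -- D
        have e1 : (if pl Kd.D = true then nm θ .D c (θ ^ ap .D * c) else 0) = -cs (θ ^ 3) := by
          simp only [pl, if_true, nm, ap]
          rw [mul_div_assoc, div_self hc0, mul_one]
        rw [e1, ← a3]
        show _ = -(0 / _) - cs (θ ^ 3) * _ * _
        ring
      · -- E
        have e1 : (if pl Kd.E = true then nm θ .E c (θ ^ ap .E * c) else 0) = -1 := by
          simp only [pl, if_true, nm]
        rw [e1, ← a3]
        show _ = -(0 / _) - 1 * _ * _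
        ring
      · exact absurd rfl (hR _ hpos)
    have hw : me θ p.1.1 p.1.2 r / df θ p.1.1 p.1.2 r ≠ 0 →
        wm θ p.1.1 p.1.2 = θ ^ ap p.1.1 * p.1.2 := by
      intro hne
      rcases p with ⟨⟨κ, c⟩, l⟩
      cases κ <;> simp only [me, zero_div, ne_eq, not_true_eq_false] at hne
      · simp [wm, ap]
      · simp only [wm, ap]; exact div_th hθ c
    set V := (p.2.map fun o => vf θ o.1 o.2 r).prod with hV
    set W := (p.2.map fun o => NUTG.ff θ o.1 o.2 (θ ^ ap p.1.1 * p.1.2)).prod with hW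
    have h5 : me θ p.1.1 p.1.2 r / df θ p.1.1 p.1.2 r *
        (p.2.map fun o => NUTG.ff θ o.1 o.2 (wm θ p.1.1 p.1.2)).prod =
        me θ p.1.1 p.1.2 r / df θ p.1.1 p.1.2 r * W := by
      by_cases hm : me θ p.1.1 p.1.2 r / df θ p.1.1 p.1.2 r = 0
      · rw [hm, zero_mul, zero_mul]
      · rw [hw hm]
    linear_combination V * W * key + V * h5
  unfold curc
  have h6 : sn θ 2 1 * (os.map fun o => vf θ o.1 o.2 r).prod *
      ((foc os).map fun p =>
        (if pl p.1.1 = true then nm θ p.1.1 p.1.2 (θ ^ ap p.1.1 * p.1.2) else 0) *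
        (NUTG.ff θ .A r (θ ^ ap p.1.1 * p.1.2) * (NUTG.ff θ .E r (θ ^ ap p.1.1 * p.1.2) *
          (p.2.map fun j => NUTG.ff θ j.1 j.2 (θ ^ ap p.1.1 * p.1.2)).prod))).sum =
      -((foc os).map fun p => me θ p.1.1 p.1.2 r / df θ p.1.1 p.1.2 r *
        (p.2.map fun o => vf θ o.1 o.2 r * NUTG.ff θ o.1 o.2 (wm θ p.1.1 p.1.2)).prod).sum -
      ((foc os).map fun p => rf θ p.1.1 * kp θ r (θ ^ ap p.1.1 * p.1.2) *
        (vf θ p.1.1 p.1.2 r * (p.2.map fun o => vf θ o.1 o.2 r *
          NUTG.ff θ o.1 o.2 (θ ^ ap p.1.1 * p.1.2)).prod)).sum := by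
    rw [← List.sum_map_mul_left, List.map_congr_left c3]
    generalize foc os = l
    induction l with
    | nil => simp
    | cons p l ih =>
      simp only [List.map_cons, List.sum_cons]
      rw [ih]
      ring
  rw [c1, c2]
  set S1 := ((foc os).map fun p =>
        (if pl p.1.1 = true then nm θ p.1.1 p.1.2 (θ ^ ap p.1.1 * p.1.2) else 0) *
        (NUTG.ff θ .A r (θ ^ ap p.1.1 * p.1.2) * (NUTG.ff θ .E r (θ ^ ap p.1.1 * p.1.2) *
          (p.2.map fun j => NUTG.ff θ j.1 j.2 (θ ^ ap p.1.1 * p.1.2)).prod))).sum with hS1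
  have e7 : sn θ 2 1 * (1 / sn θ 2 1) = 1 := by field_simp
  linear_combination (sn θ 2 1 * (os.map fun o => vf θ o.1 o.2 r).prod) * h - h6 -
    ((os.map fun o => vf θ o.1 o.2 r).prod * (os.map fun o => NUTG.ff θ o.1 o.2 r).prod -
      (os.map fun o => vf θ o.1 o.2 r).prod *
        (os.map fun o => NUTG.ff θ o.1 o.2 (θ ^ 2 * r)).prod) * e7

end SPN
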