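import Pool.Agent.SPN.Half

/-!
# The charge sum in an external field has the rules
-/

set_option autoImplicit false

open Polynomial

namespace SPN

open NUGas

variable {ζ η σ : ℂ} {m : ℤ} {φ : SignType → ℂ → ℂ} {Y : List ℂ}

/-- the charge sum in the external field `φ`, `2 tot e = m` -/
noncomputable def S (η σ : ℂ) (m : ℤ) (φ : SignType → ℂ → ℂ) (X : List ℂ) : ℂ :=
  sch X (fun e => if 2 * tot e = m then own η σ e * (e.map (fun c => φ c.2 c.1)).prod else 0)

/-- everything which depends on the line `(p, a)` -/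
noncomputable def oneS (η σ : ℂ) (φ : SignType → ℂ → ℂ) (p : ℂ) (a : SignType)
    (e : List (ℂ × SignType)) : ℂ :=
  wt σ a p * (e.map (fun d => F η a d.2 p d.1)).prod * φ a p

/-- everything which does not -/
noncomputable def restS (η σ : ℂ) (m : ℤ) (φ : SignType → ℂ → ℂ) (k : ℤ)
    (e : List (ℂ × SignType)) : ℂ :=
  if 2 * (k + tot e) = m then own η σ e * (e.map (fun c => φ c.2 c.1)).prod else 0

lemma restS_cons (k : ℤ) (p : ℂ) (a : SignType) (e : List (ℂ × SignType)) :
    restS η σ m φ k ((p, a) :: e) = oneS η σ φ p a e * restS η σ m φ (k + (a : ℤ)) e := by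
  unfold restS oneS
  rw [tot_cons]
  simp only [own, List.map_cons, List.prod_cons, ← add_assoc]
  split_ifs
  · ring
  · ring

lemma S_eq (X : List ℂ) : S η σ m φ X = sch X (fun e => restS η σ m φ 0 e) := by
  simp only [S, restS, zero_add]

lemma S_perm (hη : η ^ 4 = -1) {X X' : List ℂ} (h : X.Perm X') : S η σ m φ X = S η σ m φ X' := by
  unfold S
  refine sch_perm h fun e e' he => ?_
  rw [tot_perm he, own_perm hη he, (he.map _).prod_eq]

lemma S_cons (p : ℂ) (X : List ℂ) :
    S η σ m φ (p :: X) =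
      ∑ a : SignType, sch X (fun e => oneS η σ φ p a e * restS η σ m φ (a : ℤ) e) := by
  rw [S_eq]
  simp only [sch, restS_cons, zero_add]

lemma oneS_cons (p : ℂ) (a : SignType) (c : ℂ × SignType) (e : List (ℂ × SignType)) :
    oneS η σ φ p a (c :: e) = F η a c.2 p c.1 * oneS η σ φ p a e := by
  simp only [oneS, List.map_cons, List.prod_cons]; ring

lemma S_cons2 (p q : ℂ) (X : List ℂ) :
    S η σ m φ (p :: q :: X) =
      ∑ a : SignType, ∑ b : SignType, F η a b p q * sch X (fun e =>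
        oneS η σ φ p a e * oneS η σ φ q b e * restS η σ m φ ((a : ℤ) + (b : ℤ)) e) := by
  rw [S_cons]
  refine Finset.sum_congr rfl fun a _ => ?_
  simp only [sch]
  refine Finset.sum_congr rfl fun b _ => ?_
  rw [← sch_mul_left]
  refine sch_congr fun e _ => ?_
  rw [oneS_cons, restS_cons]
  ring

/-! ### crossing -/

lemma zpow_split (hη : η = ζ ^ 2) {k n : ℤ} (h : 2 * k = n) : ζ ^ n = η ^ k := by
  rw [← h, zpow_mul, hη]; norm_cast

theorem S_cross (hη : η = ζ ^ 2) (hζ : ζ ^ 8 = -1) (hσ : σ ^ 2 = 2 - η + η ^ 3)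
    (hE : Ext ζ η Y m φ) (q : ℂ) (X : List ℂ) (hX : Gen η (q :: X)) :
    S η σ m φ (η ^ 3 * q :: q :: X) = (2 - η + η ^ 3) * η ^ 3 * q ^ 2 *
      ((X.map (fun x => ((x + η * q) * (x + η ^ 2 * q)) ^ 2)).prod *
       (Y.map (fun y => (y + η * q) * (y + η ^ 2 * q))).prod) * S η σ m φ X := by
  have h4 := eta4_of hη hζ
  have hq : q ≠ 0 := hX.1 q List.mem_cons_self
  have hsep : ∀ y ∈ X, Sep η q y := (List.pairwise_cons.1 hX.2).1
  have h0 := eta_ne h4
  have hz0 : ζ ≠ 0 := by rintro rfl; norm_num at hζ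
  have h8 := eta8 h4
  rw [S_cons2, sum3, sum3, sum3, sum3]
  rw [F_cross_nodes h4 (q := q) .zero .zero (by decide), F_cross_nodes h4 (q := q) .zero .neg (by decide),
    F_cross_nodes h4 (q := q) .zero .pos (by decide), F_cross_nodes h4 (q := q) .neg .zero (by decide),
    F_cross_nodes h4 (q := q) .neg .neg (by decide), F_cross_one h4 hq,
    F_cross_nodes h4 (q := q) .pos .zero (by decide), F_cross_nodes h4 (q := q) .pos .neg (by decide),
    F_cross_nodes h4 (q := q) .pos .pos (by decide)]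
  simp only [zero_mul, zero_add, add_zero, one_mul]
  rw [S_eq, ← hσ]
  change _ = (σ ^ 2 * η ^ 3 * q ^ 2 * ((X.map (KK η q)).prod *
    (Y.map (fun y => (y + η * q) * (y + η ^ 2 * q))).prod)) * _
  rw [← sch_mul_left]
  refine sch_congr fun e he => ?_
  have hk : ((SignType.neg : SignType) : ℤ) + ((SignType.pos : SignType) : ℤ) = 0 := by decide
  rw [hk]
  unfold restS
  split_ifs with h
  · have hF : (e.map (fun d => F η .neg d.2 (η ^ 3 * q) d.1)).prod *
        (e.map (fun d => F η .pos d.2 q d.1)).prod = (η ^ 5) ^ tot e * (X.map (KK η q)).prod := by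
      rw [← prod_zpow_tot (pow_ne_zero _ h0) e, ← he, List.map_map, ← List.prod_map_mul,
        ← List.prod_map_mul]
      congr 1
      refine List.map_congr_left fun d hd => ?_
      exact F_cross_line h4 (hsep _ (by rw [← he]; exact List.mem_map_of_mem hd)) d.2
    have hp : (η ^ 5) ^ tot e * ζ ^ (3 * m) = 1 := by
      rw [zpow_split hη (k := 3 * tot e) (n := 3 * m) (by rw [← h]; ring),
        zpow_mul η 3 (tot e), ← mul_zpow]
      have : η ^ 5 * η ^ (3 : ℤ) = 1 := by rw [← h8]; norm_cast; ring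
      rw [this, one_zpow]
    unfold oneS
    calc _ = (wt σ .neg (η ^ 3 * q) * wt σ .pos q) *
          ((e.map (fun d => F η .neg d.2 (η ^ 3 * q) d.1)).prod *
            (e.map (fun d => F η .pos d.2 q d.1)).prod) *
          (φ .neg (η ^ 3 * q) * φ .pos q) * (own η σ e * (e.map (fun c => φ c.2 c.1)).prod) := by ring
      _ = _ := by
        rw [hF, hE.cr]
        change (σ * (η ^ 3 * q) * (σ * q)) * _ * _ * _ = _
        linear_combination (σ ^ 2 * η ^ 3 * q ^ 2 * (X.map (KK η q)).prod *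
          (Y.map (fun y => (y + η * q) * (y + η ^ 2 * q))).prod *
          (own η σ e * (e.map (fun c => φ c.2 c.1)).prod)) * hp
  · simp

/-! ### fusion -/

/-- one fusion channel -/
lemma channelS {a b c : SignType} {u v : ℂ} {w p q r T k K : ℂ} {KF : ℂ → ℂ} {X : List ℂ}
    (hu : u ≠ 0)
    (hF : ∀ x ∈ X, ∀ d, F η a d p x * F η b d q x = u ^ (d : ℤ) * (KF x * F η c d r x))
    (hG : φ a p * φ b q = v * (K * φ c r))
    (hk : (a : ℤ) + (b : ℤ) = (c : ℤ))
    (hw : ∀ n : ℤ, 2 * ((c : ℤ) + n) = m → u ^ n * v = w)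
    (hS : T * w * (wt σ a p * wt σ b q) = k * wt σ c r) :
    T * sch X (fun e => oneS η σ φ p a e * oneS η σ φ q b e *
        restS η σ m φ ((a : ℤ) + (b : ℤ)) e) =
      k * ((X.map KF).prod * K) *
        sch X (fun e => oneS η σ φ r c e * restS η σ m φ (c : ℤ) e) := by
  rw [← sch_mul_left, ← sch_mul_left]
  refine sch_congr fun e he => ?_
  rw [hk]
  have h1 := Fuse.prod_line (P := fun d x => F η a d p x) (Q := fun d x => F η b d q x)
    (R := fun d x => F η c d r x) hu KF hF he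
  by_cases hn : 2 * ((c : ℤ) + tot e) = m
  · have h3 := hw _ hn
    unfold oneS
    calc _ = T * (wt σ a p * wt σ b q) *
          ((e.map (fun d => F η a d.2 p d.1)).prod * (e.map (fun d => F η b d.2 q d.1)).prod) *
          (φ a p * φ b q) * restS η σ m φ (c : ℤ) e := by ring
      _ = (T * (u ^ tot e * v) * (wt σ a p * wt σ b q)) *
          ((X.map KF).prod * K) * ((e.map (fun d => F η c d.2 r d.1)).prod * φ c r) *
          restS η σ m φ (c : ℤ) e := by
          rw [h1, hG]; ring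
      _ = _ := by rw [h3, hS]; ring
  · have : restS η σ m φ (c : ℤ) e = 0 := by unfold restS; rw [if_neg hn]
    rw [this]; ring

open Fuse in
theorem S_fuse (hη : η = ζ ^ 2) (hζ : ζ ^ 8 = -1) (hσ : σ ^ 2 = 2 - η + η ^ 3)
    (hE : Ext ζ η Y m φ) (t : ℂ) (X : List ℂ) (hX : Gen η (t :: X)) :
    S η σ m φ (η ^ 2 * t :: t :: X) = 2 * (η * t) ^ 2 *
      ((X.map (fun x => (x + η * t) ^ 2)).prod * (Y.map (fun y => y + η * t)).prod) *
      S η σ m φ (η * t :: X) := by
  have h4 := eta4_of hη hζ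
  have h0 := eta_ne h4
  have h8 := eta8 h4
  have hi := inv_eta h4
  have ht : t ≠ 0 := hX.1 t (by simp)
  have hsep : ∀ x ∈ X, Sep η t x := (List.pairwise_cons.1 hX.2).1
  have hl : ∀ k, lin η k (η ^ 2 * t) t = (η ^ (k + 2) - 1) * t := fun k => by unfold lin; ring
  have e1 : η - 1 ≠ 0 := by
    intro h
    have : η = 1 := by linear_combination h
    rw [this] at h4; norm_num at h4
  have e2 : η ^ 2 - 1 ≠ 0 := by
    intro h
    have : η ^ 4 = 1 := by linear_combination (η ^ 2 + 1) * h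
    rw [this] at h4; norm_num at h4
  have e3 : η ^ 3 - 1 ≠ 0 := by
    intro h
    have h3 : η ^ 3 = 1 := by linear_combination h
    have : η = -1 := by linear_combination h4 - η * h3
    rw [this] at h4; norm_num at h4
  have z6 : lin η 6 (η ^ 2 * t) t = 0 := by rw [hl, show 6 + 2 = 8 from rfl, h8]; ring
  have f00 : F η .zero .zero (η ^ 2 * t) t = 0 := by simp only [F, z6]; ring
  have f0n : F η .zero .neg (η ^ 2 * t) t = 0 := by simp only [F, z6]; ring
  have fnn : F η .neg .neg (η ^ 2 * t) t = 0 := by simp only [F, z6]; ring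
  have fp0 : F η .pos .zero (η ^ 2 * t) t = 0 := by simp only [F, z6]; ring
  have fpn : F η .pos .neg (η ^ 2 * t) t = 0 := by simp only [F, z6]; ring
  have fpp : F η .pos .pos (η ^ 2 * t) t = 0 := by simp only [F, z6]; ring
  have c1 := channelS (η := η) (σ := σ) (m := m) (φ := φ) (a := .neg) (b := .zero) (c := .neg)
    (u := η⁻¹) (v := ζ ^ m) (w := η⁻¹) (p := η ^ 2 * t) (q := t) (r := η * t)
    (T := F η .neg .zero (η ^ 2 * t) t) (k := 2 * (η * t) ^ 2) (KF := fun x => (x + η * t) ^ 2)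
    (K := (Y.map (fun y => y + η * t)).prod)
    (X := X) (inv_ne_zero h0) (fun x hx d => (FF h4 (hsep x hx) d).1) (hE.f1 t) rfl
    (fun n h => by
      rw [zpow_split hη h, inv_zpow', ← zpow_add₀ h0]
      rw [show -n + (((SignType.neg : SignType) : ℤ) + n) = -1 by
        rw [show ((SignType.neg : SignType) : ℤ) = -1 from rfl]; ring]
      exact zpow_neg_one η)
    (by
      simp only [F, wt, hl, Nat.reduceAdd]
      field_simp
      linear_combination σ * (2 - 2 * η ^ 2 - 2 * η ^ 4 - η ^ 5 + 2 * η ^ 6 + 2 * η ^ 8 + 2 * η ^ 9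
        - η ^ 10 - η ^ 12 - 2 * η ^ 13 + η ^ 17) * h4)
  have c2 := channelS (η := η) (σ := σ) (m := m) (φ := φ) (a := .zero) (b := .pos) (c := .pos)
    (u := η⁻¹) (v := ζ ^ m) (w := η) (p := η ^ 2 * t) (q := t) (r := η * t)
    (T := F η .zero .pos (η ^ 2 * t) t) (k := 2 * (η * t) ^ 2) (KF := fun x => (x + η * t) ^ 2)
    (K := (Y.map (fun y => y + η * t)).prod)
    (X := X) (inv_ne_zero h0) (fun x hx d => (FF h4 (hsep x hx) d).2.1) (hE.f2 t) rfl
    (fun n h => by
      rw [zpow_split hη h, inv_zpow', ← zpow_add₀ h0]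
      rw [show -n + (((SignType.pos : SignType) : ℤ) + n) = 1 by
        rw [show ((SignType.pos : SignType) : ℤ) = 1 from rfl]; ring]
      exact zpow_one η)
    (by
      simp only [F, wt, hl, Nat.reduceAdd]
      field_simp
      linear_combination σ * (2 - 2 * η ^ 2 - 2 * η ^ 4 - η ^ 5 + 2 * η ^ 6 + 2 * η ^ 8 + 2 * η ^ 9
        - η ^ 10 - η ^ 12 - 2 * η ^ 13 + η ^ 17) * h4)
  have c3 := channelS (η := η) (σ := σ) (m := m) (φ := φ) (a := .neg) (b := .pos) (c := .zero)
    (u := (η ^ 2)⁻¹) (v := ζ ^ (2 * m)) (w := 1) (p := η ^ 2 * t) (q := t) (r := η * t)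
    (T := F η .neg .pos (η ^ 2 * t) t) (k := 2 * (η * t) ^ 2) (KF := fun x => (x + η * t) ^ 2)
    (K := (Y.map (fun y => y + η * t)).prod)
    (X := X) (inv_ne_zero (pow_ne_zero _ h0)) (fun x hx d => (FF h4 (hsep x hx) d).2.2)
    (hE.f3 t) rfl
    (fun n h => by
      have h' : 2 * (2 * n) = 2 * m := by
        rw [← h, show ((SignType.zero : SignType) : ℤ) = 0 from rfl]; ring
      rw [zpow_split hη h', inv_zpow', show η ^ (2 * n) = (η ^ 2) ^ n by
        rw [zpow_mul]; norm_cast, ← zpow_add₀ (pow_ne_zero _ h0)]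
      simp)
    (by
      have e9 : η ^ 9 - 1 = η - 1 := by linear_combination η * h8
      simp only [F, wt, hl, Nat.reduceAdd]
      field_simp
      rw [e9, hσ]
      field_simp
      linear_combination (-2 + 2 * η + 2 * η ^ 2 - 2 * η ^ 3 + 2 * η ^ 4 - 3 * η ^ 6 + 2 * η ^ 7
        - η ^ 8 - 2 * η ^ 9 + 2 * η ^ 10 - η ^ 11 + η ^ 13) * h4)
  rw [S_cons2, S_cons]
  simp only [sum3]
  rw [f00, f0n, fnn, fp0, fpn, fpp, c1, c2, c3]
  ring

end SPN
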