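import Pool.Agent.NUTP.Gas.Defs
import Pool.Agent.SPN.Sum

/-!
# The trigonometric charge sum in the field of half rows (variables of `NUTP`)

Half row of charge `b` at `z`, line `a` of charge `e`, `u = a / z`.
-/

set_option autoImplicit false

noncomputable section

namespace SPN

open NUGas NUTP

/-- factor of a half row -/
def T (θ : ℂ) : SignType → SignType → ℂ → ℂ
  | .pos, .pos, _ => 1
  | .pos, .zero, u => sn θ 3 u
  | .pos, .neg, u => sn θ 2 u * sn θ 3 u
  | .zero, .pos, u => sn θ 5 u
  | .zero, .zero, u => sn θ 4 u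
  | .zero, .neg, u => sn θ 3 u
  | .neg, .pos, u => sn θ 5 u * sn θ 6 u
  | .neg, .zero, u => sn θ 5 u
  | .neg, .neg, _ => 1

/-- unmarked state -/
def st : SignType → NUTP.Gas.K
  | .pos => .p
  | .zero => .z
  | .neg => .n

/-- all factors inside the lines -/
def ownT (θ : ℂ) : List (ℂ × SignType) → ℂ
  | [] => 1
  | c :: e => NUTP.Gas.w1 θ (st c.2) *
      (e.map fun d => NUTP.Gas.ff θ (st c.2) (st d.2) (c.1 / d.1)).prod * ownT θ e

/-- the charge sum in the field of the half rows `f` -/
def TS (θ : ℂ) (f : List (ℂ × SignType)) (I : List ℂ) : ℂ :=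
  sch I fun e => if 2 * tot e = tot f then
    ownT θ e * (e.map fun c => (f.map fun d => T θ d.2 c.2 (c.1 / d.1)).prod).prod else 0

end SPN

end
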