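import Pool.Agent.NUTP.Gas.GasRe
import Pool.Agent.NUTP.Gas.Mirror
import Pool.Agent.SPN.PhA
import Pool.Agent.SPN.PhD

/-!
# The gas with one empty line is a finite sum of trigonometric charge sums in fields of half rows

World `g` fixed (states `f` of its objects, marks included): the sum over world `f` = the empty line `r` on the
right, the occupied line `h` on the left and the lines `I`.
-/

set_option autoImplicit false

noncomputable section

namespace SPN

open NUGas (sch tot)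
open NUTP (sn cs sk)
open NUTG (Kd curc me vf foc Sp)
open NUTP.Gas (K Ty Cf sm usm tm tt mk nl ob obs kf kg sg ow ow1 cr cr1 own crs fl)

variable {θ χ : ℂ}

/-- charges of the half rows of an object of world `g` -/
def hr : K → List SignType
  | .p => [.pos, .pos]
  | .z => [.zero, .zero]
  | .n => [.neg, .neg]
  | .a => [.zero, .pos]
  | .b => [.zero, .neg]
  | .ro => [.pos]
  | .re => [.pos]
  | .rE => [.zero]
  | .lo => [.neg]
  | .le => [.neg]
  | .lE => [.zero]
  | _ => []

/-- the same after the current of `r` has been moved to the pole of the object -/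
def mv : K → List SignType
  | .z => [.pos, .zero]
  | .a => [.pos, .pos]
  | .rE => [.pos]
  | .n => [.zero, .neg]
  | .b => [.zero, .zero]
  | k => hr k

/-- half rows -/
def hl (c : ℂ × K) : List (ℂ × SignType) := (hr c.2).map fun s => (c.1, s)

/-- half rows after the move -/
def hm (c : ℂ × K) : List (ℂ × SignType) := (mv c.2).map fun s => (c.1, s)

/-! ### tables -/

lemma T_own_lo (b : SignType) (h x : ℂ) : own θ .lo (st b) (h / x) = T θ .pos b (x / h) := by
  have e : x / h = (h / x)⁻¹ := (inv_div h x).symm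
  rcases b with _ | _ | _ <;> simp only [own, NUTP.Gas.cls, st, NUTP.Gas.mir, NUTP.Gas.ef, T, e]

lemma T_vf (hθ : θ ^ 8 = -1) (b : SignType) (r x : ℂ) :
    ((kf (st b)).elim 1 fun κ => vf θ κ x r) = T θ .neg b (x / r) := by
  have e : x / r = (r / x)⁻¹ := (inv_div r x).symm
  rcases b with _ | _ | _ <;> simp only [st, kf, Option.elim, vf, sk, T, e,
    NUTP.Gas.sn_inv5 hθ, NUTP.Gas.sn_inv6 hθ]
  ring

lemma T_crs (hθ : θ ^ 8 = -1) {k : K} (hk : sg k) (b : SignType) (x y : ℂ) :
    crs θ (st b) k (x / y) = ((hr k).map fun s => T θ s b (x / y)).prod := by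
  rcases hk with rfl | rfl | rfl | rfl | rfl | rfl | rfl | rfl | rfl | rfl | rfl <;>
    rcases b with _ | _ | _ <;>
    simp only [crs, NUTP.Gas.cls, st, NUTP.Gas.mir, NUTP.Gas.gg, NUTP.Gas.xf, hr, T, List.map_cons,
      List.map_nil, List.prod_cons, List.prod_nil, NUTP.Gas.sn_inv2 hθ, NUTP.Gas.sn_inv3 hθ,
      NUTP.Gas.sn_inv4 hθ, NUTP.Gas.sn_inv5 hθ] <;> ring

lemma snp (k : ℕ) (j : ℕ) (a b : ℂ) : sn θ k (θ ^ j * a / b) = sn θ (k + j) (a / b) := by
  rw [mul_div_assoc, NUTP.Gas.sn_pow]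

/-- kind `E` -/
lemma T_E (hθ : θ ^ 8 = -1) (b : SignType) {x y : ℂ} (hx : x ≠ 0) (hy : y ≠ 0) (h : Sp θ y x) :
    T θ .neg b (x / y) * ((kf (st b)).elim 1 fun κ => NUTG.ff θ κ x (θ ^ 2 * y)) =
      T θ .zero b (x / y) := by
  have e : x / y = (y / x)⁻¹ := (inv_div y x).symm
  have h2 := h.sn_ne hθ hy hx 2
  have h3 := h.sn_ne hθ hy hx 3
  rcases b with _ | _ | _ <;> simp only [st, kf, Option.elim, NUTG.ff, T, e, snp,
    NUTP.Gas.sn_inv3 hθ, NUTP.Gas.sn_inv4 hθ, NUTP.Gas.sn_inv5 hθ, NUTP.Gas.sn_inv6 hθ, zero_add,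
    Nat.reduceAdd] <;> field_simp

/-- kind `D` -/
lemma T_D (hθ : θ ^ 8 = -1) (b : SignType) {x y : ℂ} (hx : x ≠ 0) (hy : y ≠ 0) (h : Sp θ y x) :
    T θ .zero b (x / y) * ((kf (st b)).elim 1 fun κ => NUTG.ff θ κ x (θ ^ 3 * y)) =
      T θ .pos b (x / y) := by
  have e : x / y = (y / x)⁻¹ := (inv_div y x).symm
  have h4 := h.sn_ne hθ hy hx 4
  have h3 := h.sn_ne hθ hy hx 3
  rcases b with _ | _ | _ <;> simp only [st, kf, Option.elim, NUTG.ff, T, e, snp,
    NUTP.Gas.sn_inv2 hθ, NUTP.Gas.sn_inv3 hθ, NUTP.Gas.sn_inv4 hθ, NUTP.Gas.sn_inv5 hθ, zero_add,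
    Nat.reduceAdd] <;> field_simp

lemma T_mv (hθ : θ ^ 8 = -1) {k : K} {κ : Kd} (hk : kg k = some κ) (hf : fk κ = true)
    (b : SignType) {x y : ℂ} (hx : x ≠ 0) (hy : y ≠ 0) (h : Sp θ y x) :
    ((hr k).map fun s => T θ s b (x / y)).prod *
      ((kf (st b)).elim 1 fun κ' => NUTG.ff θ κ' x (θ ^ ap κ * y)) =
      ((mv k).map fun s => T θ s b (x / y)).prod := by
  have hD := T_D hθ b hx hy h
  have hE := T_E hθ b hx hy h
  cases k <;> simp only [kg, Option.some.injEq, reduceCtorEq] at hk <;> subst hk <;>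
    simp only [fk, Bool.false_eq_true] at hf <;>
    simp only [hr, mv, ap, List.map_cons, List.map_nil, List.prod_cons, List.prod_nil, mul_one]
  · linear_combination T θ .zero b (x / y) * hD
  · linear_combination T θ .neg b (x / y) * hE
  · linear_combination T θ .pos b (x / y) * hD
  · linear_combination T θ .zero b (x / y) * hE
  · exact hD

/-! ### charges -/

lemma tot_map (s : List SignType) (y : ℂ) :
    tot (s.map fun b => (y, b)) = (s.map fun b => ((b : SignType) : ℤ)).sum := by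
  unfold tot
  rw [List.map_map]
  rfl

lemma tot_app (e f : List (ℂ × SignType)) : tot (e ++ f) = tot e + tot f := by
  simp [tot]

lemma tot_hl {k : K} (hk : sg k) (y : ℂ) : tot (hl (y, k)) = NUTP.Gas.ch k := by
  unfold hl
  rw [tot_map]
  rcases hk with rfl | rfl | rfl | rfl | rfl | rfl | rfl | rfl | rfl | rfl | rfl <;> rfl

lemma tot_hm {k : K} {κ : Kd} (hk : kg k = some κ) (hf : fk κ = true) (y : ℂ) :
    tot (hm (y, k)) = NUTP.Gas.ch k + 1 := by
  unfold hm
  rw [tot_map]
  cases k <;> simp only [kg, Option.some.injEq, reduceCtorEq] at hk <;> subst hk <;>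
    simp only [fk, Bool.false_eq_true] at hf <;> rfl

lemma tot_flat {f : Cf} (hf : ∀ c ∈ f, sg c.2) : tot (f.flatMap hl) = tt NUTP.Gas.ch f := by
  induction f with
  | nil => rfl
  | cons c f ih =>
    rw [List.flatMap_cons, tot_app, NUTP.Gas.tt_cons, ih fun d hd => hf d (List.mem_cons_of_mem _ hd)]
    rw [show c = (c.1, c.2) from rfl, tot_hl (hf c List.mem_cons_self)]

/-- number of occupied ended lines -/
def oc : K → ℤ
  | .ro => 1
  | .lo => 1
  | _ => 0

/-- the charges of the kinds -/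
def kch (k : K) : ℤ := (kg k).elim 0 NUTG.ch

lemma ch_rel {f : Cf} (hf : ∀ c ∈ f, sg c.2) :
    tt NUTP.Gas.ch f + 2 * tt kch f = tt mk f - tt oc f := by
  induction f with
  | nil => rfl
  | cons c f ih =>
    have ih' := ih fun d hd => hf d (List.mem_cons_of_mem _ hd)
    simp only [NUTP.Gas.tt_cons]
    have key : NUTP.Gas.ch c.2 + 2 * kch c.2 = mk c.2 - oc c.2 := by
      rcases hf c List.mem_cons_self with h | h | h | h | h | h | h | h | h | h | h <;> rw [h] <;> rfl
    linarith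

/-! ### world `f` -/

/-- a configuration of world `f` -/
def cfg (h : ℂ) (e : List (ℂ × SignType)) : Cf := (h, .lo) :: e.map fun c => (c.1, st c.2)

lemma ow_st (e : List (ℂ × SignType)) : ow θ (e.map fun c => (c.1, st c.2)) = ownT θ e := by
  induction e with
  | nil => rfl
  | cons c e ih =>
    rw [List.map_cons, ow, ownT, ih]
    congr 2
    unfold ow1
    rw [List.map_map]
    congr 1
    refine List.map_congr_left fun d _ => ?_
    show own θ (st c.2) (st d.2) (c.1 / d.1) = _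
    rcases c.2 with _ | _ | _ <;> rcases d.2 with _ | _ | _ <;> rfl

lemma ow_cfg (h : ℂ) (e : List (ℂ × SignType)) :
    ow θ (cfg h e) = (e.map fun c => T θ .pos c.2 (c.1 / h)).prod * ownT θ e := by
  unfold cfg
  rw [ow, ow_st]
  have : NUTP.Gas.w1 θ .lo = 1 := rfl
  rw [this, one_mul]
  congr 1
  unfold ow1
  rw [List.map_map]
  congr 1
  exact List.map_congr_left fun d _ => T_own_lo d.2 h d.1

lemma prod_flat (g : ℂ × SignType → ℂ) (f : Cf) :
    ((f.flatMap hl).map g).prod = (f.map fun c => ((hl c).map g).prod).prod := by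
  induction f with
  | nil => rfl
  | cons c f ih => rw [List.flatMap_cons, List.map_append, List.prod_append, ih, List.map_cons,
      List.prod_cons]

lemma cr1_st (hθ : θ ^ 8 = -1) {f : Cf} (hf : ∀ c ∈ f, sg c.2) (b : SignType) (x : ℂ) :
    cr1 θ x (st b) f = ((f.flatMap hl).map fun d => T θ d.2 b (x / d.1)).prod := by
  rw [prod_flat]
  unfold cr1
  congr 1
  refine List.map_congr_left fun c hc => ?_
  rw [T_crs hθ (hf c hc)]
  unfold hl
  rw [List.map_map]
  rfl

lemma cr_cfg (hθ : θ ^ 8 = -1) (h : ℂ) (e : List (ℂ × SignType)) {f : Cf} (hf : ∀ c ∈ f, sg c.2) :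
    cr θ (cfg h e) f = cr1 θ h .lo f *
      (e.map fun c => ((f.flatMap hl).map fun d => T θ d.2 c.2 (c.1 / d.1)).prod).prod := by
  unfold cfg
  rw [NUTP.Gas.cr_cons_left]
  congr 1
  unfold cr
  rw [List.map_map]
  congr 1
  exact List.map_congr_left fun c _ => cr1_st hθ hf c.2 c.1

lemma tt_cfg_mk (h : ℂ) (e : List (ℂ × SignType)) : tt mk (cfg h e) = 0 := by
  unfold cfg
  rw [NUTP.Gas.tt_cons]
  have : mk K.lo = 0 := rfl
  rw [this, zero_add]
  induction e with
  | nil => rfl
  | cons c e ih =>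
    rw [List.map_cons, NUTP.Gas.tt_cons, ih]
    rcases c.2 with _ | _ | _ <;> rfl

lemma tt_cfg_ch (h : ℂ) (e : List (ℂ × SignType)) : tt NUTP.Gas.ch (cfg h e) = -1 + 2 * tot e := by
  unfold cfg
  rw [NUTP.Gas.tt_cons]
  have : NUTP.Gas.ch K.lo = -1 := rfl
  rw [this]
  congr 1
  induction e with
  | nil => rfl
  | cons c e ih =>
    rw [List.map_cons, NUTP.Gas.tt_cons, ih, NUGas.tot_cons, mul_add]
    congr 1
    rcases c.2 with _ | _ | _ <;> rfl

lemma tt_cfg_nl (h : ℂ) (e : List (ℂ × SignType)) : tt nl (cfg h e) = 1 := by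
  unfold cfg
  rw [NUTP.Gas.tt_cons]
  have : nl K.lo = 1 := rfl
  rw [this]
  suffices h : tt nl (e.map fun c => (c.1, st c.2)) = 0 by rw [h]; rfl
  induction e with
  | nil => rfl
  | cons c e ih =>
    rw [List.map_cons, NUTP.Gas.tt_cons, ih]
    rcases c.2 with _ | _ | _ <;> rfl

lemma prod_kf (G : Kd → ℂ → ℂ) (h : ℂ) (e : List (ℂ × SignType)) :
    ((ob kf (cfg h e)).map fun o => G o.1 o.2).prod =
      (e.map fun c => (kf (st c.2)).elim 1 fun κ => G κ c.1).prod := by
  rw [NUTP.Gas.prod_ob]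
  unfold cfg
  rw [List.map_cons, List.prod_cons, List.map_map]
  show 1 * _ = _
  rw [one_mul]
  rfl

end SPN

end
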