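import Pool.Agent.NUTP.Gas.PolOEo
import Pool.Agent.SPN.PhB

/-!
# One configuration of world `g`: the sum over world `f` is a finite sum of charge sums
-/

set_option autoImplicit false

noncomputable section

namespace SPN

open NUGas (sch tot)
open NUTP (sn cs sk)
open NUTG (Kd curc me vf foc Sp)
open NUTP.Gas (K Ty Cf sm usm tm tt mk nl ob obs kf kg sg ow ow1 cr cr1 own crs fl)

variable {θ χ : ℂ}

/-- constant of a configuration of world `g` -/
def c0 (θ χ h : ℂ) (f : Cf) : ℂ :=
  if tt mk f = 0 then χ ^ (-1 + tt NUTP.Gas.ch f + 1 + tt nl f) * (ow θ f * cr1 θ h .lo f) else 0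

/-- constant of a far pole in world `g` -/
def cf (θ r : ℂ) (p : (ℂ × K) × Cf) : ℂ := (kg p.1.2).elim 0 fun κ =>
  rf θ κ * kp θ r (θ ^ ap κ * p.1.1) * (vf θ κ p.1.1 r *
    ((ob kg p.2).map fun o => vf θ o.1 o.2 r * NUTG.ff θ o.1 o.2 (θ ^ ap κ * p.1.1)).prod)

/-- the terms of a configuration of world `g`: constants and half rows -/
def Lf (θ χ r h : ℂ) (f : Cf) : List (ℂ × List (ℂ × SignType)) :=
  (c0 θ χ h f * ((ob kg f).map fun o => vf θ o.1 o.2 r * NUTG.ff θ o.1 o.2 (θ ^ 2 * r)).prod,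
    (h, .pos) :: (r, .zero) :: f.flatMap hl) ::
  (foc f).map fun p => (c0 θ χ h f * cf θ r p,
    (h, .pos) :: (r, .neg) :: (hm p.1 ++ p.2.flatMap hl))

/-- one term of `TS` -/
def tT (θ : ℂ) (g : List (ℂ × SignType)) (e : List (ℂ × SignType)) : ℂ :=
  if 2 * tot e = tot g then
    ownT θ e * (e.map fun c => (g.map fun d => T θ d.2 c.2 (c.1 / d.1)).prod).prod else 0

lemma TS_eq_sch (θ : ℂ) (g : List (ℂ × SignType)) (I : List ℂ) : TS θ g I = sch I (tT θ g) := rfl

lemma kch_kf (h : ℂ) (e : List (ℂ × SignType)) :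
    ((ob kf (cfg h e)).map fun o => NUTG.ch o.1).sum = tot e := by
  rw [NUTP.Gas.sum_ob]
  unfold cfg
  rw [List.map_cons, List.sum_cons, List.map_map]
  show 0 + _ = _
  rw [zero_add]
  unfold tot
  congr 1
  refine List.map_congr_left fun c _ => ?_
  rcases c with ⟨x, b⟩
  rcases b with _ | _ | _ <;> rfl

lemma kch_kg (f : Cf) : ((ob kg f).map fun o => NUTG.ch o.1).sum = tt kch f := by
  rw [NUTP.Gas.sum_ob]; rfl

lemma ob_kf_kind {h : ℂ} {e : List (ℂ × SignType)} {o : Kd × ℂ} (ho : o ∈ ob kf (cfg h e)) :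
    rf θ o.1 = 0 := by
  obtain ⟨c, hc, hk, _⟩ := NUTP.Gas.mem_ob.1 ho
  unfold cfg at hc
  rcases List.mem_cons.1 hc with rfl | hc
  · simp [kf] at hk
  · obtain ⟨d, _, rfl⟩ := List.mem_map.1 hc
    rcases d with ⟨x, b⟩
    rcases b with _ | _ | _ <;> simp only [st, kf, Option.some.injEq] at hk <;> rw [← hk] <;> rfl

/-- **one configuration** -/
theorem main_term (hθ : θ ^ 8 = -1) {e : List (ℂ × SignType)} {f : Cf} {r h : ℂ}
    (hf : ∀ c ∈ f, sg c.2) (hoc : tt oc f = 1) (hr0 : r ≠ 0)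
    (h0 : ∀ x ∈ (cfg h e).map Prod.fst ++ f.map Prod.fst, x ≠ 0)
    (hs : (r :: ((cfg h e).map Prod.fst ++ f.map Prod.fst)).Pairwise (Sp θ)) :
    tm θ χ 0 0 0 (-1) (cfg h e) f * curc θ (me θ) (obs (cfg h e) f) r =
      ((Lf θ χ r h f).map fun t => t.1 * tT θ t.2 e).sum := by
  by_cases hm0 : tt mk f = 0
  swap
  · have h1 : tm θ χ 0 0 0 (-1) (cfg h e) f = 0 := if_neg fun h' => hm0 (by have := h'.2.1; omega)
    have h2 : c0 θ χ h f = 0 := if_neg hm0
    rw [h1, zero_mul]
    symm
    refine List.sum_eq_zero fun x hx => ?_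
    obtain ⟨t, ht, rfl⟩ := List.mem_map.1 hx
    unfold Lf at ht
    rcases List.mem_cons.1 ht with rfl | ht
    · simp only [h2, zero_mul]
    · obtain ⟨p, _, rfl⟩ := List.mem_map.1 ht
      simp only [h2, zero_mul]
  -- the half rows have the right total charge
  have htot : ∀ t ∈ Lf θ χ r h f, t.1 ≠ 0 → tot t.2 = tt NUTP.Gas.ch f + 1 := by
    intro t ht hne
    unfold Lf at ht
    rcases List.mem_cons.1 ht with rfl | ht
    · show tot ((h, .pos) :: (r, .zero) :: f.flatMap hl) = _
      rw [NUGas.tot_cons, NUGas.tot_cons, tot_flat hf]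
      show 1 + (0 + _) = _
      ring
    · obtain ⟨p, hp, rfl⟩ := List.mem_map.1 ht
      have hfp : ∀ c ∈ p.2, sg c.2 := fun c hc => hf c (NUTG.foc_mem_rest hp hc)
      show tot ((h, .pos) :: (r, .neg) :: (hm p.1 ++ p.2.flatMap hl)) = _
      have hcf : cf θ r p ≠ 0 := fun h' => hne (by show c0 θ χ h f * cf θ r p = 0; rw [h', mul_zero])
      have hperm := NUTG.foc_perm_cons hp
      rw [NUGas.tot_cons, NUGas.tot_cons, tot_app, tot_flat hfp, NUTP.Gas.tt_perm _ hperm,
        NUTP.Gas.tt_cons]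
      unfold cf at hcf
      rcases hk : kg p.1.2 with _ | κ
      · rw [hk] at hcf; exact absurd rfl hcf
      · rw [hk, Option.elim_some] at hcf
        have hfk : fk κ = true := by
          cases κ <;> first | rfl | (exfalso; apply hcf; simp [rf])
        rw [show p.1 = (p.1.1, p.1.2) from rfl, tot_hm hk hfk]
        show 1 + (-1 + _) = _
        ring
  by_cases hc : 2 * tot e = tt NUTP.Gas.ch f + 1
  swap
  · have h1 : tm θ χ 0 0 0 (-1) (cfg h e) f = 0 := if_neg fun h' => hc (by
      have h2 := h'.2.2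
      rw [tt_cfg_ch] at h2
      omega)
    rw [h1, zero_mul]
    symm
    refine List.sum_eq_zero fun x hx => ?_
    obtain ⟨t, ht, rfl⟩ := List.mem_map.1 hx
    by_cases ht0 : t.1 = 0
    · rw [ht0, zero_mul]
    · have : tT θ t.2 e = 0 := if_neg (by rw [htot t ht ht0]; exact hc)
      rw [this, mul_zero]
  -- separation
  rw [List.pairwise_cons] at hs
  obtain ⟨hs1, hs2⟩ := hs
  have hsub : ((obs (cfg h e) f).map Prod.snd).Sublist
      ((cfg h e).map Prod.fst ++ f.map Prod.fst) := by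
    unfold obs
    rw [List.map_append]
    exact (NUTP.Gas.Oo.ob_sublist kf _).append (NUTP.Gas.Oo.ob_sublist kg _)
  have hso : ∀ o ∈ obs (cfg h e) f, o.2 ∈ (cfg h e).map Prod.fst ++ f.map Prod.fst := fun o ho =>
    hsub.subset (List.mem_map_of_mem ho)
  have hp : (obs (cfg h e) f).Pairwise fun o o' => Sp θ o.2 o'.2 := by
    rw [← List.pairwise_map (f := Prod.snd)]
    exact hs2.sublist hsub
  have hch : ((obs (cfg h e) f).map fun o => NUTG.ch o.1).sum = 0 := by
    unfold obs
    rw [List.map_append, List.sum_append, kch_kf, kch_kg]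
    have := ch_rel hf
    omega
  have hcur := cur_far hθ (os := obs (cfg h e) f) (fun o ho => h0 _ (hso o ho))
    (fun o ho => NUTP.Gas.Oo.obs_R ho) hp hr0 (fun o ho => hs1 _ (hso o ho)) hch
  have hpe : ∀ c ∈ e, c.1 ∈ (cfg h e).map Prod.fst ++ f.map Prod.fst := by
    intro c hc
    refine List.mem_append_left _ ?_
    unfold cfg
    rw [List.map_cons, List.map_map]
    exact List.mem_cons_of_mem _ (List.mem_map.2 ⟨c, hc, rfl⟩)
  have hpf : ∀ c ∈ f, c.1 ∈ (cfg h e).map Prod.fst ++ f.map Prod.fst := fun c hc =>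
    List.mem_append_right _ (List.mem_map_of_mem hc)
  have htm : tm θ χ 0 0 0 (-1) (cfg h e) f = c0 θ χ h f * (ownT θ e *
      (e.map fun c => T θ .pos c.2 (c.1 / h) *
        ((f.flatMap hl).map fun d => T θ d.2 c.2 (c.1 / d.1)).prod).prod) := by
    unfold tm
    rw [if_pos ⟨by rw [tt_cfg_mk]; rfl, by rw [hm0]; rfl, by rw [tt_cfg_ch, hc]; ring⟩, ow_cfg,
      cr_cfg hθ h e hf, tt_cfg_nl, c0, if_pos hm0, List.prod_map_mul]
    ring
  rw [hcur, htm]
  -- products over the objects
  have hobs : ∀ (w : ℂ) (l : List (Kd × ℂ)), ((ob kf (cfg h e) ++ l).map fun o =>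
      vf θ o.1 o.2 r * NUTG.ff θ o.1 o.2 w).prod =
      (e.map fun c => T θ .neg c.2 (c.1 / r) *
        (kf (st c.2)).elim 1 fun κ => NUTG.ff θ κ c.1 w).prod *
      (l.map fun o => vf θ o.1 o.2 r * NUTG.ff θ o.1 o.2 w).prod := by
    intro w l
    rw [List.map_append, List.prod_append]
    congr 1
    rw [prod_kf (fun κ x => vf θ κ x r * NUTG.ff θ κ x w)]
    congr 1
    refine List.map_congr_left fun c _ => ?_
    rw [← T_vf hθ c.2 r c.1]
    rcases c with ⟨x, b⟩
    rcases b with _ | _ | _ <;> rfl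
  -- the sum over the far poles
  have hfoc : ((foc (obs (cfg h e) f)).map fun p => rf θ p.1.1 * kp θ r (θ ^ ap p.1.1 * p.1.2) *
        (vf θ p.1.1 p.1.2 r * (p.2.map fun o => vf θ o.1 o.2 r *
          NUTG.ff θ o.1 o.2 (θ ^ ap p.1.1 * p.1.2)).prod)).sum =
      ((foc f).map fun p => cf θ r p * (kg p.1.2).elim 0 fun κ =>
        (e.map fun c => T θ .neg c.2 (c.1 / r) *
          (kf (st c.2)).elim 1 fun κ' => NUTG.ff θ κ' c.1 (θ ^ ap κ * p.1.1)).prod).sum := by
    unfold obs
    rw [NUTG.foc_append, List.map_append, List.sum_append, List.map_map, List.map_map]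
    have hz : ((foc (ob kf (cfg h e))).map ((fun p => rf θ p.1.1 *
        kp θ r (θ ^ ap p.1.1 * p.1.2) * (vf θ p.1.1 p.1.2 r * (p.2.map fun o => vf θ o.1 o.2 r *
          NUTG.ff θ o.1 o.2 (θ ^ ap p.1.1 * p.1.2)).prod)) ∘
        fun p => (p.1, p.2 ++ ob kg f))).sum = 0 := by
      refine List.sum_eq_zero fun a ha => ?_
      obtain ⟨p, hp, rfl⟩ := List.mem_map.1 ha
      simp only [Function.comp_apply]
      rw [ob_kf_kind (NUTG.foc_mem hp)]
      ring
    rw [hz, zero_add]
    have h4 := NUTP.Gas.foc_filterMap (fun c : ℂ × K => (kg c.2).map fun κ => (κ, c.1)) f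
      (fun o L => rf θ o.1 * kp θ r (θ ^ ap o.1 * o.2) *
        (vf θ o.1 o.2 r * ((ob kf (cfg h e) ++ L).map fun o' => vf θ o'.1 o'.2 r *
          NUTG.ff θ o'.1 o'.2 (θ ^ ap o.1 * o.2)).prod))
    refine Eq.trans h4 ?_
    congr 1
    refine List.map_congr_left fun p _ => ?_
    unfold cf
    rcases kg p.1.2 with _ | κ
    · simp
    · simp only [Option.map_some, Option.elim_some]
      rw [hobs]
      unfold ob
      ring
  have hfirst : ((obs (cfg h e) f).map fun o => vf θ o.1 o.2 r *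
      NUTG.ff θ o.1 o.2 (θ ^ 2 * r)).prod = (e.map fun c => T θ .zero c.2 (c.1 / r)).prod *
        ((ob kg f).map fun o => vf θ o.1 o.2 r * NUTG.ff θ o.1 o.2 (θ ^ 2 * r)).prod := by
    unfold obs
    rw [hobs]
    congr 2
    refine List.map_congr_left fun c hc => ?_
    exact T_E hθ c.2 (h0 _ (hpe c hc)) hr0 (hs1 _ (hpe c hc))
  rw [hfoc, hfirst]
  unfold Lf
  rw [List.map_cons, List.sum_cons, List.map_map, mul_add]
  congr 1
  · -- far pole of `r`
    show _ = _ * tT θ ((h, .pos) :: (r, .zero) :: f.flatMap hl) e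
    unfold tT
    rw [if_pos (by
      rw [NUGas.tot_cons, NUGas.tot_cons, tot_flat hf, hc]
      show _ = 1 + (0 + _)
      ring)]
    have e1 : (e.map fun c => (((h, .pos) :: (r, .zero) :: f.flatMap hl).map fun d =>
        T θ d.2 c.2 (c.1 / d.1)).prod).prod =
        (e.map fun c => T θ .pos c.2 (c.1 / h) *
          ((f.flatMap hl).map fun d => T θ d.2 c.2 (c.1 / d.1)).prod).prod *
        (e.map fun c => T θ .zero c.2 (c.1 / r)).prod := by
      rw [← List.prod_map_mul]
      congr 1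
      refine List.map_congr_left fun c _ => ?_
      simp only [List.map_cons, List.prod_cons]
      ring
    rw [e1]
    ring
  · rw [← List.sum_map_mul_left]
    congr 1
    refine List.map_congr_left fun p hp => ?_
    show _ = c0 θ χ h f * cf θ r p * tT θ ((h, .pos) :: (r, .neg) :: (hm p.1 ++ p.2.flatMap hl)) e
    by_cases hcf : cf θ r p = 0
    · rw [hcf]; ring
    have hcf' := hcf
    unfold cf at hcf'
    rcases hk : kg p.1.2 with _ | κ
    · rw [hk] at hcf'; exact absurd rfl hcf'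
    rw [hk, Option.elim_some] at hcf'
    have hfk : fk κ = true := by
      cases κ <;> first | rfl | (exfalso; apply hcf'; simp [rf])
    have hperm := NUTG.foc_perm_cons hp
    have hfp : ∀ c ∈ p.2, sg c.2 := fun c hc => hf c (NUTG.foc_mem_rest hp hc)
    unfold tT
    rw [if_pos (by
      rw [NUGas.tot_cons, NUGas.tot_cons, tot_app, tot_flat hfp, hc,
        show p.1 = (p.1.1, p.1.2) from rfl, tot_hm hk hfk, NUTP.Gas.tt_perm _ hperm,
        NUTP.Gas.tt_cons]
      show _ = 1 + (-1 + _)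
      ring), Option.elim_some]
    have e1 : (e.map fun c => (((h, .pos) :: (r, .neg) :: (hm p.1 ++ p.2.flatMap hl)).map fun d =>
        T θ d.2 c.2 (c.1 / d.1)).prod).prod =
        (e.map fun c => T θ .pos c.2 (c.1 / h) *
          ((f.flatMap hl).map fun d => T θ d.2 c.2 (c.1 / d.1)).prod).prod *
        (e.map fun c => T θ .neg c.2 (c.1 / r) *
          (kf (st c.2)).elim 1 fun κ' => NUTG.ff θ κ' c.1 (θ ^ ap κ * p.1.1)).prod := by
      rw [← List.prod_map_mul]
      congr 1
      refine List.map_congr_left fun c hc => ?_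
      have h1 := T_mv hθ hk hfk c.2 (h0 _ (hpe c hc)) (h0 _ (hpf p.1 (NUTG.foc_mem hp)))
        (x := c.1) (y := p.1.1) (by
          have h5 := List.pairwise_append.1 hs2
          exact (h5.2.2 c.1 (by
            unfold cfg
            rw [List.map_cons, List.map_map]
            exact List.mem_cons_of_mem _ (List.mem_map.2 ⟨c, hc, rfl⟩)) p.1.1
              (List.mem_map_of_mem (NUTG.foc_mem hp))).symm hθ)
      have h2 : ((f.flatMap hl).map fun d => T θ d.2 c.2 (c.1 / d.1)).prod =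
          ((hr p.1.2).map fun s => T θ s c.2 (c.1 / p.1.1)).prod *
            ((p.2.flatMap hl).map fun d => T θ d.2 c.2 (c.1 / d.1)).prod := by
        rw [((hperm.flatMap_right hl).map _).prod_eq, List.flatMap_cons, List.map_append,
          List.prod_append]
        congr 1
        unfold hl
        rw [List.map_map]
        rfl
      have h3 : ((hm p.1).map fun d => T θ d.2 c.2 (c.1 / d.1)).prod =
          ((mv p.1.2).map fun s => T θ s c.2 (c.1 / p.1.1)).prod := by
        unfold hm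
        rw [List.map_map]
        rfl
      simp only [List.map_cons, List.prod_cons, List.map_append, List.prod_append]
      rw [h2, h3, ← h1]
      ring
    rw [e1]
    ring

end SPN

end
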