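import Pool.Agent.SPN.PhB2

/-!
# `ER` of the gas is a finite sum of trigonometric charge sums in fields of half rows, `RE` by the mirror
-/

set_option autoImplicit false

noncomputable section

namespace SPN

open NUGas (sch tot)
open NUTP (sn cs sk G)
open NUTG (Kd curc me vf foc Sp)
open NUTP.Gas (K Ty Cf sm usm tm tt mk nl ob obs kf kg sg ow ow1 cr cr1 own crs fl Cmp Sg Fr En gasF gas)

variable {θ χ : ℂ}

/-! ### sums as sums over lists -/

/-- all configurations -/
def cfs : List (ℂ × Ty) → List Cf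
  | [] => [[]]
  | t :: Y => t.2.st.flatMap fun k => (cfs Y).map fun e => (t.1, k) :: e

lemma sum_flatMap {α β : Type*} (l : List α) (F : α → List β) (φ : β → ℂ) :
    ((l.flatMap F).map φ).sum = (l.map fun a => ((F a).map φ).sum).sum := by
  induction l with
  | nil => rfl
  | cons a l ih => rw [List.flatMap_cons, List.map_append, List.sum_append, ih, List.map_cons,
      List.sum_cons]

lemma sm_cfs (Y : List (ℂ × Ty)) (φ : Cf → ℂ) : sm Y φ = ((cfs Y).map φ).sum := by
  induction Y generalizing φ with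
  | nil => simp [sm, cfs]
  | cons t Y ih =>
    rw [NUTP.Gas.sm_cons, cfs, sum_flatMap]
    congr 1
    refine List.map_congr_left fun k _ => ?_
    rw [ih, List.map_map]
    rfl

lemma cfs_cmp {Y : List (ℂ × Ty)} {f : Cf} (hf : f ∈ cfs Y) : Cmp Y f := by
  induction Y generalizing f with
  | nil =>
    rw [cfs, List.mem_singleton] at hf
    subst hf
    exact List.Forall₂.nil
  | cons t Y ih =>
    rw [cfs, List.mem_flatMap] at hf
    obtain ⟨k, hk, hf⟩ := hf
    obtain ⟨e, he, rfl⟩ := List.mem_map.1 hf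
    exact List.Forall₂.cons ⟨rfl, hk⟩ (ih he)

lemma usm_fl (I : List ℂ) (φ : Cf → ℂ) :
    usm (fl I) φ = sch I fun e => φ (e.map fun c => (c.1, st c.2)) := by
  induction I generalizing φ with
  | nil => rfl
  | cons x I ih =>
    have e1 : fl (x :: I) = (x, Ty.F) :: fl I := rfl
    rw [e1]
    simp only [usm, sch, Ty.us, List.map_cons, List.map_nil, List.sum_cons, List.sum_nil, ih]
    rw [NUGas.sum3]
    simp only [st]
    ring

/-! ### the half rows of a configuration -/

/-- the points of the half rows of an object -/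
def pts (t : ℂ × Ty) : List ℂ := match t.2 with
  | .F => [t.1, t.1]
  | _ => [t.1]

lemma hl_pts {t : ℂ × Ty} (ht : t.2 = .F ∨ t.2 = .ro ∨ t.2 = .re ∨ t.2 = .lo ∨ t.2 = .le)
    {c : ℂ × K} (h1 : c.1 = t.1) (h2 : c.2 ∈ t.2.st) : (hl c).map Prod.fst = pts t := by
  unfold hl pts
  rw [List.map_map, ← h1]
  rcases ht with h | h | h | h | h <;> rw [h] at h2 ⊢ <;>
    simp only [Ty.st, List.mem_cons, List.not_mem_nil, or_false] at h2 <;>
    (try rcases h2 with h2 | h2 | h2 | h2 | h2) <;> (try rcases h2 with h2 | h2) <;> rw [h2] <;> rfl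

lemma hm_pts (c : ℂ × K) : (hm c).map Prod.fst = (hl c).map Prod.fst := by
  rcases c with ⟨x, k⟩
  cases k <;> rfl

lemma flat_pts {Y : List (ℂ × Ty)} (hY : Sg Y) {f : Cf} (hf : Cmp Y f) :
    (f.flatMap hl).map Prod.fst = Y.flatMap pts := by
  induction hf with
  | nil => rfl
  | cons h _ ih =>
    rw [List.flatMap_cons, List.map_append, List.flatMap_cons,
      hl_pts (hY _ List.mem_cons_self) h.1 h.2, ih fun t ht => hY t (List.mem_cons_of_mem _ ht)]

lemma fl_pts (J : List ℂ) : ((fl J).flatMap pts).Perm (J ++ J) := by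
  induction J with
  | nil => exact List.Perm.refl _
  | cons x J ih =>
    have e1 : (fl (x :: J)).flatMap pts = x :: x :: (fl J).flatMap pts := rfl
    rw [e1, List.cons_append]
    refine List.Perm.cons x ?_
    refine (List.Perm.cons x ih).trans ?_
    exact List.perm_middle.symm

lemma En_pts (τ : Bool) (q g : ℂ) : (En τ q g).flatMap pts = [q, g] := by
  cases τ <;> rfl

lemma Sg_En (τ : Bool) (q g : ℂ) (J : List ℂ) : Sg (En τ q g ++ fl J) := by
  intro t ht
  rcases List.mem_append.1 ht with h | h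
  · cases τ
    · simp only [En, Bool.false_eq_true, if_false, List.mem_cons, List.not_mem_nil, or_false] at h
      rcases h with rfl | rfl <;> simp
    · simp only [En, if_true, List.mem_cons, List.not_mem_nil, or_false] at h
      rcases h with rfl | rfl <;> simp
  · obtain ⟨x, _, rfl⟩ := List.mem_map.1 h
    exact Or.inl rfl

/-- points of a term -/
lemma Lf_pts {r h : ℂ} {f : Cf} {t : ℂ × List (ℂ × SignType)} (ht : t ∈ Lf θ χ r h f) :
    (t.2.map Prod.fst).Perm (h :: r :: (f.flatMap hl).map Prod.fst) := by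
  unfold Lf at ht
  rcases List.mem_cons.1 ht with rfl | ht
  · exact List.Perm.refl _
  · obtain ⟨p, hp, rfl⟩ := List.mem_map.1 ht
    have h1 := ((NUTG.foc_perm_cons hp).flatMap_right hl).map Prod.fst
    refine List.Perm.cons h (List.Perm.cons r ?_)
    rw [List.flatMap_cons, List.map_append] at h1
    refine List.Perm.trans ?_ h1.symm
    rw [List.map_append, hm_pts]

/-- number of occupied ended lines of world `g` -/
lemma oc_En {τ : Bool} {q g : ℂ} {J : List ℂ} {f : Cf} (hf : Cmp (En τ q g ++ fl J) f) :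
    tt oc f = 1 := by
  have key : ∀ {Y : List (ℂ × Ty)} {f : Cf}, Sg Y → Cmp Y f →
      tt oc f = (Y.map fun t => NUTP.Gas.no t.2).sum := by
    intro Y f hY hf
    induction hf with
    | nil => rfl
    | @cons t c Y f h _ ih =>
      rw [NUTP.Gas.tt_cons, List.map_cons, List.sum_cons,
        ih fun t ht => hY t (List.mem_cons_of_mem _ ht)]
      congr 1
      obtain ⟨_, h2⟩ := h
      rcases hY t List.mem_cons_self with h | h | h | h | h <;> rw [h] at h2 ⊢ <;>
        simp only [Ty.st, List.mem_cons, List.not_mem_nil, or_false] at h2 <;>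
        (try rcases h2 with h2 | h2 | h2 | h2 | h2) <;> (try rcases h2 with h2 | h2) <;> rw [h2] <;> rfl
  rw [key (Sg_En τ q g J) hf, List.map_append, List.sum_append, NUTP.Gas.no_En, NUTP.Gas.no_fl]
  rfl

/-! ### the main statement for `ER` -/

/-- the terms of `ER` -/
def LE (θ χ : ℂ) (τ : Bool) (J : List ℂ) (r h q g : ℂ) : List (ℂ × List (ℂ × SignType)) :=
  (cfs (En τ q g ++ fl J)).flatMap fun f => (Lf θ χ r h f).map fun t => (sn θ 1 1 * t.1, t.2)

lemma LE_pts {τ : Bool} {J : List ℂ} {r h q g : ℂ} {t : ℂ × List (ℂ × SignType)}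
    (ht : t ∈ LE θ χ τ J r h q g) : (t.2.map Prod.fst).Perm (h :: r :: q :: g :: (J ++ J)) := by
  unfold LE at ht
  obtain ⟨f, hf, ht⟩ := List.mem_flatMap.1 ht
  obtain ⟨t', ht', rfl⟩ := List.mem_map.1 ht
  refine (Lf_pts ht').trans ?_
  refine List.Perm.cons h (List.Perm.cons r ?_)
  rw [flat_pts (Sg_En τ q g J) (cfs_cmp hf), List.flatMap_append, En_pts]
  exact List.Perm.append_left [q, g] (fl_pts J)

theorem ER_TS (hθ : θ ^ 8 = -1) (τ : Bool) (J : List ℂ) {r h q g : ℂ} {I : List ℂ}
    (hG : G θ (r :: h :: q :: g :: (I ++ J))) :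
    (gasF θ χ τ q g).ER I J r h = ((LE θ χ τ J r h q g).map fun t => t.1 * TS θ t.2 I).sum := by
  have hsp := NUTP.Gas.sp_of_G hG
  have hnz : ∀ x ∈ r :: h :: q :: g :: (I ++ J), x ≠ 0 := fun x hx => by
    have := hG.1 (x ^ 2) (List.mem_map_of_mem hx)
    intro h0
    rw [h0] at this
    exact this (by ring)
  -- the list of the lines of the two worlds
  have hperm : (h :: (I ++ ((En τ q g).map Prod.fst ++ J))).Perm (h :: q :: g :: (I ++ J)) := by
    have e : (En τ q g).map Prod.fst = [q, g] := by cases τ <;> rfl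
    rw [e]
    refine List.Perm.cons h ?_
    refine (List.perm_append_comm_assoc I [q, g] J).trans ?_
    exact List.Perm.refl _
  have hfst : ((h, Ty.lo) :: fl I ++ (En τ q g ++ fl J)).map Prod.fst =
      h :: (I ++ ((En τ q g).map Prod.fst ++ J)) := by
    simp [fl, Function.comp_def]
  have hX : Fr ((h, Ty.lo) :: fl I) := by
    intro t ht
    rcases List.mem_cons.1 ht with rfl | ht
    · simp
    · obtain ⟨x, _, rfl⟩ := List.mem_map.1 ht
      simp
  have hsp' := List.pairwise_cons.1 hsp
  have hsX : (((h, Ty.lo) :: fl I ++ (En τ q g ++ fl J)).map Prod.fst).Pairwise (Sp θ) := by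
    rw [hfst]
    exact (hperm.pairwise_iff (fun {_ _} h => Sp.symm hθ h)).2 hsp'.2
  have hr : r ≠ 0 := hnz r List.mem_cons_self
  have h1 : (gasF θ χ τ q g).ER I J r h =
      gas θ χ ((r, .re) :: ((h, .lo) :: fl I)) (En τ q g ++ fl J) := rfl
  rw [h1, NUTP.Gas.gas_re hθ hX (Sg_En τ q g J) (fun t ht => by
      have : t.1 ∈ ((h, Ty.lo) :: fl I ++ (En τ q g ++ fl J)).map Prod.fst :=
        List.mem_map_of_mem ht
      rw [hfst] at this
      exact hnz _ (List.mem_cons_of_mem _ (hperm.subset this)))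
    (List.pairwise_map.1 hsX)]
  have h2 : ∀ φ : Cf → ℂ, usm ((h, Ty.lo) :: fl I) φ = sch I fun e => φ (cfg h e) := by
    intro φ
    simp only [usm, Ty.us, List.map_cons, List.map_nil, List.sum_cons, List.sum_nil, add_zero]
    rw [usm_fl]
    rfl
  rw [h2]
  -- exchange the sums
  unfold LE
  rw [sum_flatMap]
  have h3 : ∀ e : List (ℂ × SignType), e.map Prod.fst = I →
      (sm (En τ q g ++ fl J) fun f => tm θ χ 0 0 0 (-1) (cfg h e) f *
        curc θ (me θ) (obs (cfg h e) f) r) =
      ((cfs (En τ q g ++ fl J)).map fun f => ((Lf θ χ r h f).map fun t => t.1 * tT θ t.2 e).sum).sum := by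
    intro e he
    rw [sm_cfs]
    congr 1
    refine List.map_congr_left fun f hf => ?_
    have hf' := cfs_cmp hf
    have hlist : r :: ((cfg h e).map Prod.fst ++ f.map Prod.fst) =
        r :: ((h, Ty.lo) :: fl I ++ (En τ q g ++ fl J)).map Prod.fst := by
      rw [hfst, hf'.fst]
      simp [cfg, fl, ← he, Function.comp_def]
    have hpm : (r :: ((cfg h e).map Prod.fst ++ f.map Prod.fst)).Perm
        (r :: h :: q :: g :: (I ++ J)) := by
      rw [hlist, hfst]
      exact List.Perm.cons r hperm
    refine main_term hθ (fun c hc => (Sg_En τ q g J).cmp hf' hc) (oc_En hf') hr (fun x hx => ?_) ?_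
    · exact hnz x (hpm.subset (List.mem_cons_of_mem _ hx))
    · exact (hpm.pairwise_iff (fun {_ _} h => Sp.symm hθ h)).2 hsp
  rw [NUGas.sch_congr fun e he => h3 e he]
  have h4 : ∀ {α : Type} (l : List α) (ψ : α → List (ℂ × SignType) → ℂ),
      (sch I fun e => (l.map fun a => ψ a e).sum) = (l.map fun a => sch I (ψ a)).sum := by
    intro α l ψ
    induction l with
    | nil =>
      simp only [List.map_nil, List.sum_nil]
      have := NUGas.sch_mul_left I (0 : ℂ) (fun _ => 0)
      simpa using this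
    | cons a l ih =>
      simp only [List.map_cons, List.sum_cons, NUGas.sch_add, ih]
  rw [h4, ← List.sum_map_mul_left]
  congr 1
  refine List.map_congr_left fun f _ => ?_
  rw [h4, ← List.sum_map_mul_left, List.map_map]
  congr 1
  refine List.map_congr_left fun t _ => ?_
  simp only [Function.comp_apply]
  rw [TS_eq_sch, NUGas.sch_mul_left]
  ring

end SPN

end
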