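import Pool.Agent.NUTP.Uniq
import Pool.Agent.SPN.PhB3

/-!
# The mirror of the charge sum, and `RE`
-/

set_option autoImplicit false

noncomputable section

namespace SPN

open NUGas (sch tot)
open NUTP (sn cs sk G)
open NUTP.Gas (gasF sn_th_inv sn_inv2 sn_inv3 sn_inv4 sn_inv5 sn_inv6)

variable {θ χ : ℂ}

/-- opposite charges -/
def ng (f : List (ℂ × SignType)) : List (ℂ × SignType) := f.map fun c => (c.1, -c.2)

lemma ng_fst (f : List (ℂ × SignType)) : (ng f).map Prod.fst = f.map Prod.fst := by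
  unfold ng
  rw [List.map_map]
  rfl

lemma tot_ng (f : List (ℂ × SignType)) : tot (ng f) = -tot f := by
  induction f with
  | nil => rfl
  | cons c f ih =>
    have e : ng (c :: f) = (c.1, -c.2) :: ng f := rfl
    rw [e, NUGas.tot_cons, NUGas.tot_cons, ih]
    rcases c with ⟨x, b⟩
    rcases b with _ | _ | _ <;> simp [add_comm]

lemma sch_ng (I : List ℂ) (φ : List (ℂ × SignType) → ℂ) : sch I φ = sch I fun e => φ (ng e) := by
  induction I generalizing φ with
  | nil => rfl
  | cons x I ih =>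
    simp only [sch]
    rw [NUGas.sum3, NUGas.sum3, ih fun e => φ ((x, .zero) :: e), ih fun e => φ ((x, .neg) :: e),
      ih fun e => φ ((x, .pos) :: e)]
    have e1 : ∀ (a : SignType) (e : List (ℂ × SignType)), ng ((x, a) :: e) = (x, -a) :: ng e :=
      fun _ _ => rfl
    simp only [e1]
    have e2 : -SignType.zero = SignType.zero := rfl
    have e3 : -SignType.neg = SignType.pos := rfl
    have e4 : -SignType.pos = SignType.neg := rfl
    rw [e2, e3, e4]
    ring

lemma st_neg (b : SignType) : st (-b) = NUTP.Gas.mir (st b) := by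
  rcases b with _ | _ | _ <;> rfl

lemma T_mir (hθ : θ ^ 8 = -1) (b e : SignType) (u : ℂ) : T θ⁻¹ b (-e) u = T θ (-b) e u := by
  have e2 : -SignType.zero = SignType.zero := rfl
  have e3 : -SignType.neg = SignType.pos := rfl
  have e4 : -SignType.pos = SignType.neg := rfl
  rcases b with _ | _ | _ <;> rcases e with _ | _ | _ <;>
    simp only [e2, e3, e4, T, sn_th_inv hθ, sn_inv2 hθ, sn_inv3 hθ, sn_inv4 hθ, sn_inv5 hθ,
      sn_inv6 hθ] <;> ring

lemma cls_st (b : SignType) : NUTP.Gas.cls (st b) = .f := by rcases b with _ | _ | _ <;> rfl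

lemma ownT_mir (hθ : θ ^ 8 = -1) (e : List (ℂ × SignType)) : ownT θ⁻¹ (ng e) = ownT θ e := by
  induction e with
  | nil => rfl
  | cons c e ih =>
    have e1 : ng (c :: e) = (c.1, -c.2) :: ng e := rfl
    rw [e1, ownT, ownT, ih, st_neg, NUTP.Gas.w1_mir hθ]
    congr 2
    unfold ng
    rw [List.map_map]
    congr 1
    refine List.map_congr_left fun d _ => ?_
    simp only [Function.comp_apply]
    rw [st_neg, NUTP.Gas.ff_mir hθ (cls_st _) (cls_st _)]

/-- **the mirror of the charge sum** -/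
theorem TS_mir (hθ : θ ^ 8 = -1) (f : List (ℂ × SignType)) (I : List ℂ) :
    TS θ⁻¹ f I = TS θ (ng f) I := by
  unfold TS
  rw [sch_ng]
  refine NUGas.sch_congr fun e _ => ?_
  rw [tot_ng, tot_ng, ownT_mir hθ]
  have h1 : ((ng e).map fun c => (f.map fun d => T θ⁻¹ d.2 c.2 (c.1 / d.1)).prod).prod =
      (e.map fun c => ((ng f).map fun d => T θ d.2 c.2 (c.1 / d.1)).prod).prod := by
    unfold ng
    rw [List.map_map]
    congr 1
    refine List.map_congr_left fun c _ => ?_
    rw [List.map_map]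
    simp only [Function.comp_apply]
    congr 1
    refine List.map_congr_left fun d _ => ?_
    simp only [Function.comp_apply]
    exact T_mir hθ d.2 c.2 _
  rw [h1]
  by_cases h : 2 * tot e = -tot f
  · rw [if_pos h, if_pos (by rw [mul_neg, h, neg_neg])]
  · rw [if_neg h, if_neg fun h' => h (by rw [← h', mul_neg, neg_neg])]

/-- the terms of `RE` -/
def LR (θ χ : ℂ) (τ : Bool) (J : List ℂ) (p h q g : ℂ) : List (ℂ × List (ℂ × SignType)) :=
  (LE θ⁻¹ χ⁻¹ (!τ) J h p g q).map fun t => (t.1, ng t.2)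

lemma LR_pts {τ : Bool} {J : List ℂ} {p h q g : ℂ} {t : ℂ × List (ℂ × SignType)}
    (ht : t ∈ LR θ χ τ J p h q g) : (t.2.map Prod.fst).Perm (p :: h :: g :: q :: (J ++ J)) := by
  unfold LR at ht
  obtain ⟨t', ht', rfl⟩ := List.mem_map.1 ht
  show ((ng t'.2).map Prod.fst).Perm _
  rw [ng_fst]
  exact LE_pts ht'

theorem RE_TS (hθ : θ ^ 8 = -1) (τ : Bool) (J : List ℂ) {p h q g : ℂ} {I : List ℂ}
    (hG : G θ (p :: h :: q :: g :: (I ++ J))) :
    (gasF θ χ τ q g).RE I J p h = ((LR θ χ τ J p h q g).map fun t => t.1 * TS θ t.2 I).sum := by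
  have hθ' : θ⁻¹ ^ 8 = -1 := by rw [inv_pow, hθ]; norm_num
  have h1 : (gasF θ χ τ q g).RE I J p h = (gasF θ χ τ q g).mir.ER I J h p := rfl
  have hG' : G θ⁻¹ (h :: p :: g :: q :: (I ++ J)) := by
    refine NUTP.G.inv hθ (NUTP.G.perm hθ ?_ hG)
    exact (List.Perm.swap h p _).trans (((List.Perm.swap g q _).cons p).cons h)
  rw [h1, NUTP.Gas.gasF_mir hθ, ER_TS hθ' (!τ) J hG']
  unfold LR
  rw [List.map_map]
  congr 1
  refine List.map_congr_left fun t _ => ?_
  simp only [Function.comp_apply]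
  rw [TS_mir hθ]

end SPN

end
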