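import Pool.Agent.SPN.NRul
import Pool.Agent.SPN.PhD

/-!
# The trigonometric charge sum in the field of half rows with charges is `S`

Variables of `NUTP`: a line is `a` (nonzero, not squared), `θ ^ 8 = -1`, `η = θ ^ 2`.
`TS_eq`: up to explicit powers and a constant `TS θ f I` is `S` at the squares of the lines.
-/

set_option autoImplicit false

namespace SPN

open NUGas

open NUTP (sn)

variable {θ : ℂ}

/-! ### `sn` and `lin` -/

lemma thNe (hθ : θ ^ 8 = -1) : θ ≠ 0 := by rintro rfl; norm_num at hθ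

lemma sn_lin (hθ : θ ^ 8 = -1) {k : ℕ} (hk : k ≤ 12) {a c : ℂ} (ha : a ≠ 0) (hc : c ≠ 0) :
    sn θ k (a / c) = θ ^ (12 - k) * lin (θ ^ 2) k (a ^ 2) (c ^ 2) * (2 * a * c)⁻¹ := by
  have h0 := thNe hθ
  have h1 : θ ^ (12 - k) * (θ ^ k * θ ^ 4) = 1 := by
    rw [← pow_add, ← pow_add, show 12 - k + (k + 4) = 8 + 8 by omega, pow_add, hθ]; norm_num
  unfold sn lin
  rw [← pow_mul, mul_comm 2 k, pow_mul]
  have ht : θ ^ k ≠ 0 := pow_ne_zero _ h0
  set t := θ ^ k
  set s := θ ^ (12 - k)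
  field_simp
  linear_combination (-(t ^ 2 * a ^ 2 - c ^ 2)) * h1

lemma sn_inv (hθ : θ ^ 8 = -1) {k : ℕ} (hk : k ≤ 12) {a c : ℂ} (ha : a ≠ 0) (hc : c ≠ 0) :
    (sn θ k (a / c))⁻¹ = θ ^ (4 + k) * (lin (θ ^ 2) k (a ^ 2) (c ^ 2))⁻¹ * (2 * a * c) := by
  have h0 := thNe hθ
  have h1 : (θ ^ (12 - k))⁻¹ = θ ^ (4 + k) := by
    rw [inv_eq_iff_eq_inv, eq_comm]
    refine inv_eq_of_mul_eq_one_left ?_
    rw [← pow_add, show 12 - k + (4 + k) = 8 + 8 by omega, pow_add, hθ]; norm_num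
  rw [sn_lin hθ hk ha hc, mul_inv, mul_inv, inv_inv, h1]

lemma h16 (hθ : θ ^ 8 = -1) : θ ^ 16 = 1 := by
  rw [show 16 = 8 + 8 from rfl, pow_add, hθ]; norm_num

lemma ff_F (hθ : θ ^ 8 = -1) {a c : ℂ} (ha : a ≠ 0) (hc : c ≠ 0) (x y : SignType) :
    F (θ ^ 2) x y (a ^ 2) (c ^ 2) =
      NUTP.Gas.ff θ (st x) (st y) (a / c) * (2 * a * c) ^ (2 * (1 + (x : ℤ) * (y : ℤ))) := by
  have h0 := thNe hθ
  have hP : 2 * a * c ≠ 0 := mul_ne_zero (mul_ne_zero two_ne_zero ha) hc
  have S := fun k (hk : k ≤ 12) => sn_lin hθ hk ha hc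
  have V := fun k (hk : k ≤ 12) => sn_inv hθ hk ha hc
  have e2 : (2 * a * c) ^ (2 : ℤ) = (2 * a * c) ^ 2 := by norm_cast
  have e4 : (2 * a * c) ^ (4 : ℤ) = (2 * a * c) ^ 4 := by norm_cast
  have e0 : (2 * a * c) ^ (0 : ℤ) = 1 := zpow_zero _
  have S2 := S 2 (by norm_num)
  have S3 := S 3 (by norm_num)
  have S5 := S 5 (by norm_num)
  have S6 := S 6 (by norm_num)
  have V0 := V 0 (by norm_num)
  have V1 := V 1 (by norm_num)
  have V7 := V 7 (by norm_num)
  have k8 : θ ^ 8 = -1 := hθ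
  clear S V
  obtain ⟨u, hu⟩ : ∃ u, u = a / c := ⟨_, rfl⟩
  rw [← hu] at S2 S3 S5 S6 V0 V1 V7 ⊢
  generalize 2 * a * c = P at hP S2 S3 S5 S6 V0 V1 V7 e0 e2 e4 ⊢
  rcases x with _ | _ | _ <;> rcases y with _ | _ | _ <;>
    simp only [st, NUTP.Gas.ff, F, div_eq_mul_inv, mul_inv, V0, V1, V7] <;>
    simp only [S2, S3, S5, S6] <;>
    generalize (lin (θ ^ 2) 0 (a ^ 2) (c ^ 2))⁻¹ = i0 <;>
    generalize (lin (θ ^ 2) 1 (a ^ 2) (c ^ 2))⁻¹ = i1 <;>
    generalize (lin (θ ^ 2) 7 (a ^ 2) (c ^ 2))⁻¹ = i7 <;>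
    generalize lin (θ ^ 2) 2 (a ^ 2) (c ^ 2) = L2 <;>
    generalize lin (θ ^ 2) 3 (a ^ 2) (c ^ 2) = L3 <;>
    generalize lin (θ ^ 2) 5 (a ^ 2) (c ^ 2) = L5 <;>
    generalize lin (θ ^ 2) 6 (a ^ 2) (c ^ 2) = L6
  · rw [show 2 * (1 + ((SignType.zero : SignType) : ℤ) * ((SignType.zero : SignType) : ℤ)) = 2
      from rfl, e2]
    field_simp
    linear_combination (-(L2 * L3 * L5 * L6 * i1 * i7) *
      (θ ^ 40 - θ ^ 32 + θ ^ 24 - θ ^ 16 + θ ^ 8 - 1)) * k8
  · rw [show 2 * (1 + ((SignType.zero : SignType) : ℤ) * ((SignType.neg : SignType) : ℤ)) = 2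
      from rfl, e2]
    field_simp
    linear_combination ((L3 * L5 * L6 * i0) * θ ^ 2 * (θ ^ 16 - θ ^ 8 + 1)) * k8
  · rw [show 2 * (1 + ((SignType.zero : SignType) : ℤ) * ((SignType.pos : SignType) : ℤ)) = 2
      from rfl, e2]
    field_simp
    linear_combination (-((L2 * L3 * L5 * i0) * θ ^ 14 * (θ ^ 8 - 1))) * k8
  · rw [show 2 * (1 + ((SignType.neg : SignType) : ℤ) * ((SignType.zero : SignType) : ℤ)) = 2
      from rfl, e2]
    field_simp
    linear_combination (-((L2 * L3 * L5 * i0) * θ ^ 14 * (θ ^ 8 - 1))) * k8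
  · rw [show 2 * (1 + ((SignType.neg : SignType) : ℤ) * ((SignType.neg : SignType) : ℤ)) = 4
      from rfl, e4]
    field_simp
    linear_combination (-((L2 * L3 * L5 * L6) * (θ ^ 24 - θ ^ 16 + θ ^ 8 - 1))) * k8
  · rw [show 2 * (1 + ((SignType.neg : SignType) : ℤ) * ((SignType.pos : SignType) : ℤ)) = 0
      from rfl, e0]
    field_simp
    linear_combination ((L2 * L3 * i0 * i7) * θ ^ 10 * (θ ^ 16 - θ ^ 8 + 1)) * k8
  · rw [show 2 * (1 + ((SignType.pos : SignType) : ℤ) * ((SignType.zero : SignType) : ℤ)) = 2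
      from rfl, e2]
    field_simp
    linear_combination ((L3 * L5 * L6 * i0) * θ ^ 2 * (θ ^ 16 - θ ^ 8 + 1)) * k8
  · rw [show 2 * (1 + ((SignType.pos : SignType) : ℤ) * ((SignType.neg : SignType) : ℤ)) = 0
      from rfl, e0]
    field_simp
    linear_combination (-((L5 * L6 * i0 * i1) * θ ^ 6 * (θ ^ 8 - 1))) * k8
  · rw [show 2 * (1 + ((SignType.pos : SignType) : ℤ) * ((SignType.pos : SignType) : ℤ)) = 4
      from rfl, e4]
    field_simp
    linear_combination (-((L2 * L3 * L5 * L6) * (θ ^ 24 - θ ^ 16 + θ ^ 8 - 1))) * k8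

/-! ### the half rows -/

/-- sign of a half row -/
noncomputable def sg (b : SignType) (k : ℤ) : ℂ := if b = 0 then (-1) ^ k else 1

lemma sg_add (b : SignType) (k l : ℤ) : sg b (k + l) = sg b k * sg b l := by
  unfold sg
  split_ifs
  · exact zpow_add₀ (by norm_num) k l
  · simp

lemma sg_zero (b : SignType) : sg b 0 = 1 := by
  unfold sg; split_ifs <;> simp

lemma sg_sq (b : SignType) (k : ℤ) : sg b k * sg b k = 1 := by
  unfold sg
  split_ifs
  · rw [← mul_zpow]; norm_num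
  · simp

lemma T_H (hθ : θ ^ 8 = -1) {a z : ℂ} (ha : a ≠ 0) (hz : z ≠ 0) (b x : SignType) :
    H θ (θ ^ 2) b (z ^ 2) x (a ^ 2) =
      sg b x * (T θ b x (a / z) * (2 * a * z) ^ (1 - (x : ℤ) * (b : ℤ))) := by
  have h0 := thNe hθ
  have hP : 2 * a * z ≠ 0 := mul_ne_zero (mul_ne_zero two_ne_zero ha) hz
  have S := fun k (hk : k ≤ 12) => sn_lin hθ hk ha hz
  have e1 : (2 * a * z) ^ (1 : ℤ) = (2 * a * z) := zpow_one _
  have e2 : (2 * a * z) ^ (2 : ℤ) = (2 * a * z) ^ 2 := by norm_cast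
  have e0 : (2 * a * z) ^ (0 : ℤ) = 1 := zpow_zero _
  have S2 := S 2 (by norm_num)
  have S3 := S 3 (by norm_num)
  have S4 := S 4 (by norm_num)
  have S5 := S 5 (by norm_num)
  have S6 := S 6 (by norm_num)
  have k8 : θ ^ 8 = -1 := hθ
  clear S
  generalize a / z = u at S2 S3 S4 S5 S6 ⊢
  generalize 2 * a * z = P at hP S2 S3 S4 S5 S6 e0 e1 e2 ⊢
  have s0 : ∀ k, sg SignType.zero k = (-1) ^ k := fun k => by simp [sg]
  have s1 : ∀ k, sg SignType.pos k = 1 := fun k => by simp [sg]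
  have s2 : ∀ k, sg SignType.neg k = 1 := fun k => by simp [sg]
  rcases b with _ | _ | _ <;> rcases x with _ | _ | _ <;>
    simp only [T, H, s0, s1, s2] <;>
    try simp only [S2, S3, S4, S5, S6] <;>
    generalize lin (θ ^ 2) 2 (a ^ 2) (z ^ 2) = L2 <;>
    generalize lin (θ ^ 2) 3 (a ^ 2) (z ^ 2) = L3 <;>
    generalize lin (θ ^ 2) 4 (a ^ 2) (z ^ 2) = L4 <;>
    generalize lin (θ ^ 2) 5 (a ^ 2) (z ^ 2) = L5 <;>
    generalize lin (θ ^ 2) 6 (a ^ 2) (z ^ 2) = L6
  · rw [show 1 - ((SignType.zero : SignType) : ℤ) * ((SignType.zero : SignType) : ℤ) = 1 from rfl,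
      e1, show (-1 : ℂ) ^ (((SignType.zero : SignType) : ℤ)) = 1 from zpow_zero _]
    field_simp
    linear_combination (-L4) * k8
  · rw [show 1 - ((SignType.neg : SignType) : ℤ) * ((SignType.zero : SignType) : ℤ) = 1 from rfl,
      e1]
    rw [show (-1 : ℂ) ^ (((SignType.neg : SignType) : ℤ)) = -1 by simp [SignType.cast]]
    field_simp
    linear_combination (θ * L3) * k8
  · rw [show 1 - ((SignType.pos : SignType) : ℤ) * ((SignType.zero : SignType) : ℤ) = 1 from rfl,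
      e1]
    rw [show (-1 : ℂ) ^ (((SignType.pos : SignType) : ℤ)) = -1 by simp [SignType.cast]]
    field_simp
    ring
  · rw [show 1 - ((SignType.zero : SignType) : ℤ) * ((SignType.neg : SignType) : ℤ) = 1 from rfl,
      e1]
    field_simp
    ring
  · rw [show 1 - ((SignType.neg : SignType) : ℤ) * ((SignType.neg : SignType) : ℤ) = 0 from rfl,
      e0]
    field_simp
  · rw [show 1 - ((SignType.pos : SignType) : ℤ) * ((SignType.neg : SignType) : ℤ) = 2 from rfl,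
      e2]
    field_simp
    linear_combination (-(θ ^ 5 * L5 * L6)) * k8
  · rw [show 1 - ((SignType.zero : SignType) : ℤ) * ((SignType.pos : SignType) : ℤ) = 1 from rfl,
      e1]
    field_simp
    linear_combination (-(θ * L3)) * k8
  · rw [show 1 - ((SignType.neg : SignType) : ℤ) * ((SignType.pos : SignType) : ℤ) = 2 from rfl,
      e2]
    field_simp
    linear_combination (-(θ ^ 3 * L2 * L3 * (θ ^ 8 - 1))) * k8
  · rw [show 1 - ((SignType.pos : SignType) : ℤ) * ((SignType.pos : SignType) : ℤ) = 0 from rfl,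
      e0]
    field_simp

/-! ### lists -/

/-- the squares of the parameters -/
def sqL (e : List (ℂ × SignType)) : List (ℂ × SignType) := e.map fun c => (c.1 ^ 2, c.2)

/-- powers with the charges -/
noncomputable def Zc (e : List (ℂ × SignType)) (k : ℤ) : ℂ :=
  (e.map fun c => c.1 ^ ((c.2 : ℤ) * k)).prod

/-- signs of the half rows -/
noncomputable def SG (f : List (ℂ × SignType)) (k : ℤ) : ℂ := (f.map fun d => sg d.2 k).prod

/-- pairs -/
noncomputable def PP : List ℂ → ℂ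
  | [] => 1
  | a :: X => (X.map fun b => (2 * a * b) ^ 2).prod * PP X

lemma tot_cons (c : ℂ × SignType) (e : List (ℂ × SignType)) :
    tot (c :: e) = (c.2 : ℤ) + tot e := by simp [tot]

lemma tot_sqL (e : List (ℂ × SignType)) : tot (sqL e) = tot e := by
  unfold tot sqL
  rw [List.map_map]
  rfl

lemma Zc_cons (c : ℂ × SignType) (e : List (ℂ × SignType)) (k : ℤ) :
    Zc (c :: e) k = c.1 ^ ((c.2 : ℤ) * k) * Zc e k := by simp [Zc]

lemma Zc_add {e : List (ℂ × SignType)} (he : ∀ c ∈ e, c.1 ≠ 0) (k l : ℤ) :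
    Zc e (k + l) = Zc e k * Zc e l := by
  unfold Zc
  rw [← List.prod_map_mul]
  congr 1
  refine List.map_congr_left fun c hc => ?_
  rw [mul_add, zpow_add₀ (he c hc)]

lemma Zc_zero (e : List (ℂ × SignType)) : Zc e 0 = 1 := by
  unfold Zc
  simp

lemma Zc_ne {e : List (ℂ × SignType)} (he : ∀ c ∈ e, c.1 ≠ 0) (k : ℤ) : Zc e k ≠ 0 := by
  unfold Zc
  refine List.prod_ne_zero fun h => ?_
  obtain ⟨c, hc, h⟩ := List.mem_map.1 h
  exact zpow_ne_zero _ (he c hc) h

lemma SG_add (f : List (ℂ × SignType)) (k l : ℤ) : SG f (k + l) = SG f k * SG f l := by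
  unfold SG
  rw [← List.prod_map_mul]
  congr 1
  exact List.map_congr_left fun d _ => sg_add d.2 k l

lemma SG_zero (f : List (ℂ × SignType)) : SG f 0 = 1 := by
  unfold SG
  simp [sg_zero]

lemma SG_sq (f : List (ℂ × SignType)) (k : ℤ) : SG f k * SG f k = 1 := by
  unfold SG
  rw [← List.prod_map_mul]
  simp [sg_sq]

/-- powers of one line against a list -/
lemma prod_pow_line {a : ℂ} (ha : a ≠ 0) (x : ℤ) {f : List (ℂ × SignType)}
    (hf : ∀ d ∈ f, d.1 ≠ 0) :
    (f.map fun d => (2 * a * d.1) ^ (x * (d.2 : ℤ))).prod = (2 * a) ^ (x * tot f) * Zc f x := by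
  have h2 : 2 * a ≠ 0 := mul_ne_zero two_ne_zero ha
  induction f with
  | nil => simp [tot, Zc]
  | cons d f ih =>
    rw [List.map_cons, List.prod_cons, ih fun d hd => hf d (List.mem_cons_of_mem _ hd), tot_cons,
      Zc_cons, mul_zpow, mul_add, zpow_add₀ h2, mul_comm (d.2 : ℤ) x]
    ring

lemma wt_w1 (a : ℂ) (x : SignType) :
    wt (2 * sn θ 1 1) x (a ^ 2) =
      2 ^ ((x : ℤ) * x) * a ^ (2 * ((x : ℤ) * x)) * NUTP.Gas.w1 θ (st x) := by
  rcases x with _ | _ | _ <;> simp [wt, st, NUTP.Gas.w1, SignType.cast] <;> ring_nf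

/-- **everything inside a group** -/
lemma own_T (hθ : θ ^ 8 = -1) {e : List (ℂ × SignType)} (he : ∀ c ∈ e, c.1 ≠ 0) :
    own (θ ^ 2) (2 * sn θ 1 1) (sqL e) =
      2 ^ (tot e * tot e) * Zc e (2 * tot e) * PP (e.map Prod.fst) * ownT θ e := by
  induction e with
  | nil => simp [own, ownT, sqL, PP, tot, Zc]
  | cons c e ih =>
    have hc : c.1 ≠ 0 := he c List.mem_cons_self
    have he' : ∀ d ∈ e, d.1 ≠ 0 := fun d hd => he d (List.mem_cons_of_mem _ hd)
    have h2 : 2 * c.1 ≠ 0 := mul_ne_zero two_ne_zero hc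
    have ih := ih he'
    have e1 : sqL (c :: e) = (c.1 ^ 2, c.2) :: sqL e := rfl
    have e2 : ((sqL e).map fun d => F (θ ^ 2) c.2 d.2 (c.1 ^ 2) d.1).prod =
        (e.map fun d => NUTP.Gas.ff θ (st c.2) (st d.2) (c.1 / d.1)).prod *
        (((e.map Prod.fst).map fun b => (2 * c.1 * b) ^ 2).prod *
        ((2 * c.1) ^ (2 * (c.2 : ℤ) * tot e) * Zc e (2 * (c.2 : ℤ)))) := by
      rw [← prod_pow_line hc _ he', List.map_map, ← List.prod_map_mul, ← List.prod_map_mul]
      unfold sqL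
      rw [List.map_map]
      congr 1
      refine List.map_congr_left fun d hd => ?_
      have hP : 2 * c.1 * d.1 ≠ 0 := mul_ne_zero h2 (he' d hd)
      simp only [Function.comp]
      rw [ff_F hθ hc (he' d hd), mul_add, mul_one, zpow_add₀ hP]
      rw [show (2 * c.1 * d.1) ^ (2 : ℤ) = (2 * c.1 * d.1) ^ 2 by norm_cast,
        mul_assoc (2 : ℤ) (c.2 : ℤ)]
    rw [e1]
    simp only [own, ownT]
    rw [e2, ih, wt_w1, List.map_cons, PP, tot_cons, Zc_cons,
      show 2 * ((c.2 : ℤ) + tot e) = 2 * (c.2 : ℤ) + 2 * tot e by ring, Zc_add he',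
      show ((c.2 : ℤ) + tot e) * ((c.2 : ℤ) + tot e) =
        (c.2 : ℤ) * (c.2 : ℤ) + (2 * (c.2 : ℤ) * tot e) + tot e * tot e by ring,
      zpow_add₀ two_ne_zero, zpow_add₀ two_ne_zero,
      show (c.2 : ℤ) * (2 * (c.2 : ℤ) + 2 * tot e) = 2 * ((c.2 : ℤ) * (c.2 : ℤ)) +
        2 * (c.2 : ℤ) * tot e by ring, zpow_add₀ hc, mul_zpow]
    ring

/-- one line against the half rows -/
lemma HL_T (hθ : θ ^ 8 = -1) {a : ℂ} (ha : a ≠ 0) (x : SignType) {f : List (ℂ × SignType)}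
    (hf : ∀ d ∈ f, d.1 ≠ 0) :
    HL θ (θ ^ 2) (sqL f) x (a ^ 2) = SG f x * ((f.map fun d => T θ d.2 x (a / d.1)).prod *
      (2 ^ ((f.length : ℤ) - x * tot f) * a ^ ((f.length : ℤ) - x * tot f) *
        (f.map Prod.fst).prod * Zc f (-x))) := by
  induction f with
  | nil => simp [HL, sqL, SG, tot, Zc]
  | cons d f ih =>
    have hd : d.1 ≠ 0 := hf d List.mem_cons_self
    have ih := ih fun d hd => hf d (List.mem_cons_of_mem _ hd)
    have hP : 2 * a * d.1 ≠ 0 := mul_ne_zero (mul_ne_zero two_ne_zero ha) hd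
    unfold HL sqL at ih ⊢
    rw [List.map_cons, List.map_cons, List.prod_cons, ih, T_H hθ ha hd, tot_cons, Zc_cons,
      List.length_cons]
    simp only [SG, List.map_cons, List.prod_cons]
    have e1 : (((f.length + 1 : ℕ) : ℤ) - x * ((d.2 : ℤ) + tot f)) =
        (1 - (x : ℤ) * (d.2 : ℤ)) + ((f.length : ℤ) - x * tot f) := by push_cast; ring
    rw [e1, zpow_add₀ two_ne_zero, zpow_add₀ ha, mul_zpow, mul_zpow,
      show (d.1 ^ (1 - (x : ℤ) * (d.2 : ℤ)) : ℂ) = d.1 * d.1 ^ ((d.2 : ℤ) * (-(x : ℤ))) by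
        rw [sub_eq_add_neg, zpow_add₀ hd, zpow_one, mul_neg, mul_comm (d.2 : ℤ)]]
    ring

/-- **all lines against the half rows** -/
lemma field_T (hθ : θ ^ 8 = -1) {e : List (ℂ × SignType)} (he : ∀ c ∈ e, c.1 ≠ 0)
    {f : List (ℂ × SignType)} (hf : ∀ d ∈ f, d.1 ≠ 0) :
    ((sqL e).map fun c => HL θ (θ ^ 2) (sqL f) c.2 c.1).prod =
      SG f (tot e) * ((e.map fun c => (f.map fun d => T θ d.2 c.2 (c.1 / d.1)).prod).prod *
        (2 ^ ((e.length : ℤ) * f.length - tot e * tot f) *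
          ((e.map Prod.fst).prod ^ f.length * Zc e (-tot f)) *
        ((f.map Prod.fst).prod ^ e.length * Zc f (-tot e)))) := by
  induction e with
  | nil => simp [sqL, SG_zero, tot, Zc]
  | cons c e ih =>
    have hc : c.1 ≠ 0 := he c List.mem_cons_self
    have ih := ih fun d hd => he d (List.mem_cons_of_mem _ hd)
    have e1 : sqL (c :: e) = (c.1 ^ 2, c.2) :: sqL e := rfl
    rw [e1, List.map_cons, List.prod_cons, ih, HL_T hθ hc c.2 hf, tot_cons, Zc_cons,
      List.length_cons, SG_add, neg_add, Zc_add hf]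
    simp only [List.map_cons, List.prod_cons]
    rw [show ((e.length + 1 : ℕ) : ℤ) * f.length - ((c.2 : ℤ) + tot e) * tot f =
        ((f.length : ℤ) - c.2 * tot f) + ((e.length : ℤ) * f.length - tot e * tot f) by
          push_cast; ring,
      zpow_add₀ two_ne_zero, mul_pow, pow_succ,
      show (c.1 ^ ((f.length : ℤ) - (c.2 : ℤ) * tot f) : ℂ) =
        c.1 ^ f.length * c.1 ^ ((c.2 : ℤ) * (-tot f)) by
        rw [sub_eq_add_neg, zpow_add₀ hc, zpow_natCast, mul_neg]]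
    ring

lemma PP_eq (I : List ℂ) :
    PP I = 2 ^ (I.length * (I.length - 1)) * I.prod ^ (2 * (I.length - 1)) := by
  induction I with
  | nil => simp [PP]
  | cons a X ih =>
    have e1 : (X.map fun b => (2 * a * b) ^ 2).prod = (2 * a) ^ (2 * X.length) * X.prod ^ 2 := by
      clear ih
      induction X with
      | nil => simp
      | cons b X ih =>
        rw [List.map_cons, List.prod_cons, ih, List.length_cons, List.prod_cons]
        ring
    rw [PP, e1, ih, List.length_cons, List.prod_cons, Nat.add_sub_cancel]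
    rcases X with _ | ⟨b, X⟩
    · simp
    · rw [List.length_cons, Nat.add_sub_cancel, show (X.length + 1 + 1) * (X.length + 1) =
        2 * (X.length + 1) + (X.length + 1) * X.length by ring, pow_add, mul_pow, mul_pow,
        show 2 * (X.length + 1) = 2 + 2 * X.length by ring, pow_add, pow_add]
      ring

lemma sch_map (g : ℂ → ℂ) (I : List ℂ) (φ : List (ℂ × SignType) → ℂ) :
    sch (I.map g) φ = sch I fun e => φ (e.map fun c => (g c.1, c.2)) := by
  induction I generalizing φ with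
  | nil => rfl
  | cons a I ih => simp only [List.map_cons, sch, ih]

/-- **the trigonometric charge sum is `S`** -/
theorem TS_eq (hθ : θ ^ 8 = -1) {f : List (ℂ × SignType)} (hf : ∀ d ∈ f, d.1 ≠ 0)
    {I : List ℂ} (hI : ∀ a ∈ I, a ≠ 0) :
    I.prod ^ (f.length + 2 * (I.length - 1)) *
      ((f.map Prod.fst).prod ^ I.length * 2 ^ (I.length * f.length + I.length * (I.length - 1))) *
      TS θ f I =
    (SG f (tot f / 2) * 2 ^ (tot f / 2 * (tot f / 2)) * Zc f (tot f / 2)) *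
      S (θ ^ 2) (2 * sn θ 1 1) (tot f) (HL θ (θ ^ 2) (sqL f)) (I.map (· ^ 2)) := by
  unfold TS S
  rw [sch_map, ← sch_mul_left, ← sch_mul_left]
  refine sch_congr fun e he => ?_
  subst he
  have he : ∀ c ∈ e, c.1 ≠ 0 := fun c hc => hI _ (List.mem_map_of_mem hc)
  have e1 : (e.map fun c => (c.1 ^ 2, c.2)) = sqL e := rfl
  rw [e1, tot_sqL]
  by_cases hq : 2 * tot e = tot f
  · rw [if_pos hq, if_pos hq, own_T hθ he, field_T hθ he hf, PP_eq, ← hq,
      Int.mul_ediv_cancel_left _ two_ne_zero, List.length_map,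
      show (e.length : ℤ) * f.length - tot e * (2 * tot e) =
        ((e.length * f.length : ℕ) : ℤ) + (-(tot e * tot e) + -(tot e * tot e)) by push_cast; ring,
      zpow_add₀ two_ne_zero, zpow_add₀ two_ne_zero, zpow_natCast, pow_add, pow_add]
    have z1 : Zc e (2 * tot e) * Zc e (-(2 * tot e)) = 1 := by
      rw [← Zc_add he, add_neg_cancel, Zc_zero]
    have z2 : Zc f (tot e) * Zc f (-tot e) = 1 := by
      rw [← Zc_add hf, add_neg_cancel, Zc_zero]
    have z3 := SG_sq f (tot e)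
    have z4 : (2 : ℂ) ^ (tot e * tot e) * 2 ^ (-(tot e * tot e)) = 1 := by
      rw [← zpow_add₀ two_ne_zero, add_neg_cancel, zpow_zero]
    have key : (SG f (tot e) * SG f (tot e)) * (((2 : ℂ) ^ (tot e * tot e) *
        2 ^ (-(tot e * tot e))) * ((2 : ℂ) ^ (tot e * tot e) * 2 ^ (-(tot e * tot e)))) *
        (Zc f (tot e) * Zc f (-tot e)) * (Zc e (2 * tot e) * Zc e (-(2 * tot e))) = 1 := by
      rw [z1, z2, z3, z4]
      norm_num
    generalize (2 : ℂ) ^ (-(tot e * tot e)) = t' at key ⊢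
    generalize (2 : ℂ) ^ (tot e * tot e) = t at key ⊢
    generalize Zc f (-tot e) = W' at key ⊢
    generalize Zc f (tot e) = W at key ⊢
    generalize Zc e (-(2 * tot e)) = V' at key ⊢
    generalize Zc e (2 * tot e) = V at key ⊢
    generalize SG f (tot e) = s at key ⊢
    generalize (e.map fun c => (f.map fun d => T θ d.2 c.2 (c.1 / d.1)).prod).prod = TT
    generalize ownT θ e = O
    generalize (e.map Prod.fst).prod = A
    generalize (f.map Prod.fst).prod = B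
    generalize (2 : ℂ) ^ (e.length * f.length) = u
    generalize (2 : ℂ) ^ (e.length * (e.length - 1)) = u'
    generalize A ^ f.length = a1
    generalize A ^ (2 * (e.length - 1)) = a2
    generalize B ^ e.length = b1
    linear_combination (-(a1 * a2 * (b1 * (u * u')) * (O * TT))) * key
  · rw [if_neg hq, if_neg hq, mul_zero, mul_zero]

lemma sig_sq (hθ : θ ^ 8 = -1) : (2 * sn θ 1 1) ^ 2 = 2 - θ ^ 2 + (θ ^ 2) ^ 3 := by
  have h0 := thNe hθ
  have := sn_lin hθ (show 1 ≤ 12 by norm_num) (one_ne_zero (α := ℂ)) (one_ne_zero (α := ℂ))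
  rw [div_one] at this
  rw [this]
  unfold lin
  norm_num
  ring_nf
  linear_combination (θ ^ 18 - θ ^ 10 + θ ^ 2 - 2 * (θ ^ 16 - θ ^ 8 + 1) + θ ^ 14 - θ ^ 6) * hθ

/-- **for fixed half rows the sum `S` on the right of `TS_eq` has the rules** -/
theorem TS_rul (hθ : θ ^ 8 = -1) (f : List (ℂ × SignType)) :
    Rul (θ ^ 2) ((sqL f).map Prod.fst)
      (S (θ ^ 2) (2 * sn θ 1 1) (tot f) (HL θ (θ ^ 2) (sqL f))) := by
  have h := S_rul (ζ := θ) (η := θ ^ 2) (σ := 2 * sn θ 1 1) (m := tot (sqL f)) rfl hθ (sig_sq hθ)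
    (HL_ext rfl hθ (sqL f))
  rwa [tot_sqL] at h

end SPN
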