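import Pool.Agent.SPN.PhB4
import Pool.Agent.SPN.PhT
import Pool.Agent.SPN.Pr

/-!
# The physical two-point function has the rules (D2)

`RE_rul`: for fixed second world `J` and ends `p, h | q, g` the function `I ↦ RE I J p h`, normalised by explicit
powers, is in `Rul (θ ^ 2) (Z ^ 2)`, `Z = p, h, q, g, J, J` (half rows).  `RE_rulJ` : the same in `J` for fixed `I`.
-/

set_option autoImplicit false

noncomputable section

namespace SPN

open NUTP (G)
open NUTP.Gas (gasF gas sm tm tt mk nl ow cr Cf Ty fl En)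

variable {θ χ : ℂ}

/-- the normaliser: `n` half rows with product `z` -/
def nrm (n : ℕ) (z : ℂ) (I : List ℂ) : ℂ :=
  I.prod ^ (n + 2 * (I.length - 1)) *
    (z ^ I.length * 2 ^ (I.length * n + I.length * (I.length - 1)))

lemma nrm_ne {n : ℕ} {z : ℂ} (hz : z ≠ 0) {I : List ℂ} (hI : ∀ a ∈ I, a ≠ 0) :
    nrm n z I ≠ 0 := by
  unfold nrm
  refine mul_ne_zero (pow_ne_zero _ ?_) (mul_ne_zero (pow_ne_zero _ hz) (pow_ne_zero _ two_ne_zero))
  exact List.prod_ne_zero fun h => hI 0 h rfl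

/-- a sum of charge sums in fields with the same half rows has the rules -/
theorem sum_rul (hθ : θ ^ 8 = -1) {Z : List ℂ} (hZ : ∀ z ∈ Z, z ≠ 0)
    (L : List (ℂ × List (ℂ × SignType))) (hL : ∀ t ∈ L, (t.2.map Prod.fst).Perm Z) :
    ∃ F : List ℂ → ℂ, Rul (θ ^ 2) (Z.map (· ^ 2)) F ∧ ∀ I : List ℂ, (∀ a ∈ I, a ≠ 0) →
      nrm Z.length Z.prod I * (L.map fun t => t.1 * TS θ t.2 I).sum = F (I.map (· ^ 2)) := by
  induction L with
  | nil => exact ⟨fun _ => 0, Rul.zero _, fun I _ => by simp⟩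
  | cons t L ih =>
    obtain ⟨F, hF, h⟩ := ih fun s hs => hL s (List.mem_cons_of_mem _ hs)
    have ht := hL t List.mem_cons_self
    have hne : ∀ d ∈ t.2, d.1 ≠ 0 := fun d hd => hZ _ (ht.subset (List.mem_map_of_mem hd))
    have hr := TS_rul hθ t.2
    have hp : ((sqL t.2).map Prod.fst).Perm (Z.map (· ^ 2)) := by
      have e : (sqL t.2).map Prod.fst = (t.2.map Prod.fst).map (· ^ 2) := by
        unfold sqL
        rw [List.map_map, List.map_map]
        rfl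
      rw [e]
      exact ht.map _
    have hr' := (Rul.permY hp hr).smul
      (t.1 * (SG t.2 (NUGas.tot t.2 / 2) * 2 ^ (NUGas.tot t.2 / 2 * (NUGas.tot t.2 / 2)) *
        Zc t.2 (NUGas.tot t.2 / 2)))
    refine ⟨_, hr'.add hF, fun I hI => ?_⟩
    rw [List.map_cons, List.sum_cons, mul_add, h I hI]
    congr 1
    have h1 := TS_eq hθ hne hI
    have e1 : t.2.length = Z.length := by rw [← ht.length_eq, List.length_map]
    rw [e1, ht.prod_eq] at h1
    unfold nrm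
    rw [mul_assoc t.1, ← h1]
    ring

/-! ### exchange of the two worlds -/

lemma cr_comm (hθ : θ ^ 8 = -1) (e f : Cf) : cr θ f e = cr θ e f := by
  induction e with
  | nil => rw [NUTP.Gas.cr_nil_left, NUTP.Gas.cr_nil_right]
  | cons c e ih => rw [NUTP.Gas.cr_cons_left, NUTP.Gas.cr_cons_right hθ, ih]

lemma tm_swap (hθ : θ ^ 8 = -1) (m : ℤ) (e f : Cf) :
    tm θ χ 0 0 0 m e f = tm θ χ 0 0 0 m f e := by
  unfold tm
  by_cases h : 0 + tt mk e = 0 ∧ 0 + tt mk f = 0 ∧ 0 + tt NUTP.Gas.ch e = tt NUTP.Gas.ch f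
  · rw [if_pos h, if_pos ⟨h.2.1, h.1, by linarith [h.2.2]⟩, cr_comm hθ e f,
      show tt NUTP.Gas.ch f = tt NUTP.Gas.ch e by linarith [h.2.2]]
    rw [show m + tt NUTP.Gas.ch e + tt nl e + tt nl f = m + tt NUTP.Gas.ch e + tt nl f + tt nl e by
      ring]
    ring
  · rw [if_neg h, if_neg fun h' => h ⟨h'.2.1, h'.1, by linarith [h'.2.2]⟩]

/-- the gas is symmetric in the two worlds -/
theorem gas_swap (hθ : θ ^ 8 = -1) (X Y : List (ℂ × Ty)) : gas θ χ X Y = gas θ χ Y X := by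
  unfold gas
  rw [NUTP.Gas.sm_comm]
  congr 1
  exact NUTP.Gas.sm_congr' fun f => NUTP.Gas.sm_congr' fun e => tm_swap hθ _ _ _

theorem RE_swap (hθ : θ ^ 8 = -1) (I J : List ℂ) (p h q g : ℂ) :
    (gasF θ χ true q g).RE I J p h = (gasF θ χ true p h).RE J I q g :=
  gas_swap hθ _ _

/-! ### the rules -/

/-- **`ER` has the rules in the first world** -/
theorem ER_rul (hθ : θ ^ 8 = -1) (τ : Bool) {J : List ℂ} (hJ : ∀ a ∈ J, a ≠ 0) {r h q g : ℂ}
    (hr : r ≠ 0) (hh : h ≠ 0) (hq : q ≠ 0) (hg : g ≠ 0) :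
    ∃ F : List ℂ → ℂ, Rul (θ ^ 2) ((h :: r :: q :: g :: (J ++ J)).map (· ^ 2)) F ∧
      ∀ I : List ℂ, G θ (r :: h :: q :: g :: (I ++ J)) →
        nrm (h :: r :: q :: g :: (J ++ J)).length (h :: r :: q :: g :: (J ++ J)).prod I *
          (gasF θ χ τ q g).ER I J r h = F (I.map (· ^ 2)) := by
  have hZ : ∀ z ∈ h :: r :: q :: g :: (J ++ J), z ≠ 0 := by
    intro z hz
    simp only [List.mem_cons, List.mem_append, or_self] at hz
    rcases hz with rfl | rfl | rfl | rfl | hz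
    · exact hh
    · exact hr
    · exact hq
    · exact hg
    · exact hJ z hz
  obtain ⟨F, hF, h1⟩ := sum_rul hθ hZ (LE θ χ τ J r h q g) fun t ht => LE_pts ht
  refine ⟨F, hF, fun I hG => ?_⟩
  rw [ER_TS hθ τ J hG]
  refine h1 I fun a ha h0 => ?_
  have := hG.1 (a ^ 2) (List.mem_map_of_mem (by simp [ha]))
  rw [h0] at this
  exact this (by ring)

/-- **`RE` has the rules in the first world** -/
theorem RE_rul (hθ : θ ^ 8 = -1) (τ : Bool) {J : List ℂ} (hJ : ∀ a ∈ J, a ≠ 0) {p h q g : ℂ}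
    (hp : p ≠ 0) (hh : h ≠ 0) (hq : q ≠ 0) (hg : g ≠ 0) :
    ∃ F : List ℂ → ℂ, Rul (θ ^ 2) ((p :: h :: g :: q :: (J ++ J)).map (· ^ 2)) F ∧
      ∀ I : List ℂ, G θ (p :: h :: q :: g :: (I ++ J)) →
        nrm (p :: h :: g :: q :: (J ++ J)).length (p :: h :: g :: q :: (J ++ J)).prod I *
          (gasF θ χ τ q g).RE I J p h = F (I.map (· ^ 2)) := by
  have hZ : ∀ z ∈ p :: h :: g :: q :: (J ++ J), z ≠ 0 := by
    intro z hz
    simp only [List.mem_cons, List.mem_append, or_self] at hz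
    rcases hz with rfl | rfl | rfl | rfl | hz
    · exact hp
    · exact hh
    · exact hg
    · exact hq
    · exact hJ z hz
  obtain ⟨F, hF, h1⟩ := sum_rul hθ hZ (LR θ χ τ J p h q g) fun t ht => LR_pts ht
  refine ⟨F, hF, fun I hG => ?_⟩
  rw [RE_TS hθ τ J hG]
  refine h1 I fun a ha h0 => ?_
  have := hG.1 (a ^ 2) (List.mem_map_of_mem (by simp [ha]))
  rw [h0] at this
  exact this (by ring)

/-- **`RE` has the rules in the second world** -/
theorem RE_rulJ (hθ : θ ^ 8 = -1) {I : List ℂ} (hI : ∀ a ∈ I, a ≠ 0) {p h q g : ℂ}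
    (hp : p ≠ 0) (hh : h ≠ 0) (hq : q ≠ 0) (hg : g ≠ 0) :
    ∃ F : List ℂ → ℂ, Rul (θ ^ 2) ((q :: g :: h :: p :: (I ++ I)).map (· ^ 2)) F ∧
      ∀ J : List ℂ, G θ (p :: h :: q :: g :: (I ++ J)) →
        nrm (q :: g :: h :: p :: (I ++ I)).length (q :: g :: h :: p :: (I ++ I)).prod J *
          (gasF θ χ true q g).RE I J p h = F (J.map (· ^ 2)) := by
  obtain ⟨F, hF, h1⟩ := RE_rul (χ := χ) hθ true hI hq hg hp hh
  refine ⟨F, hF, fun J hG => ?_⟩
  rw [RE_swap hθ]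
  refine h1 J (hG.perm hθ ?_)
  have e1 : (p :: h :: q :: g :: (I ++ J)).Perm (q :: g :: p :: h :: (I ++ J)) :=
    List.perm_append_comm_assoc [p, h] [q, g] (I ++ J)
  refine e1.trans ?_
  exact List.Perm.append_left [q, g, p, h] List.perm_append_comm

end SPN

end
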