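import Pool.Agent.SPN.Sum

/-!
# The charge sum in an external field is a polynomial in every line; `S_rul`
-/

set_option autoImplicit false

open Polynomial

namespace SPN

open NUGas

variable {ζ η σ : ℂ} {m : ℤ} {φ : SignType → ℂ → ℂ} {Y : List ℂ} {P : SignType → ℂ[X]}

/-- polynomial version of `oneS` -/
noncomputable def onePS (η σ : ℂ) (P : SignType → ℂ[X]) (a : SignType)
    (e : List (ℂ × SignType)) : ℂ[X] :=
  WP σ a * (e.map (fun d => FP η a d.2 d.1)).prod * P a

lemma onePS_eval (h4 : η ^ 4 = -1) (hP : ∀ a t, (P a).eval t = φ a t) {t : ℂ} (a : SignType)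
    {e : List (ℂ × SignType)} (h : Good η t (e.map Prod.fst)) :
    (onePS η σ P a e).eval t = (DP η (e.map Prod.fst)).eval t * oneS η σ φ t a e := by
  unfold onePS oneS
  rw [eval_mul, eval_mul, WP_eval, hP]
  have hF : ((e.map (fun d => FP η a d.2 d.1)).prod).eval t =
      (DP η (e.map Prod.fst)).eval t * (e.map (fun d => F η a d.2 t d.1)).prod := by
    induction e with
    | nil => simp [DP_nil]
    | cons d e ih =>
      simp only [List.map_cons, List.prod_cons, eval_mul]
      rw [ih (fun y hy => h y (by simp only [List.map_cons]; exact List.mem_cons_of_mem _ hy)),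
        FP_eval h4 (h d.1 (by simp)), DP_eval_cons h4]
      ring
  rw [hF]; ring

/-- numerator polynomial -/
noncomputable def RPS (η σ : ℂ) (m : ℤ) (φ : SignType → ℂ → ℂ) (P : SignType → ℂ[X])
    (X : List ℂ) : ℂ[X] :=
  ∑ a : SignType, sch X (fun e => onePS η σ P a e * C (restS η σ m φ (a : ℤ) e))

lemma RPS_eval (X : List ℂ) (t : ℂ) : (RPS η σ m φ P X).eval t =
    ∑ a : SignType, sch X (fun e => (onePS η σ P a e).eval t * restS η σ m φ (a : ℤ) e) := by
  unfold RPS
  rw [eval_finsetSum]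
  refine Finset.sum_congr rfl fun a _ => ?_
  rw [sch_eval]
  exact sch_congr fun e _ => by simp

lemma RPS_eval_good (h4 : η ^ 4 = -1) (hP : ∀ a t, (P a).eval t = φ a t) {t : ℂ} {X : List ℂ}
    (h : Good η t X) :
    (RPS η σ m φ P X).eval t = (DP η X).eval t * S η σ m φ (t :: X) := by
  rw [RPS_eval, S_cons, Finset.mul_sum]
  refine Finset.sum_congr rfl fun a _ => ?_
  rw [← sch_mul_left]
  refine sch_congr fun e he => ?_
  rw [onePS_eval h4 hP a (he ▸ h), he]
  ring

lemma restS_perm (h4 : η ^ 4 = -1) (k : ℤ) {e e' : List (ℂ × SignType)} (h : e.Perm e') :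
    restS η σ m φ k e = restS η σ m φ k e' := by
  unfold restS
  rw [tot_perm h, own_perm h4 h, (h.map _).prod_eq]

lemma RPS_perm (h4 : η ^ 4 = -1) {X X' : List ℂ} (h : X.Perm X') :
    RPS η σ m φ P X = RPS η σ m φ P X' := by
  unfold RPS
  refine Finset.sum_congr rfl fun a _ => sch_perm h fun e e' he => ?_
  rw [restS_perm h4 _ he]
  unfold onePS
  rw [(he.map _).prod_eq]

/-- the sum which multiplies `FP a b` when `x` is split off -/
noncomputable def SSS (η σ : ℂ) (m : ℤ) (φ : SignType → ℂ → ℂ) (r x : ℂ) (X : List ℂ)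
    (a b : SignType) : ℂ :=
  sch X (fun e => oneS η σ φ r a e * oneS η σ φ x b e * restS η σ m φ ((a : ℤ) + (b : ℤ)) e)

lemma RPS_eval_cons (h4 : η ^ 4 = -1) (hP : ∀ a t, (P a).eval t = φ a t) {r x : ℂ} {X : List ℂ}
    (h : Good η r X) :
    (RPS η σ m φ P (x :: X)).eval r = (DP η X).eval r *
      ∑ a : SignType, ∑ b : SignType, (FP η a b x).eval r * SSS η σ m φ r x X a b := by
  rw [RPS_eval, Finset.mul_sum]
  refine Finset.sum_congr rfl fun a _ => ?_
  simp only [sch]
  rw [Finset.mul_sum]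
  refine Finset.sum_congr rfl fun b _ => ?_
  unfold SSS
  rw [← sch_mul_left, ← sch_mul_left]
  refine sch_congr fun e he => ?_
  have : (onePS η σ P a ((x, b) :: e)).eval r = (FP η a b x).eval r * (onePS η σ P a e).eval r := by
    unfold onePS
    simp only [List.map_cons, List.prod_cons, eval_mul]; ring
  rw [this, onePS_eval h4 hP a (he ▸ h), he, restS_cons]
  ring

lemma SSS_symm (x : ℂ) (X : List ℂ) (a b : SignType) :
    SSS η σ m φ x x X a b = SSS η σ m φ x x X b a := by
  unfold SSS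
  refine sch_congr fun e _ => ?_
  rw [mul_comm (oneS η σ φ x a e), add_comm (a : ℤ)]

lemma SSS_comm (r x : ℂ) (X : List ℂ) (a b : SignType) :
    SSS η σ m φ r x X a b = SSS η σ m φ x r X b a := by
  unfold SSS
  refine sch_congr fun e _ => ?_
  rw [mul_comm (oneS η σ φ r a e), add_comm (a : ℤ)]

lemma root0S (h4 : η ^ 4 = -1) (hP : ∀ a t, (P a).eval t = φ a t) {x : ℂ} {X : List ℂ}
    (h : Gen η (x :: X)) : (RPS η σ m φ P (x :: X)).eval x = 0 := by
  rw [RPS_eval_cons h4 hP (h.good h4)]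
  have key : ∑ a : SignType, ∑ b : SignType, (FP η a b x).eval x * SSS η σ m φ x x X a b = 0 := by
    set T := ∑ a : SignType, ∑ b : SignType, (FP η a b x).eval x * SSS η σ m φ x x X a b with hS
    have : T = -T := by
      conv_rhs => rw [hS, Finset.sum_comm]
      rw [hS, ← Finset.sum_neg_distrib]
      refine Finset.sum_congr rfl fun a _ => ?_
      rw [← Finset.sum_neg_distrib]
      refine Finset.sum_congr rfl fun b _ => ?_
      rw [FP_anti h4 x a b, SSS_symm x X a b]
      ring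
    linear_combination (1 / 2 : ℂ) * this
  rw [key, mul_zero]

/-- charges `(-, +)` of the lines `η * t`, `t` against charges `(0, 0)` -/
lemma SSS_pm (hη : η = ζ ^ 2) (hζ : ζ ^ 8 = -1) (hE : Ext ζ η Y m φ) (t : ℂ) (X : List ℂ)
    (h : ∀ y ∈ X, Sep η t y) :
    SSS η σ m φ (η * t) t X .neg .pos =
      (σ ^ 2 * (η * t ^ 2)) * SSS η σ m φ (η * t) t X .zero .zero := by
  have h4 := eta4_of hη hζ
  have h0 := eta_ne h4
  unfold SSS
  rw [← sch_mul_left]
  refine sch_congr fun e he => ?_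
  have h1 := Fuse.prod_line (P := fun d x => F η .neg d (η * t) x) (Q := fun d x => F η .pos d t x)
    (R := fun d x => F η .zero d (η * t) x * F η .zero d t x) (inv_ne_zero h0) (fun _ => 1)
    (fun x hx d => NF h4 (h x hx) d) he
  simp only [List.prod_map_mul, List.map_const', List.prod_replicate, one_pow, one_mul] at h1
  have hk : (((SignType.neg : SignType) : ℤ) + ((SignType.pos : SignType) : ℤ)) = 0 := rfl
  have hk' : (((SignType.zero : SignType) : ℤ) + ((SignType.zero : SignType) : ℤ)) = 0 := rfl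
  rw [hk, hk']
  by_cases hn : 2 * ((0 : ℤ) + tot e) = m
  · have h3 : (η⁻¹) ^ tot e * ζ ^ m = 1 := by
      rw [zpow_split hη hn, zero_add, ← mul_zpow, inv_mul_cancel₀ h0, one_zpow]
    unfold oneS
    simp only [wt]
    calc _ = (σ ^ 2 * (η * t ^ 2)) *
          ((e.map (fun d => F η .neg d.2 (η * t) d.1)).prod *
            (e.map (fun d => F η .pos d.2 t d.1)).prod) *
          (φ .neg (η * t) * φ .pos t) * restS η σ m φ 0 e := by ring
      _ = ((η⁻¹) ^ tot e * ζ ^ m) * ((σ ^ 2 * (η * t ^ 2)) *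
          ((e.map (fun d => F η .zero d.2 (η * t) d.1)).prod *
            (e.map (fun d => F η .zero d.2 t d.1)).prod) *
          (φ .zero (η * t) * φ .zero t) * restS η σ m φ 0 e) := by rw [h1, hE.pole]; ring
      _ = _ := by rw [h3]; ring
  · have : restS η σ m φ 0 e = 0 := by unfold restS; rw [if_neg hn]
    rw [this]; ring

lemma root1S (hη : η = ζ ^ 2) (hζ : ζ ^ 8 = -1) (hσ : σ ^ 2 = 2 - η + η ^ 3)
    (hE : Ext ζ η Y m φ) (hP : ∀ a t, (P a).eval t = φ a t) {x : ℂ} {X : List ℂ}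
    (h : Gen η (x :: X)) : (RPS η σ m φ P (x :: X)).eval (η * x) = 0 := by
  have h4 := eta4_of hη hζ
  have hg : Good η (η * x) X := by have := (h.scale h4 1).good h4; rwa [pow_one] at this
  rw [RPS_eval_cons h4 hP hg]
  have hl : ∀ k, lin η k (η * x) x = (η ^ (k + 1) - 1) * x := fun k => by unfold lin; ring
  have z7 : lin η 7 (η * x) x = 0 := by rw [hl, show 7 + 1 = 8 from rfl, eta8 h4]; ring
  have key : ∑ a : SignType, ∑ b : SignType, (FP η a b x).eval (η * x) *
      SSS η σ m φ (η * x) x X a b = 0 := by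
    simp only [sum3, FP, eval_mul, eval_C, LP_eval, z7, zero_mul, mul_zero, zero_add, add_zero]
    rw [SSS_pm hη hζ hE x X (fun y hy => h.sep hy), hσ]
    simp only [hl, Nat.reduceAdd]
    linear_combination (x ^ 5 * SSS η σ m φ (η * x) x X .zero .zero * (-1 + η + η ^ 3 + η ^ 4
      - 2 * η ^ 5 - η ^ 6 - η ^ 7 + η ^ 8 + η ^ 9 + η ^ 10 - η ^ 13 - η ^ 16 + η ^ 17)) * h4
  rw [key, mul_zero]

lemma root7S (hη : η = ζ ^ 2) (hζ : ζ ^ 8 = -1) (hσ : σ ^ 2 = 2 - η + η ^ 3)
    (hE : Ext ζ η Y m φ) (hP : ∀ a t, (P a).eval t = φ a t) {x : ℂ} {X : List ℂ}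
    (h : Gen η (x :: X)) : (RPS η σ m φ P (x :: X)).eval (η ^ 7 * x) = 0 := by
  have h4 := eta4_of hη hζ
  have hg : Good η (η ^ 7 * x) X := (h.scale h4 7).good h4
  have hs : ∀ y ∈ X, Sep η (η ^ 7 * x) y := fun y hy => (h.sep hy).mul_left 7
  obtain ⟨z, hz⟩ : ∃ z, z = η ^ 7 * x := ⟨_, rfl⟩
  have hx : x = η * z := by
    rw [hz, ← mul_assoc, ← pow_succ', eta8 h4, one_mul]
  rw [← hz] at hg hs ⊢
  rw [hx]
  rw [RPS_eval_cons h4 hP hg]
  have hl : ∀ k, lin η k z (η * z) = (η ^ k - η) * z := fun k => by unfold lin; ring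
  have z1 : lin η 1 z (η * z) = 0 := by rw [hl]; ring
  have key : ∑ a : SignType, ∑ b : SignType, (FP η a b (η * z)).eval z *
      SSS η σ m φ z (η * z) X a b = 0 := by
    simp only [sum3, FP, eval_mul, eval_C, LP_eval, z1, zero_mul, mul_zero, zero_add, add_zero]
    rw [SSS_comm z (η * z) X .pos .neg, SSS_comm z (η * z) X .zero .zero,
      SSS_pm hη hζ hE z X hs, hσ]
    simp only [hl]
    linear_combination (z ^ 5 * SSS η σ m φ (η * z) z X .zero .zero * (η ^ 4 - 2 * η ^ 5
      - 2 * η ^ 8 + 3 * η ^ 9 + η ^ 10 + 2 * η ^ 12 - 3 * η ^ 14 + η ^ 15 - η ^ 16 - 2 * η ^ 17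
      + 2 * η ^ 18 - η ^ 19 + η ^ 21)) * h4
  rw [key, mul_zero]

/-- the numerator vanishes at all possible poles -/
lemma RPS_root (hη : η = ζ ^ 2) (hζ : ζ ^ 8 = -1) (hσ : σ ^ 2 = 2 - η + η ^ 3)
    (hE : Ext ζ η Y m φ) (hP : ∀ a t, (P a).eval t = φ a t) {X : List ℂ}
    (h : Gen η X) {t : ℂ} (ht : t ∈ bad η X) : (RPS η σ m φ P X).eval t = 0 := by
  have h4 := eta4_of hη hζ
  obtain ⟨x, hx, h1⟩ := mem_bad ht
  obtain ⟨s, t', rfl⟩ := List.append_of_mem hx
  have hp : (s ++ x :: t').Perm (x :: (s ++ t')) := List.perm_middle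
  rw [RPS_perm h4 hp]
  have hG := h.perm h4 hp
  rcases h1 with rfl | rfl | rfl
  · exact root0S h4 hP hG
  · exact root7S hη hζ hσ hE hP hG
  · rw [pow_one]; exact root1S hη hζ hσ hE hP hG

lemma DPS_dvd (hη : η = ζ ^ 2) (hζ : ζ ^ 8 = -1) (hσ : σ ^ 2 = 2 - η + η ^ 3)
    (hE : Ext ζ η Y m φ) (hP : ∀ a t, (P a).eval t = φ a t) {X : List ℂ} (h : Gen η X) :
    DP η X ∣ RPS η σ m φ P X :=
  list_dvd (nodup_bad (eta4_of hη hζ) h) fun _ ht => RPS_root hη hζ hσ hE hP h ht

/-! ### degree and top coefficient -/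

lemma onePS_natDegree (hd : ∀ a : SignType, ((P a).natDegree : ℤ) ≤ Y.length - (a : ℤ) * m)
    (a : SignType) (e : List (ℂ × SignType)) :
    ((onePS η σ P a e).natDegree : ℤ) ≤ (a : ℤ) * (a : ℤ) + 5 * e.length + Y.length +
      (a : ℤ) * (2 * tot e - m) := by
  unfold onePS
  have h1 := WP_natDegree (σ := σ) a
  have h2 := natDegree_lines (P := fun d x => FP η a d x) (k := 5) (l := 2 * (a : ℤ))
    (fun d x => FP_natDegree a d x) e
  have h3 := hd a
  have h4 : ((WP σ a * (e.map (fun d => FP η a d.2 d.1)).prod * P a).natDegree : ℤ) ≤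
      (WP σ a).natDegree + ((e.map (fun d => FP η a d.2 d.1)).prod).natDegree +
      (P a).natDegree := by
    exact_mod_cast natDegree_mul_le.trans (Nat.add_le_add_right natDegree_mul_le _)
  linarith

lemma onePS_coeff (h4 : η ^ 4 = -1) (hη : η = ζ ^ 2)
    (hd : ∀ a : SignType, ((P a).natDegree : ℤ) ≤ Y.length - (a : ℤ) * m)
    (hc : (P .zero).coeff Y.length = ζ ^ (-m)) (e : List (ℂ × SignType)) (h : 2 * tot e = m) :
    (onePS η σ P .zero e).coeff (5 * e.length + Y.length) = 1 := by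
  have h0 := eta_ne h4
  have h1 := coeff_lines (P := fun d x => FP η .zero d x) h0 5 (fun d x => FP_coeff h4 d x) e
  have h2 : (P .zero).natDegree ≤ Y.length := by
    have := hd .zero
    rw [show ((SignType.zero : SignType) : ℤ) = 0 from rfl, zero_mul, sub_zero] at this
    exact_mod_cast this
  have h3 := (deg2 h1 ⟨h2, hc⟩).2
  unfold onePS
  simp only [WP, one_mul]
  rw [h3, zpow_neg, zpow_split hη h, mul_inv_cancel₀ (zpow_ne_zero _ h0)]

lemma RPS_coeff (X : List ℂ) (n : ℕ) : (RPS η σ m φ P X).coeff n =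
    ∑ a : SignType, sch X (fun e => (onePS η σ P a e).coeff n * restS η σ m φ (a : ℤ) e) := by
  unfold RPS
  rw [finsetSum_coeff]
  refine Finset.sum_congr rfl fun a _ => ?_
  rw [sch_coeff]
  exact sch_congr fun e _ => by simp

/-- one term: coefficients above the top vanish, and for a nonzero charge also the top one -/
lemma onePS_coeff_zero (hd : ∀ a : SignType, ((P a).natDegree : ℤ) ≤ Y.length - (a : ℤ) * m)
    {a : SignType} {e : List (ℂ × SignType)} {n : ℕ}
    (h : (a : ℤ) * (a : ℤ) = 1 ∧ 5 * e.length + Y.length ≤ n ∨ 5 * e.length + Y.length < n) :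
    (onePS η σ P a e).coeff n * restS η σ m φ (a : ℤ) e = 0 := by
  by_cases hn : 2 * ((a : ℤ) + tot e) = m
  · have h1 := onePS_natDegree (η := η) (σ := σ) hd a e
    have h2 : 2 * tot e - m = - (2 * (a : ℤ)) := by linarith
    rw [h2] at h1
    have h3 : 0 ≤ (a : ℤ) * (a : ℤ) := mul_self_nonneg _
    have : ((onePS η σ P a e).natDegree : ℤ) < n := by
      rcases h with ⟨h4, h5⟩ | h5
      · have h5' : (5 * (e.length : ℤ) + Y.length) ≤ n := by exact_mod_cast h5
        rw [h4] at h1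
        nlinarith
      · have h5' : (5 * (e.length : ℤ) + Y.length) < n := by exact_mod_cast h5
        nlinarith
    rw [coeff_eq_zero_of_natDegree_lt (by exact_mod_cast this), zero_mul]
  · have : restS η σ m φ (a : ℤ) e = 0 := by unfold restS; rw [if_neg hn]
    rw [this, mul_zero]

lemma RPS_natDegree (hd : ∀ a : SignType, ((P a).natDegree : ℤ) ≤ Y.length - (a : ℤ) * m)
    (X : List ℂ) : (RPS η σ m φ P X).natDegree ≤ 5 * X.length + Y.length := by
  rw [natDegree_le_iff_coeff_eq_zero]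
  intro n hn
  rw [RPS_coeff]
  refine Finset.sum_eq_zero fun a _ => ?_
  rw [← sch_zero X]
  refine sch_congr fun e he => ?_
  apply onePS_coeff_zero hd
  right
  rw [← he] at hn
  simpa using hn

lemma RPS_top (h4 : η ^ 4 = -1) (hη : η = ζ ^ 2)
    (hd : ∀ a : SignType, ((P a).natDegree : ℤ) ≤ Y.length - (a : ℤ) * m)
    (hc : (P .zero).coeff Y.length = ζ ^ (-m)) (X : List ℂ) :
    (RPS η σ m φ P X).coeff (5 * X.length + Y.length) = S η σ m φ X := by
  rw [RPS_coeff, sum3]
  have hz : ∀ a : SignType, (a : ℤ) * (a : ℤ) = 1 → sch X (fun e =>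
      (onePS η σ P a e).coeff (5 * X.length + Y.length) * restS η σ m φ (a : ℤ) e) = 0 := by
    intro a ha
    rw [← sch_zero X]
    refine sch_congr fun e he => ?_
    apply onePS_coeff_zero hd
    left
    refine ⟨ha, ?_⟩
    rw [← he]
    simp
  rw [hz .neg rfl, hz .pos rfl, add_zero, add_zero, S_eq]
  refine sch_congr fun e he => ?_
  rw [show ((SignType.zero : SignType) : ℤ) = 0 from rfl]
  by_cases hn : 2 * tot e = m
  · have h1 : X.length = e.length := by rw [← he]; simp
    rw [h1, onePS_coeff h4 hη hd hc e hn, one_mul]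
  · have h1 : restS η σ m φ 0 e = 0 := by unfold restS; rw [if_neg (by rwa [zero_add])]
    rw [h1, mul_zero]

/-! ### the value at zero -/

lemma S_at_zero (hη : η = ζ ^ 2) (h4 : η ^ 4 = -1) (h0 : φ .zero 0 = ζ ^ m * Y.prod)
    {X : List ℂ} (hX : ∀ x ∈ X, x ≠ 0) :
    S η σ m φ (0 :: X) = ((X.map (fun x => x ^ 2)).prod * Y.prod) * S η σ m φ X := by
  have he0 := eta_ne h4
  rw [S_cons, sum3]
  have hz : ∀ a : SignType, (∀ t : ℂ, wt σ a t = σ * t) → sch X (fun e =>
      oneS η σ φ 0 a e * restS η σ m φ (a : ℤ) e) = 0 := by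
    intro a ha
    refine (sch_congr fun e he => ?_).trans (sch_zero X)
    unfold oneS
    rw [ha]
    ring
  rw [hz .neg (fun _ => rfl), hz .pos (fun _ => rfl), add_zero, add_zero, S_eq, ← sch_mul_left]
  refine sch_congr fun e he => ?_
  rw [show ((SignType.zero : SignType) : ℤ) = 0 from rfl]
  by_cases hn : 2 * ((0 : ℤ) + tot e) = m
  · have h1 := prod_line1 (P := fun d x => F η .zero d 0 x) (inv_ne_zero he0) (fun x => x ^ 2)
      (fun x hx d => F_at_zero h4 (hX x hx) d) he
    have h3 : (η⁻¹) ^ tot e * ζ ^ m = 1 := by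
      rw [zpow_split hη hn, zero_add, ← mul_zpow, inv_mul_cancel₀ he0, one_zpow]
    unfold oneS
    rw [h1, h0]
    simp only [wt]
    linear_combination ((X.map (fun x => x ^ 2)).prod * Y.prod * restS η σ m φ 0 e) * h3
  · have : restS η σ m φ 0 e = 0 := by unfold restS; rw [if_neg hn]
    rw [this]; ring

/-- **the charge sum in an external field of half rows has the rules** -/
theorem S_rul (hη : η = ζ ^ 2) (hζ : ζ ^ 8 = -1) (hσ : σ ^ 2 = 2 - η + η ^ 3)
    (hE : Ext ζ η Y m φ) : Rul η Y (S η σ m φ) where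
  perm h := S_perm (eta4_of hη hζ) h
  cross q X hX := S_cross hη hζ hσ hE q X hX
  fuse t X hX := S_fuse hη hζ hσ hE t X hX
  poly X hX := by
    have h4 := eta4_of hη hζ
    obtain ⟨P, hP, hd, hc⟩ := hE.poly
    obtain ⟨Q, hQ⟩ := DPS_dvd hη hζ hσ hE hP hX
    have hgood : ∀ t, Good η t X → S η σ m φ (t :: X) = Q.eval t := by
      intro t ht
      have h1 := RPS_eval_good (σ := σ) (m := m) h4 hP ht
      rw [hQ, eval_mul] at h1
      exact (mul_left_cancel₀ (DP_eval_ne h4 ht) h1).symm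
    have hdeg : Q.natDegree ≤ 2 * X.length + Y.length := by
      rcases eq_or_ne Q 0 with rfl | hQ0
      · simp
      · have h1 := RPS_natDegree (η := η) (σ := σ) (φ := φ) hd X
        rw [hQ, (DP_monic X).natDegree_mul' hQ0, DP_natDegree] at h1
        omega
    have hcoeff : Q.coeff (2 * X.length + Y.length) = S η σ m φ X := by
      rw [← RPS_top h4 hη hd hc X, hQ,
        show 5 * X.length + Y.length = 3 * X.length + (2 * X.length + Y.length) by ring,
        coeff_mul_add_eq_of_natDegree_le (DP_natDegree X).le hdeg]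
      have : (DP η X).coeff (3 * X.length) = 1 := by
        have := (DP_monic (η := η) X).coeff_natDegree
        rwa [DP_natDegree] at this
      rw [this, one_mul]
    refine ⟨Q, hdeg, hcoeff, ?_, hgood⟩
    rw [coeff_zero_eq_eval_zero, ← hgood 0 ?_, S_at_zero hη h4 hE.zero hX.1]
    intro x hx
    have hx0 := hX.1 x hx
    refine ⟨hx0.symm, by rw [mul_zero]; exact hx0.symm, ?_⟩
    exact (mul_ne_zero (eta_ne h4) hx0).symm

end SPN
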